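import Pool.Agent.TH138.LG.Main

set_option autoImplicit false

/-!
# A Zariski dense iterative language on a uniruled variety
-/

namespace Pool.Agent.TH138.LG

open Finset Pool.Agent.H533R3.SL
open scoped LinearAlgebra.Projectivization

variable {L : Type} [Field L] {n : ℕ}

/-- the zero letter -/
def zl (D : ℕ) : Option (Option (Fin (D + 1))) := some none

/-- the letter with digit vector the coefficients of `T ^ m` -/
def dl (D m : ℕ) : Option (Option (Fin (D + 1))) := some (some (Fin.ofNat (D + 1) m))

def psq (D q : ℕ) : List (List (Option (Option (Fin (D + 1)))) ×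
    List (Option (Option (Fin (D + 1))))) :=
  (List.range D).map fun t => ([zl D], List.replicate q (zl D) ++ [dl D (D - 1 - t)])

def Wd (D q : ℕ) : List (Option (Option (Fin (D + 1)))) := pumped 0 [dl D D] (psq D q)

theorem pumped_psq (D q j : ℕ) : pumped j [dl D D] (psq D q) = Wd D (q + j) := by
  unfold Wd pumped psq
  rw [List.map_map, List.map_map]
  congr 2
  apply List.map_congr_left
  intro t _
  simp only [Function.comp, List.replicate_zero, List.flatten_nil, List.nil_append]
  rw [← List.append_assoc]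
  congr 1
  have : (List.replicate j [zl D]).flatten = List.replicate j (zl D) := by
    induction j with
    | zero => rfl
    | succ j ih => rw [List.replicate_succ, List.flatten_cons, ih]; rfl
  rw [this, List.replicate_append_replicate, Nat.add_comm j q]

theorem length_Wd (D q : ℕ) : (Wd D q).length = 1 + D * (q + 1) := by
  unfold Wd psq
  rw [length_pumped, List.map_map]
  have : ((fun p : List (Option (Option (Fin (D + 1)))) × List (Option (Option (Fin (D + 1)))) =>
      0 * p.1.length + p.2.length) ∘ fun t =>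
      ([zl D], List.replicate q (zl D) ++ [dl D (D - 1 - t)])) = fun _ => q + 1 := by
    funext t; simp
  rw [this]
  simp

theorem countP_Wd (D q : ℕ) : (Wd D q).countP Option.isNone = 0 := by
  rw [List.countP_eq_zero]
  intro a ha
  unfold Wd pumped psq at ha
  simp only [List.mem_append, List.mem_singleton, List.mem_flatten, List.mem_map,
    List.mem_range, List.replicate_zero, List.flatten_nil, List.nil_append] at ha
  rcases ha with rfl | ⟨l, ⟨p, ⟨t, _, rfl⟩, rfl⟩, ha⟩
  · simp [dl]
  · simp only [List.mem_append, List.mem_replicate, List.mem_singleton] at ha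
    rcases ha with ⟨_, rfl⟩ | rfl
    · simp [zl]
    · simp [dl]

def δp (p : Fin (n + 1) → Polynomial L) (D : ℕ) : ℕ → Option (Fin (D + 1)) → Fin (n + 1) → L
  | _, none, _ => 0
  | _, some m, i => (p i).coeff m

def actp : ℕ → Fin (n + 1) → Bool := fun _ _ => true

theorem run_zeros (p : Fin (n + 1) → Polynomial L) (D : ℕ) (b : L) (q : ℕ)
    (x : Fin (n + 1) → L) : run b actp (δp p D) (0, x) (List.replicate q (zl D)) =
      (0, fun j => b ^ q * x j) := by
  induction q generalizing x with
  | zero => simp [run]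
  | succ q ih =>
    have h1 : run b actp (δp p D) (0, x) (List.replicate (q + 1) (zl D)) =
        run b actp (δp p D) (0, fun j => b * x j + 0) (List.replicate q (zl D)) := rfl
    rw [h1, ih]
    ext j
    · rfl
    · simp only; ring

theorem run_digit (p : Fin (n + 1) → Polynomial L) (D : ℕ) (b : L) (m : ℕ) (hm : m ≤ D)
    (x : Fin (n + 1) → L) : run b actp (δp p D) (0, x) [dl D m] =
      (0, fun j => b * x j + (p j).coeff m) := by
  have h1 : run b actp (δp p D) (0, x) [dl D m] =
      (0, fun j => b * x j + (p j).coeff (Fin.ofNat (D + 1) m : Fin (D + 1))) := rfl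
  rw [h1]
  have : ((Fin.ofNat (D + 1) m : Fin (D + 1)) : ℕ) = m := by
    simp [Fin.ofNat, Nat.mod_eq_of_lt (Nat.lt_succ_of_le hm)]
  rw [this]

theorem run_blocks (p : Fin (n + 1) → Polynomial L) (D : ℕ) (b : L) (q : ℕ) (t : ℕ)
    (ht : t ≤ D) :
    run b actp (δp p D) (0, fun j => (p j).coeff D)
      ((List.range t).map fun t => List.replicate q (zl D) ++ [dl D (D - 1 - t)]).flatten =
      (0, fun j => ∑ m ∈ range (t + 1), (p j).coeff (D - m) * (b ^ (q + 1)) ^ (t - m)) := by
  induction t with
  | zero => simp [run]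
  | succ t ih =>
    rw [List.range_succ, List.map_append, List.flatten_append, run_append, ih (by omega)]
    simp only [List.map_cons, List.map_nil, List.flatten_cons, List.flatten_nil, List.append_nil]
    rw [run_append, run_zeros, run_digit p D b _ (by omega)]
    ext j
    · rfl
    · simp only
      rw [Finset.sum_range_succ _ (t + 1), Nat.sub_self, pow_zero, mul_one]
      congr 1
      · rw [Finset.mul_sum, Finset.mul_sum]
        refine Finset.sum_congr rfl fun m hm => ?_
        have h1 : t + 1 - m = (t - m) + 1 := by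
          have := Finset.mem_range.1 hm; omega
        rw [h1, pow_succ (b ^ (q + 1)) (t - m), pow_succ b q]
        ring
      · congr 1; omega

theorem value_Wd (p : Fin (n + 1) → Polynomial L) (D : ℕ) (hD : ∀ i, (p i).natDegree ≤ D)
    (b : L) (q : ℕ) : value b actp (δp p D) (Wd D q) =
      fun i => (p i).eval (b ^ (q + 1)) := by
  unfold value Wd pumped psq
  rw [run_append, List.map_map]
  have h1 : run b actp (δp p D) (0, 0) [dl D D] = (0, fun j => (p j).coeff D) := by
    rw [show ((0 : ℕ), (0 : Fin (n + 1) → L)) = (0, fun _ => 0) from rfl,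
      run_digit p D b D le_rfl]
    simp
  rw [h1]
  have h2 : ((fun p : List (Option (Option (Fin (D + 1)))) × List (Option (Option (Fin (D + 1))))
      => (List.replicate 0 p.1).flatten ++ p.2) ∘ fun t =>
      ([zl D], List.replicate q (zl D) ++ [dl D (D - 1 - t)])) =
      fun t => List.replicate q (zl D) ++ [dl D (D - 1 - t)] := by
    funext t; simp
  rw [h2, run_blocks p D b q D le_rfl]
  funext j
  simp only
  rw [Polynomial.eval_eq_sum_range' (Nat.lt_succ_of_le (hD j))]
  exact Finset.sum_range_reflect (fun m => (p j).coeff m * (b ^ (q + 1)) ^ m) (D + 1) |>.symm ▸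
    (Finset.sum_congr rfl fun m hm => by
      have := Finset.mem_range.1 hm
      simp)

/-- the values of a nonconstant rational curve: each point is attained finitely often -/
theorem fibre_finite (p : Fin (n + 1) → Polynomial L)
    (h3 : ∃ i j, p i * Polynomial.C ((p j).eval 1) ≠ p j * Polynomial.C ((p i).eval 1))
    (b : L) (hb0 : b ≠ 0) (hb : ∀ m : ℕ, 0 < m → b ^ m ≠ 1) (y : Fin (n + 1) → L) (hy : y ≠ 0) :
    {q : ℕ | ∀ i j, (p i).eval (b ^ (q + 1)) * y j = (p j).eval (b ^ (q + 1)) * y i}.Finite := by
  by_contra hinf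
  obtain ⟨j0, hj0⟩ : ∃ j, y j ≠ 0 := by
    by_contra hcon
    push Not at hcon
    exact hy (funext hcon)
  have hcr : ∀ i j, p i * Polynomial.C (y j) = p j * Polynomial.C (y i) := by
    intro i j
    rw [← sub_eq_zero]
    refine Polynomial.eq_zero_of_infinite_isRoot _ (Set.Infinite.mono ?_
      ((Set.Infinite.image (f := fun q : ℕ => b ^ (q + 1)) ?_ hinf)))
    · rintro _ ⟨q, hq, rfl⟩
      show Polynomial.eval _ _ = 0
      simp only [Polynomial.eval_sub, Polynomial.eval_mul, Polynomial.eval_C]
      rw [sub_eq_zero]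
      exact hq i j
    · intro q _ q' _ h
      have := pow_injective hb0 hb h
      simpa using this
  obtain ⟨i, j, hij⟩ := h3
  apply hij
  have hi : p i * Polynomial.C (y j0) = p j0 * Polynomial.C (y i) := hcr i j0
  have hj : p j * Polynomial.C (y j0) = p j0 * Polynomial.C (y j) := hcr j j0
  have hi1 : (p i).eval 1 * y j0 = (p j0).eval 1 * y i := by
    have := congrArg (Polynomial.eval 1) hi
    simpa using this
  have hj1 : (p j).eval 1 * y j0 = (p j0).eval 1 * y j := by
    have := congrArg (Polynomial.eval 1) hj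
    simpa using this
  have hC : (Polynomial.C (y j0) : Polynomial L) ≠ 0 := by simpa using hj0
  have hCi : Polynomial.C ((p i).eval 1) * Polynomial.C (y j0) =
      Polynomial.C ((p j0).eval 1) * Polynomial.C (y i) := by
    rw [← Polynomial.C_mul, ← Polynomial.C_mul, hi1]
  have hCj : Polynomial.C ((p j).eval 1) * Polynomial.C (y j0) =
      Polynomial.C ((p j0).eval 1) * Polynomial.C (y j) := by
    rw [← Polynomial.C_mul, ← Polynomial.C_mul, hj1]
  have hfin : (p i * Polynomial.C ((p j).eval 1)) * (Polynomial.C (y j0) * Polynomial.C (y j0)) =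
      (p j * Polynomial.C ((p i).eval 1)) * (Polynomial.C (y j0) * Polynomial.C (y j0)) := by
    calc (p i * Polynomial.C ((p j).eval 1)) * (Polynomial.C (y j0) * Polynomial.C (y j0))
        = (p i * Polynomial.C (y j0)) * (Polynomial.C ((p j).eval 1) * Polynomial.C (y j0)) := by
          ring
      _ = (p j0 * Polynomial.C (y i)) * (Polynomial.C ((p j0).eval 1) * Polynomial.C (y j)) := by
          rw [hi, hCj]
      _ = (p j0 * Polynomial.C (y j)) * (Polynomial.C ((p j0).eval 1) * Polynomial.C (y i)) := by
          ring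
      _ = (p j * Polynomial.C (y j0)) * (Polynomial.C ((p i).eval 1) * Polynomial.C (y j0)) := by
          rw [hj, hCi]
      _ = _ := by ring
  exact mul_right_cancel₀ (mul_ne_zero hC hC) hfin

/-- **On a uniruled variety there is an iterative language of points that is Zariski dense.** -/
theorem dense_language {k : Type} [Field k] [CharZero k]
    (I : Ideal (MvPolynomial (Fin (n + 1)) k)) (hu : Uniruled I) :
    ∃ (L : Type) (_ : Field L) (_ : Algebra k L) (A : Type) (_ : Finite A)
      (δ : ℕ → A → Fin (n + 1) → L) (s p : ℕ) (𝓛 : Set (List (Option A))),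
      Iterative s p 𝓛 ∧ (∀ w ∈ 𝓛, w.countP Option.isNone = 0) ∧
      (∀ w ∈ 𝓛, value (2 : L) (fun _ _ => true) δ w ≠ 0 ∧
        ∀ F ∈ I, MvPolynomial.aeval (value (2 : L) (fun _ _ => true) δ w) F = 0) ∧
      ∀ G : MvPolynomial (Fin (n + 1)) k, (∃ e, G.IsHomogeneous e) → G ∉ I →
        ¬ (offPts (2 : L) (fun _ _ => true) δ 𝓛 G).Finite := by
  classical
  obtain ⟨L, hL, hA, p, h1, h2, h3⟩ := hu
  haveI : CharZero L := charZero_of_injective_algebraMap (algebraMap k L).injective
  set D : ℕ := Finset.univ.sup fun i => (p i).natDegree with hDdef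
  have hD : ∀ i, (p i).natDegree ≤ D := fun i => Finset.le_sup (f := fun i => (p i).natDegree)
    (Finset.mem_univ i)
  have hb0 : (2 : L) ≠ 0 := two_ne_zero
  have hb : ∀ m : ℕ, 0 < m → (2 : L) ^ m ≠ 1 := by
    intro m hm h
    have h4 : ((2 ^ m : ℕ) : L) = ((1 : ℕ) : L) := by push_cast; exact h
    have h5 : 2 ^ m = 1 := Nat.cast_injective h4
    have h6 : 1 < 2 ^ m := Nat.one_lt_two_pow (by omega)
    omega
  have hDpos : 1 ≤ D := by
    by_contra hcon
    have hD0 : D = 0 := by omega
    obtain ⟨i, j, hij⟩ := h3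
    apply hij
    have hi := Polynomial.eq_C_of_natDegree_le_zero (hD0 ▸ hD i)
    have hj := Polynomial.eq_C_of_natDegree_le_zero (hD0 ▸ hD j)
    rw [hi, hj]
    simp [mul_comm]
  obtain ⟨i0, hi0⟩ : ∃ i, p i ≠ 0 := by
    by_contra hcon
    push Not at hcon
    obtain ⟨i, j, hij⟩ := h3
    exact hij (by rw [hcon i, hcon j])
  have hroots : ∀ P : Polynomial L, P ≠ 0 → {q : ℕ | P.eval ((2 : L) ^ (q + 1)) = 0}.Finite := by
    intro P hP
    refine Set.Finite.of_finite_image (f := fun q : ℕ => (2 : L) ^ (q + 1))
      ((P.roots.toFinset.finite_toSet).subset ?_) ?_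
    · rintro _ ⟨q, hq, rfl⟩
      simpa [hP] using hq
    · intro q _ q' _ h
      have := pow_injective hb0 hb h
      simpa using this
  obtain ⟨q0, hq0⟩ : ∃ q0, ∀ q, q0 ≤ q → (p i0).eval ((2 : L) ^ (q + 1)) ≠ 0 := by
    obtain ⟨B, hB⟩ := (hroots _ hi0).bddAbove
    exact ⟨B + 1, fun q hq h => by have := hB h; omega⟩
  have hv : ∀ q, value (2 : L) (fun _ _ => true) (δp p D) (Wd D q) =
      fun i => (p i).eval ((2 : L) ^ (q + 1)) := fun q => value_Wd p D hD 2 q
  have haev : ∀ (F : MvPolynomial (Fin (n + 1)) k) (q : ℕ),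
      MvPolynomial.aeval (fun i => (p i).eval ((2 : L) ^ (q + 1))) F =
      (MvPolynomial.aeval p F).eval ((2 : L) ^ (q + 1)) := by
    intro F q
    have h4 : Polynomial.eval ((2 : L) ^ (q + 1)) (MvPolynomial.aeval p F) =
        ((Polynomial.aeval ((2 : L) ^ (q + 1)) : Polynomial L →ₐ[L] L).restrictScalars k)
          (MvPolynomial.aeval p F) := by
      simp [Polynomial.coe_aeval_eq_eval]
    rw [h4, ← AlgHom.comp_apply, MvPolynomial.comp_aeval]
    congr 2
  refine ⟨L, hL, hA, Option (Fin (D + 1)), inferInstance, δp p D, D, 1 + D * (q0 + 1) + 1,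
    {w | ∃ q, q0 ≤ q ∧ w = Wd D q}, ?_, ?_, ?_, ?_⟩
  · rintro w ⟨q, hq, rfl⟩ hlen
    rw [length_Wd] at hlen
    have hlt : q0 < q := by
      by_contra hcon
      have : q = q0 := by omega
      subst this
      omega
    refine ⟨[dl D D], psq D (q - 1), by simp [psq], ?_, ?_, fun j => ?_⟩
    · refine ⟨_, List.mem_map.2 ⟨0, List.mem_range.2 hDpos, rfl⟩, by simp⟩
    · rw [pumped_psq, Nat.sub_add_cancel (by omega)]
    · exact ⟨q - 1 + j, by omega, pumped_psq D (q - 1) j⟩
  · rintro w ⟨q, _, rfl⟩
    exact countP_Wd D q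
  · rintro w ⟨q, hq, rfl⟩
    rw [hv]
    refine ⟨fun h => hq0 q hq (congrFun h i0), fun F hF => ?_⟩
    rw [haev, h1 F hF, Polynomial.eval_zero]
  · intro G hGe hG hfin
    have hGp : MvPolynomial.aeval p G ≠ 0 := by
      intro h4
      apply h2 G hGe hG
      have h5 : (MvPolynomial.aeval p G).eval 1 = 0 := by rw [h4, Polynomial.eval_zero]
      have h6 : Polynomial.eval (1 : L) (MvPolynomial.aeval p G) =
          ((Polynomial.aeval (1 : L) : Polynomial L →ₐ[L] L).restrictScalars k)
            (MvPolynomial.aeval p G) := by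
        simp [Polynomial.coe_aeval_eq_eval]
      rw [h6, ← AlgHom.comp_apply, MvPolynomial.comp_aeval] at h5
      rw [← h5]
      congr 2
    have hbad := hroots _ hGp
    -- all large `q` give points in the finite set
    have hcov : Set.univ ⊆ {q : ℕ | q < q0} ∪ {q : ℕ | (MvPolynomial.aeval p G).eval
        ((2 : L) ^ (q + 1)) = 0} ∪ ⋃ P ∈ offPts (2 : L) (fun _ _ => true) (δp p D)
          {w | ∃ q, q0 ≤ q ∧ w = Wd D q} G, {q : ℕ | ∀ i j, (p i).eval ((2 : L) ^ (q + 1)) *
            P.rep j = (p j).eval ((2 : L) ^ (q + 1)) * P.rep i} := by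
      intro q _
      by_cases hq : q < q0
      · exact Or.inl (Or.inl hq)
      · by_cases hq2 : (MvPolynomial.aeval p G).eval ((2 : L) ^ (q + 1)) = 0
        · exact Or.inl (Or.inr hq2)
        · right
          have hne : value (2 : L) (fun _ _ => true) (δp p D) (Wd D q) ≠ 0 := by
            rw [hv]
            exact fun h => hq0 q (by omega) (congrFun h i0)
          simp only [Set.mem_iUnion]
          refine ⟨Projectivization.mk L _ hne, ⟨Wd D q, ⟨q, by omega, rfl⟩, hne, rfl, ?_⟩, ?_⟩
          · rw [hv, haev]; exact hq2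
          · intro i j
            obtain ⟨a, ha⟩ := Projectivization.exists_smul_eq_mk_rep L _ hne
            rw [← ha, hv]
            simp only [Pi.smul_apply, Units.smul_def, smul_eq_mul]
            ring
    apply Set.infinite_univ (α := ℕ)
    refine Set.Finite.subset (Set.Finite.union (Set.Finite.union (Set.finite_lt_nat q0) hbad)
      (Set.Finite.biUnion hfin fun P _ => fibre_finite p h3 2 hb0 hb P.rep P.rep_nonzero)) hcov

end Pool.Agent.TH138.LG
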