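import Mathlib

set_option autoImplicit false

/-!
# The pumping lemma for context-free grammars, with an explicit constant
-/

namespace Pool.Agent.TH138.LG

variable {T : Type}

/-- `w` is derived from the list of symbols `α` -/
inductive DL (g : ContextFreeGrammar T) : List (Symbol T g.NT) → List T → Prop
  | nil : DL g [] []
  | term (a : T) {l : List (Symbol T g.NT)} {w : List T} :
      DL g l w → DL g (.terminal a :: l) (a :: w)
  | nt (r : ContextFreeRule T g.NT) (hr : r ∈ g.rules) {w₁ w₂ : List T}
      {l : List (Symbol T g.NT)} :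
      DL g r.output w₁ → DL g l w₂ → DL g (.nonterminal r.input :: l) (w₁ ++ w₂)

variable {g : ContextFreeGrammar T}

theorem DL.derives {α : List (Symbol T g.NT)} {w : List T} (h : DL g α w) :
    g.Derives α (w.map .terminal) := by
  induction h with
  | nil => exact .refl _
  | term a _ ih => simpa using ih.append_left [.terminal a]
  | @nt r hr w₁ w₂ l _ _ ih1 ih2 =>
    have h1 : g.Produces (.nonterminal r.input :: l) (r.output ++ l) :=
      ⟨r, hr, ContextFreeRule.Rewrites.head l⟩
    have h2 : g.Derives (r.output ++ l) (w₁.map .terminal ++ l) := ih1.append_right l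
    have h3 : g.Derives (w₁.map .terminal ++ l) (w₁.map .terminal ++ w₂.map .terminal) :=
      ih2.append_left _
    rw [List.map_append]
    exact h1.trans_derives (h2.trans h3)

theorem DL.append {α β : List (Symbol T g.NT)} {w w' : List T} (h : DL g α w)
    (h' : DL g β w') : DL g (α ++ β) (w ++ w') := by
  induction h with
  | nil => simpa using h'
  | term a _ ih => exact .term a ih
  | nt r hr h1 _ _ ih2 => rw [List.cons_append, List.append_assoc]; exact .nt r hr h1 ih2

theorem DL.split {α β : List (Symbol T g.NT)} {w : List T} (h : DL g (α ++ β) w) :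
    ∃ w₁ w₂, w = w₁ ++ w₂ ∧ DL g α w₁ ∧ DL g β w₂ := by
  induction α generalizing w with
  | nil => exact ⟨[], w, rfl, .nil, h⟩
  | cons s α ih =>
    rw [List.cons_append] at h
    generalize hl : s :: (α ++ β) = l at h
    cases h with
    | nil => cases hl
    | term a h1 =>
      cases hl
      obtain ⟨w₁, w₂, rfl, h2, h3⟩ := ih h1
      exact ⟨a :: w₁, w₂, rfl, .term a h2, h3⟩
    | @nt r hr x y l h1 h2 =>
      cases hl
      obtain ⟨w₁, w₂, rfl, h3, h4⟩ := ih h2
      exact ⟨x ++ w₁, w₂, by simp, .nt r hr h1 h3, h4⟩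

theorem DL.terminals (w : List T) : DL g (w.map .terminal) w := by
  induction w with
  | nil => exact .nil
  | cons a w ih => exact .term a ih

theorem DL.rule {r : ContextFreeRule T g.NT} (hr : r ∈ g.rules) {w : List T}
    (h : DL g r.output w) : DL g [.nonterminal r.input] w := by
  simpa using DL.nt r hr h .nil

theorem DL.of_derives {α : List (Symbol T g.NT)} {w : List T}
    (h : g.Derives α (w.map .terminal)) : DL g α w := by
  induction h using Relation.ReflTransGen.head_induction_on with
  | refl => exact DL.terminals w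
  | head h1 _ ih =>
    obtain ⟨r, hr, h1⟩ := h1
    obtain ⟨p, q, rfl, rfl⟩ := h1.exists_parts
    obtain ⟨w₁, w₂, rfl, h2, h3⟩ := DL.split ih
    obtain ⟨w₃, w₄, rfl, h4, h5⟩ := DL.split h2
    exact (h4.append (DL.rule hr h5)).append h3

theorem mem_language {w : List T} : w ∈ g.language ↔ DL g [.nonterminal g.initial] w :=
  ⟨fun h => DL.of_derives h, fun h => h.derives⟩

open scoped Classical in
/-- the nonterminals that occur as the left-hand side of a rule -/
noncomputable def inputs (g : ContextFreeGrammar T) : Finset g.NT :=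
  g.rules.image ContextFreeRule.input

/-- the maximal length of the right-hand side of a rule (at least `1`) -/
def width (g : ContextFreeGrammar T) : ℕ := max 1 (g.rules.sup fun r => r.output.length)

theorem width_pos : 1 ≤ width g := le_max_left _ _

theorem length_le_width {r : ContextFreeRule T g.NT} (hr : r ∈ g.rules) :
    r.output.length ≤ width g :=
  (Finset.le_sup (f := fun r : ContextFreeRule T g.NT => r.output.length) hr).trans
    (le_max_right _ _)

/-- words derived from `Y`, put between `p` and `q`, give words derived from `X` -/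
def Ctx (g : ContextFreeGrammar T) (X Y : g.NT) (p q : List T) : Prop :=
  ∀ x, DL g [.nonterminal Y] x → DL g [.nonterminal X] (p ++ x ++ q)

theorem Ctx.comp {X Y Z : g.NT} {p q p' q' : List T} (h : Ctx g X Y p q)
    (h' : Ctx g Y Z p' q') : Ctx g X Z (p ++ p') (q' ++ q) := by
  intro x hx
  have := h _ (h' x hx)
  simpa [List.append_assoc] using this

/-- the word `w` can be pumped -/
def PumpS (g : ContextFreeGrammar T) (w : List T) : Prop :=
  ∃ (u v x y z : List T) (Z : g.NT), w = u ++ v ++ x ++ y ++ z ∧ (v ≠ [] ∨ y ≠ []) ∧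
    Ctx g g.initial Z u z ∧ Ctx g Z Z v y ∧ DL g [.nonterminal Z] x

def Q (g : ContextFreeGrammar T) (Y : g.NT) (x : List T) : Prop :=
  ∀ (w : List T) (R : Finset g.NT), R ⊆ inputs g →
    (∃ p q, w = p ++ x ++ q ∧ Ctx g g.initial Y p q) →
    (∀ Z ∈ R, ∃ u v y z, w = u ++ v ++ x ++ y ++ z ∧ (v ≠ [] ∨ y ≠ []) ∧
      Ctx g g.initial Z u z ∧ Ctx g Z Y v y) →
    width g ^ ((inputs g).card - R.card) < x.length → PumpS g w

def Item (g : ContextFreeGrammar T) (s : Symbol T g.NT) (y : List T) : Prop :=
  (∃ a, s = .terminal a ∧ y = [a]) ∨ ∃ Y, s = .nonterminal Y ∧ DL g [.nonterminal Y] y ∧ Q g Y y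

theorem Item.dl {s : Symbol T g.NT} {y : List T} (h : Item g s y) : DL g [s] y := by
  rcases h with ⟨a, rfl, rfl⟩ | ⟨Y, rfl, h, _⟩
  · exact .term a .nil
  · exact h

theorem items_dl {α : List (Symbol T g.NT)} {ys : List (List T)}
    (h : List.Forall₂ (Item g) α ys) : DL g α ys.flatten := by
  induction h with
  | nil => exact .nil
  | cons h1 _ ih => exact h1.dl.append ih

theorem split₂ {A B : Type} {R : A → B → Prop} : ∀ {l : List A} {l1 l2 : List B},
    List.Forall₂ R l (l1 ++ l2) →
    ∃ a1 a2, l = a1 ++ a2 ∧ List.Forall₂ R a1 l1 ∧ List.Forall₂ R a2 l2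
  | l, [], l2, h => ⟨[], l, rfl, .nil, h⟩
  | a :: l, b :: l1, l2, h => by
    rw [List.cons_append, List.forall₂_cons] at h
    obtain ⟨a1, a2, rfl, h1, h2⟩ := split₂ h.2
    exact ⟨a :: a1, a2, rfl, .cons h.1 h1, h2⟩

theorem flatten_length_le (ys : List (List T)) (n : ℕ) (h : ∀ y ∈ ys, y.length ≤ n) :
    ys.flatten.length ≤ ys.length * n := by
  induction ys with
  | nil => simp
  | cons y ys ih =>
    have h1 := ih fun y' hy' => h y' (List.mem_cons_of_mem _ hy')
    have h2 := h y List.mem_cons_self
    rw [List.flatten_cons, List.length_append, List.length_cons]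
    nlinarith

theorem exists_longest (ys : List (List T)) (h : ys ≠ []) :
    ∃ y ∈ ys, ∀ y' ∈ ys, y'.length ≤ y.length := by
  classical
  obtain ⟨y, hy, h1⟩ := ys.toFinset.exists_max_image List.length
    (by rw [List.toFinset_nonempty_iff]; exact h)
  exact ⟨y, by simpa using hy, fun y' hy' => h1 y' (by simpa using hy')⟩

theorem core {r : ContextFreeRule T g.NT} (hr : r ∈ g.rules) {ys : List (List T)}
    (h : List.Forall₂ (Item g) r.output ys) : Q g r.input ys.flatten := by
  classical
  intro w R hR hpq hRR hlen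
  have hw := width_pos (g := g)
  have hone : ∀ e, 1 ≤ width g ^ e := fun e => Nat.one_le_pow _ _ hw
  have hne : ys ≠ [] := by
    rintro rfl
    simp at hlen
  obtain ⟨y, hy, hmax⟩ := exists_longest ys hne
  have hlen2 : ys.flatten.length ≤ width g * y.length := by
    refine (flatten_length_le ys _ hmax).trans (Nat.mul_le_mul_right _ ?_)
    rw [← h.length_eq]
    exact length_le_width hr
  obtain ⟨ys1, ys2, rfl⟩ := List.append_of_mem hy
  obtain ⟨α1, β, hα, h1, h2⟩ := split₂ h
  obtain ⟨s, α2, rfl⟩ : ∃ s α2, β = s :: α2 := by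
    cases β with
    | nil => cases h2
    | cons s α2 => exact ⟨s, α2, rfl⟩
  rw [List.forall₂_cons] at h2
  obtain ⟨hs, h3⟩ := h2
  have hctx : ∀ Y, s = .nonterminal Y → Ctx g r.input Y ys1.flatten ys2.flatten := by
    rintro Y rfl x hx
    apply DL.rule hr
    rw [hα]
    have := ((items_dl h1).append hx).append (items_dl h3)
    simpa [List.append_assoc] using this
  have hfl : (ys1 ++ y :: ys2).flatten = ys1.flatten ++ y ++ ys2.flatten := by simp
  have hdl : DL g [.nonterminal r.input] (ys1 ++ y :: ys2).flatten := DL.rule hr (items_dl h)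
  obtain ⟨p, q, hw1, hpq⟩ := hpq
  by_cases hb : ys1.flatten = [] ∧ ys2.flatten = []
  · have hy2 : (ys1 ++ y :: ys2).flatten = y := by rw [hfl, hb.1, hb.2]; simp
    rcases hs with ⟨a, rfl, rfl⟩ | ⟨Y, rfl, hY, hQ⟩
    · rw [hy2] at hlen
      simp only [List.length_singleton] at hlen
      have := hone ((inputs g).card - R.card)
      omega
    · have hc := hctx Y rfl
      rw [hb.1, hb.2] at hc
      rw [hy2] at hw1 hRR hlen
      refine hQ w R hR ⟨p, q, hw1, by simpa using hpq.comp hc⟩ ?_ hlen
      intro Z hZ
      obtain ⟨u, v, y', z, e1, e2, e3, e4⟩ := hRR Z hZ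
      exact ⟨u, v, y', z, e1, e2, e3, by simpa using e4.comp hc⟩
  · by_cases hX : r.input ∈ R
    · obtain ⟨u, v, y', z, e1, e2, e3, e4⟩ := hRR _ hX
      exact ⟨u, v, _, y', z, r.input, e1, e2, e3, e4, hdl⟩
    · have hXi : r.input ∈ inputs g := Finset.mem_image_of_mem _ hr
      have hR' : insert r.input R ⊆ inputs g := Finset.insert_subset hXi hR
      have hcard : (insert r.input R).card = R.card + 1 := Finset.card_insert_of_notMem hX
      have hle := Finset.card_le_card hR'
      have hexp : (inputs g).card - R.card = ((inputs g).card - (insert r.input R).card) + 1 := by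
        omega
      have hylen : width g ^ ((inputs g).card - (insert r.input R).card) < y.length := by
        rw [hexp, pow_succ'] at hlen
        exact Nat.lt_of_mul_lt_mul_left (hlen.trans_le hlen2)
      rcases hs with ⟨a, rfl, rfl⟩ | ⟨Y, rfl, hY, hQ⟩
      · simp only [List.length_singleton] at hylen
        have := hone ((inputs g).card - (insert r.input R).card)
        omega
      · have hc := hctx Y rfl
        rw [hfl] at hw1 hRR
        refine hQ w _ hR' ⟨p ++ ys1.flatten, ys2.flatten ++ q, by rw [hw1]; simp, hpq.comp hc⟩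
          ?_ hylen
        intro Z hZ
        rw [Finset.mem_insert] at hZ
        rcases hZ with rfl | hZ
        · refine ⟨p, ys1.flatten, ys2.flatten, q, by rw [hw1]; simp, ?_, hpq, hc⟩
          by_contra hcon
          push Not at hcon
          exact hb hcon
        · obtain ⟨u, v, y', z, e1, e2, e3, e4⟩ := hRR Z hZ
          refine ⟨u, v ++ ys1.flatten, ys2.flatten ++ y', z, by rw [e1]; simp, ?_, e3,
            e4.comp hc⟩
          rcases e2 with e2 | e2
          · exact Or.inl (by simp [e2])
          · exact Or.inr (by simp [e2])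

theorem items {α : List (Symbol T g.NT)} {w : List T} (h : DL g α w) :
    ∃ ys : List (List T), ys.flatten = w ∧ List.Forall₂ (Item g) α ys := by
  induction h with
  | nil => exact ⟨[], rfl, .nil⟩
  | term a _ ih =>
    obtain ⟨ys, rfl, h⟩ := ih
    exact ⟨[a] :: ys, by simp, .cons (Or.inl ⟨a, rfl, rfl⟩) h⟩
  | nt r hr h1 _ ih1 ih2 =>
    obtain ⟨ys1, rfl, h3⟩ := ih1
    obtain ⟨ys2, rfl, h4⟩ := ih2
    exact ⟨ys1.flatten :: ys2, by simp, .cons (Or.inr ⟨_, rfl, DL.rule hr h1, core hr h3⟩) h4⟩

/-- **Pumping lemma** -/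
theorem pumping {w : List T} (hw : w ∈ g.language)
    (hl : width g ^ (inputs g).card < w.length) :
    ∃ u v x y z : List T, w = u ++ v ++ x ++ y ++ z ∧ (v ≠ [] ∨ y ≠ []) ∧
      ∀ k : ℕ, u ++ (List.replicate k v).flatten ++ x ++ (List.replicate k y).flatten ++ z ∈
        g.language := by
  have h1 := mem_language.1 hw
  obtain ⟨ys, h2, h3⟩ := items h1
  obtain ⟨y0, rfl⟩ : ∃ y0, ys = [y0] := by
    cases h3 with
    | cons _ h => cases h; exact ⟨_, rfl⟩
  have h4 : y0 = w := by simpa using h2
  subst h4
  rw [List.forall₂_cons] at h3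
  rcases h3.1 with ⟨a, ha, _⟩ | ⟨Y, hY, _, hQ⟩
  · cases ha
  · cases hY
    obtain ⟨u, v, x, y, z, Z, e1, e2, e3, e4, e5⟩ := hQ y0 ∅ (by simp)
      ⟨[], [], by simp, fun x hx => by simpa using hx⟩ (by simp) (by simpa using hl)
    refine ⟨u, v, x, y, z, e1, e2, fun k => ?_⟩
    rw [mem_language]
    have h5 : ∀ k : ℕ, DL g [.nonterminal Z]
        ((List.replicate k v).flatten ++ x ++ (List.replicate k y).flatten) := by
      intro k
      induction k with
      | zero => simpa using e5
      | succ k ih =>
        have h6 := e4 _ ih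
        have hy : (List.replicate (k + 1) y).flatten = (List.replicate k y).flatten ++ y := by
          rw [List.replicate_succ', List.flatten_append]; simp
        rw [hy, List.replicate_succ, List.flatten_cons]
        simpa [List.append_assoc] using h6
    have h7 := e3 _ (h5 k)
    simpa [List.append_assoc] using h7

end Pool.Agent.TH138.LG
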