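import Mathlib

set_option autoImplicit false

/-!
# Reading words as vectors in a number system with base `b`
-/

namespace Pool.Agent.TH138.LG

open Finset

variable {A L : Type} [Field L] {ι : Type}

/-- One step of reading.  The state consists of the number `i` of the separators read so far and
the vector `x`.  A letter `a` in phase `i` replaces every active coordinate `x j` by
`b * x j + δ i a j`; the separator `none` starts the next phase. -/
def step (b : L) (act : ℕ → ι → Bool) (δ : ℕ → A → ι → L) :
    ℕ × (ι → L) → Option A → ℕ × (ι → L)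
  | s, some a => (s.1, fun j => if act s.1 j then b * s.2 j + δ s.1 a j else s.2 j)
  | s, none => (s.1 + 1, s.2)

def run (b : L) (act : ℕ → ι → Bool) (δ : ℕ → A → ι → L) (s : ℕ × (ι → L))
    (w : List (Option A)) : ℕ × (ι → L) := w.foldl (step b act δ) s

/-- the vector represented by the word `w` -/
def value (b : L) (act : ℕ → ι → Bool) (δ : ℕ → A → ι → L) (w : List (Option A)) : ι → L :=
  (run b act δ (0, 0) w).2

/-- the word `u v₁ᵏ u₁ v₂ᵏ u₂ ⋯`, where `ps = [(v₁, u₁), (v₂, u₂), …]` -/
def pumped {B : Type} (k : ℕ) (u : List B) (ps : List (List B × List B)) : List B :=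
  u ++ (ps.map fun p => (List.replicate k p.1).flatten ++ p.2).flatten

variable (b : L) (act : ℕ → ι → Bool) (δ : ℕ → A → ι → L)

theorem run_append (s : ℕ × (ι → L)) (v w : List (Option A)) :
    run b act δ s (v ++ w) = run b act δ (run b act δ s v) w := List.foldl_append

/-- reading is coordinatewise affine -/
theorem run_affine (w : List (Option A)) : ∀ i : ℕ, ∃ (i' : ℕ) (m c : ι → L), ∀ x : ι → L,
    run b act δ (i, x) w = (i', fun j => m j * x j + c j) := by
  induction w with
  | nil => exact fun i => ⟨i, 1, 0, fun x => by simp [run]⟩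
  | cons a w ih =>
    intro i
    cases a with
    | none =>
      obtain ⟨i', m, c, h⟩ := ih (i + 1)
      exact ⟨i', m, c, fun x => h x⟩
    | some a =>
      obtain ⟨i', m, c, h⟩ := ih i
      refine ⟨i', fun j => if act i j then m j * b else m j,
        fun j => if act i j then m j * δ i a j + c j else c j, fun x => ?_⟩
      have h1 : run b act δ (i, x) (some a :: w) =
          run b act δ (i, fun j => if act i j then b * x j + δ i a j else x j) w := rfl
      rw [h1, h]
      ext j
      · rfl
      · simp only
        by_cases hj : act i j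
        · simp only [hj, if_true]; ring
        · simp only [hj]; simp

/-- reading a word without separators -/
theorem run_word (v : List (Option A)) (hv : none ∉ v) (i : ℕ) : ∃ D : ι → L, ∀ x : ι → L,
    run b act δ (i, x) v = (i, fun j => if act i j then b ^ v.length * x j + D j else x j) := by
  induction v with
  | nil => exact ⟨0, fun x => by simp [run]⟩
  | cons a v ih =>
    obtain ⟨D, h⟩ := ih fun hh => hv (List.mem_cons_of_mem _ hh)
    cases a with
    | none => exact absurd List.mem_cons_self hv
    | some a =>
      refine ⟨fun j => b ^ v.length * δ i a j + D j, fun x => ?_⟩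
      have h1 : run b act δ (i, x) (some a :: v) =
          run b act δ (i, fun j => if act i j then b * x j + δ i a j else x j) v := rfl
      rw [h1, h]
      ext j
      · rfl
      · simp only
        by_cases hj : act i j
        · simp only [hj, if_true, List.length_cons]; ring
        · simp [hj]

/-- reading the powers of a word without separators -/
theorem run_power (hb : ∀ m : ℕ, 0 < m → b ^ m ≠ 1) (v : List (Option A)) (hv : none ∉ v)
    (i : ℕ) : ∃ D : ι → L, ∀ (x : ι → L) (k : ℕ),
    run b act δ (i, x) (List.replicate k v).flatten =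
      (i, fun j => if act i j then (b ^ k) ^ v.length * (x j + D j) - D j else x j) := by
  rcases Nat.eq_zero_or_pos v.length with h0 | h0
  · refine ⟨0, fun x k => ?_⟩
    have : v = [] := List.length_eq_zero_iff.1 h0
    subst this
    have : (List.replicate k ([] : List (Option A))).flatten = [] := by simp
    rw [this]
    simp [run]
  · obtain ⟨D, h⟩ := run_word b act δ v hv i
    have hne : b ^ v.length - 1 ≠ 0 := sub_ne_zero.2 (hb _ h0)
    refine ⟨fun j => D j / (b ^ v.length - 1), fun x k => ?_⟩
    induction k with
    | zero => simp [run]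
    | succ k ih =>
      rw [List.replicate_succ', List.flatten_append, run_append, ih]
      have h1 : [v].flatten = v := by simp
      rw [h1, h]
      ext j
      · rfl
      · simp only
        by_cases hj : act i j
        · simp only [hj, if_true]
          field_simp
          ring
        · simp [hj]

/-- vectors depending on `k` which are combinations of the powers of `b ^ k` with exponents the
partial sums of `ls` -/
def Ex (b : L) : List ℕ → (ℕ → ι → L) → Prop
  | [], f => ∃ c, ∀ k, f k = c
  | l :: ls, f => ∃ g h, Ex b ls g ∧ Ex b ls h ∧ ∀ k j, f k j = g k j + (b ^ k) ^ l * h k j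

theorem Ex.affine {b : L} {ls : List ℕ} : ∀ {f : ℕ → ι → L}, Ex b ls f →
    ∀ (m c : ι → L), Ex b ls (fun k j => m j * f k j + c j) := by
  induction ls with
  | nil =>
    rintro f ⟨c', h⟩ m c
    exact ⟨fun j => m j * c' j + c j, fun k => by simp [h k]⟩
  | cons l ls ih =>
    rintro f ⟨g, h, hg, hh, e⟩ m c
    refine ⟨_, _, ih hg m c, ih hh m 0, fun k j => ?_⟩
    simp only [e, Pi.zero_apply]
    ring

theorem Ex.congr {b : L} {ls : List ℕ} {f f' : ℕ → ι → L} (h : Ex b ls f)
    (e : ∀ k j, f' k j = f k j) : Ex b ls f' := by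
  have : f' = f := by funext k j; exact e k j
  rwa [this]

/-- the value of a pumped word -/
theorem run_pumped (hb : ∀ m : ℕ, 0 < m → b ^ m ≠ 1) : ∀ (ps : List (List (Option A) ×
    List (Option A))), (∀ p ∈ ps, none ∉ p.1) → ∀ (i : ℕ) (ls : List ℕ) (f : ℕ → ι → L),
    Ex b ls f → Ex b ((ps.map fun p => p.1.length).reverse ++ ls) (fun k => (run b act δ (i, f k)
      (ps.map fun p => (List.replicate k p.1).flatten ++ p.2).flatten).2) := by
  intro ps
  induction ps with
  | nil => exact fun _ i ls f hf => by simpa [run] using hf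
  | cons p ps ih =>
    intro hp i ls f hf
    obtain ⟨D, hD⟩ := run_power b act δ hb p.1 (hp p List.mem_cons_self) i
    obtain ⟨i', m, c, hm⟩ := run_affine b act δ p.2 i
    have h1 : Ex b (p.1.length :: ls) (fun k j => if act i j then
        (b ^ k) ^ p.1.length * (f k j + D j) - D j else f k j) := by
      refine ⟨_, _, hf.affine (fun j => if act i j then 0 else 1)
        (fun j => if act i j then - D j else 0), hf.affine (fun j => if act i j then 1 else 0)
        (fun j => if act i j then D j else 0), fun k j => ?_⟩
      by_cases hj : act i j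
      · simp only [hj, if_true]; ring
      · simp [hj]
    have h2 := h1.affine m c
    have h3 := ih (fun q hq => hp q (List.mem_cons_of_mem _ hq)) i' _ _ h2
    rw [List.map_cons, List.reverse_cons, List.append_assoc, List.singleton_append]
    refine h3.congr fun k j => ?_
    rw [List.map_cons, List.flatten_cons, run_append, run_append, hD, hm]

theorem Ex.sum {b : L} : ∀ ls : List ℕ, ∃ e : Fin (2 ^ ls.length) → ℕ, ∀ f : ℕ → ι → L,
    Ex b ls f → ∃ c : Fin (2 ^ ls.length) → ι → L, ∀ k j, f k j = ∑ i, c i j * (b ^ k) ^ e i := by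
  intro ls
  induction ls with
  | nil =>
    refine ⟨fun _ => 0, ?_⟩
    rintro f ⟨c, h⟩
    exact ⟨fun _ => c, fun k j => by simp [h k]⟩
  | cons l ls ih =>
    obtain ⟨e, he⟩ := ih
    have h2 : 2 ^ (l :: ls).length = 2 ^ ls.length + 2 ^ ls.length := by
      rw [List.length_cons, pow_succ]; ring
    refine ⟨fun i => Fin.append e (fun i => l + e i) (Fin.cast h2 i), ?_⟩
    rintro f ⟨g, h, hg, hh, hf⟩
    obtain ⟨c, hc⟩ := he g hg
    obtain ⟨c', hc'⟩ := he h hh
    refine ⟨fun i => Fin.append c c' (Fin.cast h2 i), fun k j => ?_⟩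
    have key : ∑ i : Fin (2 ^ (l :: ls).length), Fin.append c c' (Fin.cast h2 i) j *
        (b ^ k) ^ (Fin.append e (fun i => l + e i) (Fin.cast h2 i)) =
        ∑ i : Fin (2 ^ ls.length + 2 ^ ls.length), Fin.append c c' i j *
        (b ^ k) ^ (Fin.append e (fun i => l + e i) i) :=
      Fintype.sum_equiv (finCongr h2) _ _ (fun i => rfl)
    refine Eq.trans ?_ key.symm
    rw [hf, hc, hc', Fin.sum_univ_add, Finset.mul_sum]
    congr 1
    · refine Finset.sum_congr rfl fun i _ => ?_
      rw [Fin.append_left, Fin.append_left]
    · refine Finset.sum_congr rfl fun i _ => ?_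
      rw [Fin.append_right, Fin.append_right, pow_add]
      ring

theorem Ex.sum' {b : L} (ls : List ℕ) (n : ℕ) (hn : ls.length = n) : ∃ e : Fin (2 ^ n) → ℕ,
    ∀ f : ℕ → ι → L, Ex b ls f → ∃ c : Fin (2 ^ n) → ι → L,
      ∀ k j, f k j = ∑ i, c i j * (b ^ k) ^ e i := by
  subst hn
  exact Ex.sum ls

/-- **The vectors represented by the pumped words form a curve with `2 ^ s` terms.** -/
theorem value_pumped (hb : ∀ m : ℕ, 0 < m → b ^ m ≠ 1) (u : List (Option A))
    (ps : List (List (Option A) × List (Option A))) (hp : ∀ p ∈ ps, none ∉ p.1) :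
    ∃ (e : Fin (2 ^ ps.length) → ℕ) (c : Fin (2 ^ ps.length) → ι → L), ∀ k j,
      value b act δ (pumped k u ps) j = ∑ i, c i j * (b ^ k) ^ e i := by
  obtain ⟨i', m, c, hm⟩ := run_affine b act δ u 0
  have h1 := run_pumped b act δ hb ps hp i' [] (fun _ => fun j => m j * 0 + c j) ⟨_, fun k => rfl⟩
  rw [List.append_nil] at h1
  obtain ⟨e, he⟩ := Ex.sum' (b := b) (ι := ι) (ps.map fun p => p.1.length).reverse ps.length
    (by simp)
  obtain ⟨c', hc'⟩ := he _ h1
  refine ⟨e, c', fun k j => ?_⟩
  rw [← hc' k j]
  unfold value pumped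
  rw [run_append, hm]
  rfl

end Pool.Agent.TH138.LG
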