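import Pool.Agent.H533R3.SL.Asm
import Pool.Agent.TH138.LG.Pump
import Pool.Agent.TH138.LG.Read

set_option autoImplicit false

/-!
# Iterative languages of points of a variety that is not uniruled
-/

namespace Pool.Agent.TH138.LG

open Finset Pool.Agent.H533R3.SL
open scoped LinearAlgebra.Projectivization

/-- Every word of `𝓛` with at least `p` letters is of the form `u v₁ u₁ v₂ u₂ ⋯ v_s u_s`, with
`v₁, …, v_s` not all empty, such that all words `u v₁ᵏ u₁ v₂ᵏ u₂ ⋯ v_sᵏ u_s`, `k ≥ 0`, belong
to `𝓛`. -/
def Iterative {B : Type} (s p : ℕ) (𝓛 : Set (List B)) : Prop :=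
  ∀ w ∈ 𝓛, p ≤ w.length → ∃ (u : List B) (ps : List (List B × List B)), ps.length = s ∧
    (∃ q ∈ ps, q.1 ≠ []) ∧ w = pumped 1 u ps ∧ ∀ k, pumped k u ps ∈ 𝓛

/-- the points of projective space represented by the words of `𝓛` at which `G` does not vanish -/
def offPts {k L A : Type} [Field k] [Field L] [Algebra k L] {n : ℕ} (b : L)
    (act : ℕ → Fin (n + 1) → Bool) (δ : ℕ → A → Fin (n + 1) → L) (𝓛 : Set (List (Option A)))
    (G : MvPolynomial (Fin (n + 1)) k) : Set (ℙ L (Fin (n + 1) → L)) :=
  {P | ∃ w ∈ 𝓛, ∃ h : value b act δ w ≠ 0, P = Projectivization.mk L (value b act δ w) h ∧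
    MvPolynomial.aeval (value b act δ w) G ≠ 0}

theorem pow_injective {L : Type} [Field L] {b : L} (hb0 : b ≠ 0)
    (hb : ∀ m : ℕ, 0 < m → b ^ m ≠ 1) : Function.Injective fun k : ℕ => b ^ k := by
  intro i j hij
  by_contra hne
  rcases Nat.lt_or_gt_of_ne hne with h | h
  · apply hb (j - i) (by omega)
    have h1 : b ^ i * b ^ (j - i) = b ^ i * 1 := by
      rw [← pow_add, Nat.add_sub_cancel' h.le, mul_one]; exact hij.symm
    exact mul_left_cancel₀ (pow_ne_zero _ hb0) h1
  · apply hb (i - j) (by omega)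
    have h1 : b ^ j * b ^ (i - j) = b ^ j * 1 := by
      rw [← pow_add, Nat.add_sub_cancel' h.le, mul_one]; exact hij
    exact mul_left_cancel₀ (pow_ne_zero _ hb0) h1

theorem countP_pumped {B : Type} (P : B → Bool) (k : ℕ) (u : List B)
    (ps : List (List B × List B)) (q : List B × List B) (hq : q ∈ ps) :
    k * q.1.countP P ≤ (pumped k u ps).countP P := by
  unfold pumped
  rw [List.countP_append]
  refine le_trans ?_ (Nat.le_add_left _ _)
  induction ps with
  | nil => cases hq
  | cons p ps ih =>
    rw [List.map_cons, List.flatten_cons, List.countP_append]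
    rcases List.mem_cons.1 hq with rfl | hq
    · refine le_trans ?_ (Nat.le_add_right _ _)
      rw [List.countP_append]
      refine le_trans (le_of_eq ?_) (Nat.le_add_right _ _)
      rw [List.countP_flatten, List.map_replicate, List.sum_replicate, smul_eq_mul]
    · exact (ih hq).trans (Nat.le_add_left _ _)

theorem length_pumped {B : Type} (k : ℕ) (u : List B) (ps : List (List B × List B)) :
    (pumped k u ps).length = u.length + (ps.map fun p => k * p.1.length + p.2.length).sum := by
  unfold pumped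
  rw [List.length_append, List.length_flatten, List.map_map]
  congr 3
  funext p
  simp

theorem length_pumped_lt {B : Type} (u : List B) (ps : List (List B × List B))
    (h : ∃ q ∈ ps, q.1 ≠ []) : (pumped 0 u ps).length < (pumped 1 u ps).length := by
  rw [length_pumped, length_pumped]
  apply Nat.add_lt_add_left
  obtain ⟨q, hq, hne⟩ := h
  apply List.sum_lt_sum
  · intro p _; simp
  · exact ⟨q, hq, by simpa using List.length_pos_iff.2 hne⟩

variable {k L A : Type} [Field k] [Field L] [Algebra k L] {n : ℕ}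

/-- a pumped family of points of `X` lies on a curve in `X`: either the point is in the
hypersurface or a shorter word represents the same point -/
theorem dichotomy (FF : Set (MvPolynomial (Fin (n + 1)) k)) (r : ℕ)
    (G : MvPolynomial (Fin (n + 1)) k)
    (hG : ∀ (c : Fin r → Fin (n + 1) → L) (l : Fin r → ℕ),
        (∀ F ∈ FF, MvPolynomial.aeval (cur c l) F = 0) →
        (∃ i i', cur c l i * Polynomial.C (∑ j, c j i') ≠
          cur c l i' * Polynomial.C (∑ j, c j i)) →
        MvPolynomial.aeval (fun i => ∑ j, c j i) G = 0)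
    (b : L) (hb0 : b ≠ 0) (hb : ∀ m : ℕ, 0 < m → b ^ m ≠ 1)
    (f : ℕ → Fin (n + 1) → L) (e : Fin r → ℕ) (c : Fin r → Fin (n + 1) → L)
    (hf : ∀ k j, f k j = ∑ i, c i j * (b ^ k) ^ e i)
    (hX : ∀ k, ∀ F ∈ FF, MvPolynomial.aeval (f k) F = 0) :
    MvPolynomial.aeval (f 1) G = 0 ∨ ∀ i j, f 0 i * f 1 j = f 0 j * f 1 i := by
  classical
  let c' : Fin r → Fin (n + 1) → L := fun i j => c i j * b ^ e i
  have hev : ∀ (t : ℕ) (j : Fin (n + 1)), (cur c' e j).eval (b ^ t) = f (t + 1) j := by
    intro t j
    unfold cur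
    rw [Polynomial.eval_finsetSum, hf]
    refine Finset.sum_congr rfl fun i _ => ?_
    simp only [c', Polynomial.eval_mul, Polynomial.eval_C, Polynomial.eval_pow,
      Polynomial.eval_X, pow_succ b t, mul_pow]
    ring
  have hev0 : ∀ j : Fin (n + 1), (cur c' e j).eval b⁻¹ = f 0 j := by
    intro j
    unfold cur
    rw [Polynomial.eval_finsetSum, hf]
    refine Finset.sum_congr rfl fun i _ => ?_
    simp only [c', Polynomial.eval_mul, Polynomial.eval_C, Polynomial.eval_pow,
      Polynomial.eval_X, pow_zero, one_pow, mul_one, inv_pow]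
    field_simp
  have h1 : ∀ j, ∑ i, c' i j = f 1 j := by
    intro j
    rw [hf]
    simp [c']
  have hcur : ∀ F ∈ FF, MvPolynomial.aeval (cur c' e) F = 0 := by
    intro F hF
    refine Polynomial.eq_zero_of_infinite_isRoot _
      (Set.Infinite.mono ?_ (Set.infinite_range_of_injective (pow_injective hb0 hb)))
    rintro _ ⟨t, rfl⟩
    show Polynomial.eval (b ^ t) _ = 0
    have h2 := hX (t + 1) F hF
    have h3 : (Polynomial.eval (b ^ t)) (MvPolynomial.aeval (cur c' e) F) =
        ((Polynomial.aeval (b ^ t) : Polynomial L →ₐ[L] L).restrictScalars k)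
          (MvPolynomial.aeval (cur c' e) F) := by
      simp [Polynomial.coe_aeval_eq_eval]
    rw [h3, ← AlgHom.comp_apply, MvPolynomial.comp_aeval]
    rw [← h2]
    congr 2
    funext j
    rw [← hev t j]
    simp [Polynomial.coe_aeval_eq_eval]
  by_cases hc : ∃ i i', cur c' e i * Polynomial.C (∑ j, c' j i') ≠
      cur c' e i' * Polynomial.C (∑ j, c' j i)
  · left
    have h2 := hG c' e hcur hc
    have h3 : (fun i => ∑ j, c' j i) = f 1 := funext h1
    rwa [h3] at h2
  · right
    push Not at hc
    intro i j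
    have h2 := congrArg (Polynomial.eval b⁻¹) (hc i j)
    simp only [Polynomial.eval_mul, Polynomial.eval_C] at h2
    rwa [hev0, hev0, h1, h1] at h2

/-- proportional nonzero vectors give the same point -/
theorem mk_eq_of_cross {x y : Fin (n + 1) → L} (hx : x ≠ 0) (hy : y ≠ 0)
    (h : ∀ i j, x i * y j = x j * y i) :
    Projectivization.mk L x hx = Projectivization.mk L y hy := by
  rw [Projectivization.mk_eq_mk_iff']
  obtain ⟨j, hj⟩ : ∃ j, y j ≠ 0 := by
    by_contra hcon
    push Not at hcon
    exact hy (funext hcon)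
  refine ⟨x j / y j, funext fun i => ?_⟩
  rw [Pi.smul_apply, smul_eq_mul, div_mul_eq_mul_div, div_eq_iff hj]
  exact (h i j).symm

theorem aeval_mul_hom (G : MvPolynomial (Fin (n + 1)) k) (e : ℕ) (hG : G.IsHomogeneous e)
    (c : L) (x : Fin (n + 1) → L) :
    MvPolynomial.aeval (fun i => c * x i) G = c ^ e * MvPolynomial.aeval x G := by
  rw [MvPolynomial.aeval_def, MvPolynomial.aeval_def, MvPolynomial.eval₂_eq',
    MvPolynomial.eval₂_eq', Finset.mul_sum]
  refine Finset.sum_congr rfl fun d hd => ?_
  have h1 : ∑ i, d i = e := by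
    have h2 := hG (MvPolynomial.mem_support_iff.1 hd)
    rw [Finsupp.weight_apply, Finsupp.sum_fintype _ _ (by simp)] at h2
    simpa using h2
  simp_rw [mul_pow]
  rw [Finset.prod_mul_distrib, Finset.prod_pow_eq_pow_sum, h1]
  ring

theorem aeval_cross {x y : Fin (n + 1) → L} (hx : x ≠ 0)
    (h : ∀ i j, x i * y j = x j * y i) (G : MvPolynomial (Fin (n + 1)) k) (e : ℕ)
    (hG : G.IsHomogeneous e) (h0 : MvPolynomial.aeval x G = 0) : MvPolynomial.aeval y G = 0 := by
  obtain ⟨j, hj⟩ : ∃ j, x j ≠ 0 := by
    by_contra hcon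
    push Not at hcon
    exact hx (funext hcon)
  have h1 : y = fun i => (y j / x j) * x i := by
    funext i
    have := h i j
    field_simp
    linear_combination -this
  rw [h1, aeval_mul_hom G e hG, h0, mul_zero]

/-- **Points represented by an iterative language.** -/
theorem points_short (FF : Set (MvPolynomial (Fin (n + 1)) k)) (s p : ℕ)
    (G : MvPolynomial (Fin (n + 1)) k) (e : ℕ) (hGe : G.IsHomogeneous e)
    (hG : ∀ (c : Fin (2 ^ s) → Fin (n + 1) → L) (l : Fin (2 ^ s) → ℕ),
        (∀ F ∈ FF, MvPolynomial.aeval (cur c l) F = 0) →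
        (∃ i i', cur c l i * Polynomial.C (∑ j, c j i') ≠
          cur c l i' * Polynomial.C (∑ j, c j i)) →
        MvPolynomial.aeval (fun i => ∑ j, c j i) G = 0)
    (b : L) (hb0 : b ≠ 0) (hb : ∀ m : ℕ, 0 < m → b ^ m ≠ 1)
    (act : ℕ → Fin (n + 1) → Bool) (δ : ℕ → A → Fin (n + 1) → L) (𝓛 : Set (List (Option A)))
    (hsep : ∃ m, ∀ w ∈ 𝓛, w.countP Option.isNone ≤ m)
    (hX : ∀ w ∈ 𝓛, value b act δ w ≠ 0 ∧ ∀ F ∈ FF, MvPolynomial.aeval (value b act δ w) F = 0)
    (hit : Iterative s p 𝓛) :
    offPts b act δ 𝓛 G = offPts b act δ {w | w ∈ 𝓛 ∧ w.length < p} G := by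
  classical
  obtain ⟨m, hsep⟩ := hsep
  have key : ∀ (N : ℕ) (w : List (Option A)), w.length ≤ N → w ∈ 𝓛 →
      MvPolynomial.aeval (value b act δ w) G ≠ 0 → ∃ w' ∈ 𝓛, w'.length < p ∧
        ∀ i j, value b act δ w' i * value b act δ w j =
          value b act δ w' j * value b act δ w i := by
    intro N
    induction N with
    | zero =>
      intro w hw hw𝓛 hwG
      by_cases hp : w.length < p
      · exact ⟨w, hw𝓛, hp, fun i j => by ring⟩
      · exfalso
        obtain ⟨u, ps, _, h2, h3, _⟩ := hit w hw𝓛 (by omega)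
        have := length_pumped_lt u ps h2
        rw [← h3] at this
        omega
    | succ N ih =>
      intro w hw hw𝓛 hwG
      by_cases hp : w.length < p
      · exact ⟨w, hw𝓛, hp, fun i j => by ring⟩
      · obtain ⟨u, ps, h1, h2, h3, h4⟩ := hit w hw𝓛 (by omega)
        have hlt := length_pumped_lt u ps h2
        rw [← h3] at hlt
        have hnone : ∀ q ∈ ps, none ∉ q.1 := by
          intro q hq hn
          have h5 := countP_pumped Option.isNone (m + 1) u ps q hq
          have h6 : 1 ≤ q.1.countP Option.isNone := List.countP_pos_iff.2 ⟨none, hn, rfl⟩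
          have h7 := hsep _ (h4 (m + 1))
          have h8 : (m + 1) * 1 ≤ (m + 1) * q.1.countP Option.isNone := Nat.mul_le_mul_left _ h6
          omega
        obtain ⟨e', c, hc⟩ := value_pumped (ι := Fin (n + 1)) b act δ hb u ps hnone
        subst h1
        have h8 : MvPolynomial.aeval (value b act δ (pumped 1 u ps)) G = 0 ∨
            ∀ i j, value b act δ (pumped 0 u ps) i * value b act δ (pumped 1 u ps) j =
              value b act δ (pumped 0 u ps) j * value b act δ (pumped 1 u ps) i :=
          dichotomy FF _ G hG b hb0 hb (fun k => value b act δ (pumped k u ps)) e' c hc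
            (fun k => (hX _ (h4 k)).2)
        rw [← h3] at h8
        rcases h8 with h8 | h8
        · exact absurd h8 hwG
        · have h9 : MvPolynomial.aeval (value b act δ (pumped 0 u ps)) G ≠ 0 := by
            intro h10
            exact hwG (aeval_cross (hX _ (h4 0)).1 h8 G e hGe h10)
          obtain ⟨w', hw', hw'p, hw'c⟩ := ih _ (by omega) (h4 0) h9
          refine ⟨w', hw', hw'p, ?_⟩
          have e1 := mk_eq_of_cross (hX _ (h4 0)).1 (hX _ hw𝓛).1 h8
          have e2 := mk_eq_of_cross (hX _ hw').1 (hX _ (h4 0)).1 hw'c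
          have e3 := e2.trans e1
          rw [Projectivization.mk_eq_mk_iff'] at e3
          obtain ⟨t, ht⟩ := e3
          intro i j
          rw [← ht]
          simp only [Pi.smul_apply, smul_eq_mul]
          ring
  ext P
  constructor
  · rintro ⟨w, hw, h, rfl, hwG⟩
    obtain ⟨w', hw', hw'p, hc⟩ := key _ w le_rfl hw hwG
    refine ⟨w', ⟨hw', hw'p⟩, (hX _ hw').1, ?_, ?_⟩
    · exact (mk_eq_of_cross (hX _ hw').1 h hc).symm
    · intro h10
      exact hwG (aeval_cross (hX _ hw').1 hc G e hGe h10)
  · rintro ⟨w, hw, h, rfl, hwG⟩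
    exact ⟨w, hw.1, h, rfl, hwG⟩

theorem offPts_finite [Finite A] (b : L) (act : ℕ → Fin (n + 1) → Bool)
    (δ : ℕ → A → Fin (n + 1) → L) (𝓛 : Set (List (Option A))) (p : ℕ)
    (G : MvPolynomial (Fin (n + 1)) k) :
    (offPts b act δ {w | w ∈ 𝓛 ∧ w.length < p} G).Finite := by
  classical
  have h1 : {w : List (Option A) | w.length < p}.Finite := List.finite_length_lt (Option A) p
  refine (h1.image (fun w => if h : value b act δ w ≠ 0 then
    Projectivization.mk L (value b act δ w) h else
      Projectivization.mk L (fun _ => 1) (fun h => one_ne_zero (congrFun h 0)))).subset ?_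
  rintro P ⟨w, hw, h, rfl, _⟩
  exact ⟨w, hw.2, by simp [dif_pos h]⟩

/-- context-free languages are iterative -/
theorem iterative_of_grammar {T : Type} (g : ContextFreeGrammar T) :
    Iterative 2 (width g ^ (inputs g).card + 1) g.language := by
  intro w hw hl
  obtain ⟨u, v, x, y, z, h1, h2, h3⟩ := pumping hw (by omega)
  refine ⟨u, [(v, x), (y, z)], rfl, ?_, ?_, fun k => ?_⟩
  · rcases h2 with h2 | h2
    · exact ⟨(v, x), by simp, h2⟩
    · exact ⟨(y, z), by simp, h2⟩
  · rw [h1]; simp [pumped]
  · have h4 : pumped k u [(v, x), (y, z)] = u ++ (List.replicate k v).flatten ++ x ++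
        (List.replicate k y).flatten ++ z := by simp [pumped, List.append_assoc]
    rw [h4]
    exact h3 k

end Pool.Agent.TH138.LG
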