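import Pool.Agent.TH717.GO.Fin

set_option autoImplicit false

/-!
# Multiplication by matrices from both sides
-/

namespace Pool.Agent.TH138.LG

open NumberField Pool.Agent.H533R3.SL Pool.Agent.TH717.GO

variable {L : Type} [Field L] {n r : ℕ}

/-- the matrix of `N ↦ V N Y` -/
def Kr (V Y : Matrix (Fin r) (Fin r) L) : Matrix (Fin (r * r)) (Fin (r * r)) L :=
  fun a b => V (finProdFinEquiv.symm a).1 (finProdFinEquiv.symm b).1 *
    Y (finProdFinEquiv.symm b).2 (finProdFinEquiv.symm a).2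

def vec (N : Matrix (Fin r) (Fin r) L) : Fin (r * r) → L :=
  fun a => N (finProdFinEquiv.symm a).1 (finProdFinEquiv.symm a).2

theorem Kr_mulVec (V Y N : Matrix (Fin r) (Fin r) L) :
    (Kr V Y).mulVec (vec N) = vec (V * N * Y) := by
  funext a
  simp only [Matrix.mulVec, dotProduct, Kr, vec]
  rw [← Equiv.sum_comp finProdFinEquiv, Fintype.sum_prod_type]
  simp only [Equiv.symm_apply_apply]
  rw [Matrix.mul_apply, Finset.sum_comm]
  refine Finset.sum_congr rfl fun t _ => ?_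
  rw [Matrix.mul_apply, Finset.sum_mul]
  refine Finset.sum_congr rfl fun s _ => ?_
  ring

theorem Kr_mul (V Y V' Y' : Matrix (Fin r) (Fin r) L) :
    Kr V Y * Kr V' Y' = Kr (V * V') (Y' * Y) := by
  funext a c
  rw [Matrix.mul_apply]
  simp only [Kr]
  rw [← Equiv.sum_comp finProdFinEquiv, Fintype.sum_prod_type]
  simp only [Equiv.symm_apply_apply]
  rw [Matrix.mul_apply, Matrix.mul_apply, Finset.sum_mul_sum]
  refine Finset.sum_congr rfl fun t _ => Finset.sum_congr rfl fun s _ => ?_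
  ring

theorem Kr_one : Kr (1 : Matrix (Fin r) (Fin r) L) 1 = 1 := by
  funext a b
  simp only [Kr]
  rw [Matrix.one_apply, Matrix.one_apply, Matrix.one_apply]
  by_cases h : a = b
  · subst h; simp
  · rw [if_neg h]
    by_cases h1 : (finProdFinEquiv.symm a).1 = (finProdFinEquiv.symm b).1
    · have h2 : (finProdFinEquiv.symm b).2 ≠ (finProdFinEquiv.symm a).2 := by
        intro h2
        exact h (finProdFinEquiv.symm.injective (Prod.ext h1 h2.symm))
      rw [if_neg h2, mul_zero]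
    · rw [if_neg h1, zero_mul]

theorem Kr_pow (V Y N : Matrix (Fin r) (Fin r) L) (m : ℕ) :
    ((Kr V Y) ^ m).mulVec (vec N) = vec (V ^ m * N * Y ^ m) := by
  induction m with
  | zero => simp
  | succ m ih =>
    rw [pow_succ', ← Matrix.mulVec_mulVec, ih, Kr_mulVec]
    congr 1
    rw [pow_succ' V, pow_succ Y]
    simp only [Matrix.mul_assoc]

/-- the part of `Kr (1 + p B) (1 + p C)` divisible by `p` -/
def KB (p : L) (B C : Matrix (Fin r) (Fin r) L) : Matrix (Fin (r * r)) (Fin (r * r)) L :=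
  Kr 1 C + Kr B 1 + p • Kr B C

theorem Kr_add (p : L) (B C : Matrix (Fin r) (Fin r) L) :
    Kr (1 + p • B) (1 + p • C) = 1 + p • KB p B C := by
  funext a b
  simp only [KB, Kr, Matrix.add_apply, Matrix.smul_apply, smul_eq_mul, ← Kr_one]
  ring

theorem Kr_pint {p : ℕ} (hp : p.Prime) {B C : Matrix (Fin r) (Fin r) L}
    (hB : ∀ i j, PInt p (B i j)) (hC : ∀ i j, PInt p (C i j)) (a b : Fin (r * r)) :
    PInt p (Kr B C a b) := (hB _ _).mul hp (hC _ _)

theorem one_pint {p : ℕ} (hp : p.Prime) (i j : Fin r) :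
    PInt p ((1 : Matrix (Fin r) (Fin r) L) i j) := by
  rw [Matrix.one_apply]
  split_ifs
  · simpa using PInt.natCast (L := L) hp 1
  · simpa using PInt.natCast (L := L) hp 0

theorem KB_pint {p : ℕ} (hp : p.Prime) {B C : Matrix (Fin r) (Fin r) L}
    (hB : ∀ i j, PInt p (B i j)) (hC : ∀ i j, PInt p (C i j)) (a b : Fin (r * r)) :
    PInt p (KB (p : L) B C a b) := by
  unfold KB
  rw [Matrix.add_apply, Matrix.add_apply, Matrix.smul_apply, smul_eq_mul]
  exact ((Kr_pint hp (one_pint hp) hC a b).add hp (Kr_pint hp hB (one_pint hp) a b)).add hp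
    ((PInt.natCast hp p).mul hp (Kr_pint hp hB hC a b))

/-- the linear map `N ↦ M N v` -/
def sl (M : Matrix (Fin (n + 1)) (Fin r) L) (v : Fin r → L) :
    (Fin (r * r) → L) →ₗ[L] (Fin (n + 1) → L) where
  toFun y := M.mulVec ((Matrix.of fun i j => y (finProdFinEquiv (i, j))).mulVec v)
  map_add' x y := by
    rw [← Matrix.mulVec_add, ← Matrix.add_mulVec]
    rfl
  map_smul' a y := by
    rw [RingHom.id_apply, ← Matrix.mulVec_smul, ← Matrix.smul_mulVec]
    rfl

theorem sl_vec (M : Matrix (Fin (n + 1)) (Fin r) L) (v : Fin r → L)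
    (N : Matrix (Fin r) (Fin r) L) : sl M v (vec N) = M.mulVec (N.mulVec v) := by
  show M.mulVec ((Matrix.of fun i j => vec N (finProdFinEquiv (i, j))).mulVec v) = _
  have : (Matrix.of fun i j => vec N (finProdFinEquiv (i, j))) = N := by
    ext i j
    simp [vec]
  rw [this]

/-- a vector lies in the span of its images under the powers of an injective map -/
theorem mem_span_pow {s : ℕ} (f : Module.End L (Fin s → L)) (hf : Function.Injective f)
    (x : Fin s → L) : x ∈ Submodule.span L (Set.range fun m : ℕ => (f ^ (m + 1)) x) := by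
  set W := Submodule.span L (Set.range fun m : ℕ => (f ^ (m + 1)) x) with hW
  have h1 : W.map f ≤ W := by
    rw [hW, Submodule.map_span_le]
    rintro _ ⟨m, rfl⟩
    refine Submodule.subset_span ⟨m + 1, ?_⟩
    show (f ^ (m + 1 + 1)) x = f ((f ^ (m + 1)) x)
    rw [pow_succ' f (m + 1)]
    rfl
  have h2 : W.map f = W := by
    refine Submodule.eq_of_le_of_finrank_eq h1 ?_
    exact LinearEquiv.finrank_eq (Submodule.equivMapOfInjective f hf W).symm
  have h3 : f x ∈ W.map f := by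
    rw [h2]
    refine Submodule.subset_span ⟨0, ?_⟩
    simp
  obtain ⟨w, hw, hwx⟩ := h3
  rwa [← hf hwx]

/-- one step back -/
theorem step_back {k : Type} [Field k] (FF : Set (MvPolynomial (Fin (n + 1)) k))
    (G : MvPolynomial (Fin (n + 1)) k) (s : ℕ)
    (hG : ∀ (L : Type) [Field L] [Algebra k L] [IsAlgClosed L] (f : Module.End L (Fin s → L))
        (U : Subgroup Lˣ), (∀ u ∈ U, ∀ m : ℕ, 0 < m → u ^ m = 1 → u = 1) →
        (∀ μ : L, f.HasEigenvalue μ → ∃ u ∈ U, (u : L) = μ) →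
        ∀ (ℓ : (Fin s → L) →ₗ[L] (Fin (n + 1) → L)) (v : Fin s → L),
        (∀ F ∈ FF, ∀ m : ℕ, MvPolynomial.aeval (ℓ ((f ^ m) v)) F = 0) →
        MvPolynomial.aeval (ℓ v) G ≠ 0 →
        ∀ (i i' : Fin (n + 1)) (m : ℕ), ℓ ((f ^ m) v) i * ℓ v i' = ℓ ((f ^ m) v) i' * ℓ v i)
    [Algebra k L] [IsAlgClosed L] (f : Module.End L (Fin s → L)) (hf : Function.Injective f)
    (U : Subgroup Lˣ) (hU : ∀ u ∈ U, ∀ m : ℕ, 0 < m → u ^ m = 1 → u = 1)
    (hfU : ∀ μ : L, f.HasEigenvalue μ → ∃ u ∈ U, (u : L) = μ)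
    (ℓ : (Fin s → L) →ₗ[L] (Fin (n + 1) → L)) (x : Fin s → L)
    (hF : ∀ F ∈ FF, ∀ m : ℕ, MvPolynomial.aeval (ℓ ((f ^ m) x)) F = 0)
    (hGx : MvPolynomial.aeval (ℓ (f x)) G ≠ 0) (i i' : Fin (n + 1)) :
    ℓ x i * ℓ (f x) i' = ℓ x i' * ℓ (f x) i := by
  have h1 := hG L f U hU hfU ℓ (f x) (fun F hFF m => by
    have h2 := hF F hFF (m + 1)
    rw [pow_succ] at h2
    exact h2) hGx i i'
  let ψ : (Fin s → L) →ₗ[L] L :=
    (ℓ (f x) i') • (LinearMap.proj i ∘ₗ ℓ) - (ℓ (f x) i) • (LinearMap.proj i' ∘ₗ ℓ)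
  have hψ : ∀ y, ψ y = ℓ (f x) i' * ℓ y i - ℓ (f x) i * ℓ y i' := fun y => rfl
  have h3 : Submodule.span L (Set.range fun m : ℕ => (f ^ (m + 1)) x) ≤ LinearMap.ker ψ := by
    rw [Submodule.span_le]
    rintro _ ⟨m, rfl⟩
    show (f ^ (m + 1)) x ∈ LinearMap.ker ψ
    rw [LinearMap.mem_ker, hψ]
    have h2 := h1 m
    have h4 : (f ^ (m + 1)) x = (f ^ m) (f x) := by rw [pow_succ]; rfl
    rw [h4]
    linear_combination h2
  have h5 := h3 (mem_span_pow f hf x)
  rw [LinearMap.mem_ker, hψ] at h5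
  linear_combination h5

/-- **Two-sided pumping**: if `V`, `Y` are congruent to `1` modulo `p` and all the points
`M V^m N Y^m v` are on `X`, then `M N v` and `M V N Y v` are the same point, if the latter is
not on `G = 0`. -/
theorem sandwich {k : Type} [Field k] {p : ℕ} (hp : p.Prime) (hp3 : 3 ≤ p)
    (FF : Set (MvPolynomial (Fin (n + 1)) k)) (G : MvPolynomial (Fin (n + 1)) k)
    (hG : ∀ (L : Type) [Field L] [Algebra k L] [IsAlgClosed L]
        (f : Module.End L (Fin (r * r) → L))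
        (U : Subgroup Lˣ), (∀ u ∈ U, ∀ m : ℕ, 0 < m → u ^ m = 1 → u = 1) →
        (∀ μ : L, f.HasEigenvalue μ → ∃ u ∈ U, (u : L) = μ) →
        ∀ (ℓ : (Fin (r * r) → L) →ₗ[L] (Fin (n + 1) → L)) (v : Fin (r * r) → L),
        (∀ F ∈ FF, ∀ m : ℕ, MvPolynomial.aeval (ℓ ((f ^ m) v)) F = 0) →
        MvPolynomial.aeval (ℓ v) G ≠ 0 →
        ∀ (i i' : Fin (n + 1)) (m : ℕ), ℓ ((f ^ m) v) i * ℓ v i' = ℓ ((f ^ m) v) i' * ℓ v i)
    {K : Type} [Field K] [CharZero K] [Algebra k K] (M : Matrix (Fin (n + 1)) (Fin r) K)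
    (V V' N Y Y' : Matrix (Fin r) (Fin r) K) (v : Fin r → K) (hV : V' * V = 1) (hY : Y * Y' = 1)
    (B B' C C' : Matrix (Fin r) (Fin r) K) (hB : ∀ i j, PInt p (B i j))
    (hB' : ∀ i j, PInt p (B' i j)) (hC : ∀ i j, PInt p (C i j)) (hC' : ∀ i j, PInt p (C' i j))
    (eV : V = 1 + (p : K) • B) (eV' : V' = 1 + (p : K) • B') (eY : Y = 1 + (p : K) • C)
    (eY' : Y' = 1 + (p : K) • C')
    (hX : ∀ m : ℕ, ∀ F ∈ FF,
      MvPolynomial.aeval (M.mulVec ((V ^ m * N * Y ^ m).mulVec v)) F = 0)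
    (hG1 : MvPolynomial.aeval (M.mulVec ((V * N * Y).mulVec v)) G ≠ 0) (i i' : Fin (n + 1)) :
    M.mulVec (N.mulVec v) i * M.mulVec ((V * N * Y).mulVec v) i' =
      M.mulVec (N.mulVec v) i' * M.mulVec ((V * N * Y).mulVec v) i := by
  classical
  let L := AlgebraicClosure K
  let φ : K →+* L := algebraMap K L
  have hφ : Function.Injective φ := (algebraMap K L).injective
  have hmap : ∀ C : Matrix (Fin r) (Fin r) K, ((1 : Matrix (Fin r) (Fin r) K) + (p : K) • C).map φ =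
      1 + (p : L) • C.map φ := by
    intro C
    have h1 : ((1 : Matrix (Fin r) (Fin r) K) + (p : K) • C).map φ =
        φ.mapMatrix (1 + (p : K) • C) := rfl
    rw [h1, map_add, map_one]
    congr 1
    ext a b
    simp
  have hKK : Kr (V'.map φ) (Y'.map φ) * Kr (V.map φ) (Y.map φ) = 1 := by
    rw [Kr_mul, ← Matrix.map_mul, ← Matrix.map_mul, hV, hY,
      Matrix.map_one φ (map_zero φ) (map_one φ), Kr_one]
  have heig := fun μ hμ => eig_mem_UU (L := L) hp (Kr (V.map φ) (Y.map φ))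
    (Kr (V'.map φ) (Y'.map φ)) (KB (p : L) (B.map φ) (C.map φ)) (KB (p : L) (B'.map φ) (C'.map φ))
    hKK (by rw [eV, eY, hmap, hmap, Kr_add]) (by rw [eV', eY', hmap, hmap, Kr_add])
    (KB_pint hp (fun i j => (hB i j).map φ) (fun i j => (hC i j).map φ))
    (KB_pint hp (fun i j => (hB' i j).map φ) (fun i j => (hC' i j).map φ)) μ hμ
  have hinj : Function.Injective (Matrix.toLinAlgEquiv' (Kr (V.map φ) (Y.map φ))) := by
    intro x y hxy
    rw [Matrix.toLinAlgEquiv'_apply, Matrix.toLinAlgEquiv'_apply] at hxy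
    have := congrArg (Kr (V'.map φ) (Y'.map φ)).mulVec hxy
    rwa [Matrix.mulVec_mulVec, Matrix.mulVec_mulVec, hKK, Matrix.one_mulVec,
      Matrix.one_mulVec] at this
  have hpow : ∀ C : Matrix (Fin r) (Fin r) K, ∀ m : ℕ, (C.map φ) ^ m = (C ^ m).map φ := by
    intro C m
    have h1 : C.map φ = φ.mapMatrix C := rfl
    rw [h1, ← map_pow]
    rfl
  have hseq : ∀ m : ℕ, sl (M.map φ) (φ ∘ v)
      (((Matrix.toLinAlgEquiv' (Kr (V.map φ) (Y.map φ))) ^ m) (vec (N.map φ))) =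
      fun i => φ (M.mulVec ((V ^ m * N * Y ^ m).mulVec v) i) := by
    intro m
    rw [← map_pow, Matrix.toLinAlgEquiv'_apply, Kr_pow, sl_vec, hpow, hpow, ← Matrix.map_mul,
      ← Matrix.map_mul]
    have h1 : ((V ^ m * N * Y ^ m).map φ).mulVec (φ ∘ v) =
        φ ∘ ((V ^ m * N * Y ^ m).mulVec v) := by
      funext i
      exact (RingHom.map_mulVec φ _ v i).symm
    rw [h1]
    funext i
    exact (RingHom.map_mulVec φ _ _ i).symm
  have hseq0 : sl (M.map φ) (φ ∘ v) (vec (N.map φ)) =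
      fun i => φ (M.mulVec (N.mulVec v) i) := by
    have h1 := hseq 0
    simpa using h1
  have hseq1 : sl (M.map φ) (φ ∘ v)
      ((Matrix.toLinAlgEquiv' (Kr (V.map φ) (Y.map φ))) (vec (N.map φ))) =
      fun i => φ (M.mulVec ((V * N * Y).mulVec v) i) := by
    have h1 := hseq 1
    simpa using h1
  have hfin := step_back FF G (r * r) hG (Matrix.toLinAlgEquiv' (Kr (V.map φ) (Y.map φ))) hinj
    (UU hp L) (UU_torsionFree hp hp3) heig (sl (M.map φ) (φ ∘ v)) (vec (N.map φ)) (by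
      intro F hF m
      rw [hseq m]
      have h1 := MvPolynomial.aeval_algebraMap_apply (A := K) L
        (M.mulVec ((V ^ m * N * Y ^ m).mulVec v)) F
      have h2 : (MvPolynomial.aeval fun i => φ (M.mulVec ((V ^ m * N * Y ^ m).mulVec v) i)) F =
          φ (MvPolynomial.aeval (M.mulVec ((V ^ m * N * Y ^ m).mulVec v)) F) := h1
      rw [h2, hX m F hF, map_zero]) (by
      rw [hseq1]
      have h1 := MvPolynomial.aeval_algebraMap_apply (A := K) L
        (M.mulVec ((V * N * Y).mulVec v)) G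
      have h2 : (MvPolynomial.aeval fun i => φ (M.mulVec ((V * N * Y).mulVec v) i)) G =
          φ (MvPolynomial.aeval (M.mulVec ((V * N * Y).mulVec v)) G) := h1
      rw [h2]
      intro h3
      exact hG1 (hφ (by rw [h3, map_zero]))) i i'
  rw [hseq0, hseq1] at hfin
  apply hφ
  rw [map_mul, map_mul]
  exact hfin

end Pool.Agent.TH138.LG
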