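import Pool.Agent.TH138.LG.Pump2
import Pool.Agent.TH138.LG.Sand
import Pool.Agent.TH138.LG.Main
import Pool.Agent.TH138.LG.Conv
import Pool.Agent.TH717.GO.Hyb2

set_option autoImplicit false

/-!
# Context-free languages of matrix products
-/

namespace Pool.Agent.TH138.LG

open NumberField Pool.Agent.H533R3.SL Pool.Agent.TH717.GO
open scoped LinearAlgebra.Projectivization

variable {n r : ℕ} {A : Type}

/-- the vector `M ρ(a₁) ⋯ ρ(a_m) v` for the word `a₁ ⋯ a_m` -/
def wordVec {K : Type} [Field K] (M : Matrix (Fin (n + 1)) (Fin r) K)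
    (ρ : A → Matrix.GeneralLinearGroup (Fin r) K) (v : Fin r → K) (w : List A) :
    Fin (n + 1) → K :=
  M.mulVec (((w.map ρ).prod : Matrix (Fin r) (Fin r) K).mulVec v)

/-- the points of projective space represented by the words of `𝓛` at which `G` does not vanish -/
def wordPts {k K : Type} [Field k] [Field K] [Algebra k K] (G : MvPolynomial (Fin (n + 1)) k)
    (M : Matrix (Fin (n + 1)) (Fin r) K) (ρ : A → Matrix.GeneralLinearGroup (Fin r) K)
    (v : Fin r → K) (𝓛 : Set (List A)) : Set (ℙ K (Fin (n + 1) → K)) :=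
  {P | ∃ w ∈ 𝓛, ∃ h : wordVec M ρ v w ≠ 0, P = Projectivization.mk K (wordVec M ρ v w) h ∧
    MvPolynomial.aeval (wordVec M ρ v w) G ≠ 0}

theorem wordPts_finite {k K : Type} [Field k] [Field K] [Algebra k K] [Finite A]
    (G : MvPolynomial (Fin (n + 1)) k) (M : Matrix (Fin (n + 1)) (Fin r) K)
    (ρ : A → Matrix.GeneralLinearGroup (Fin r) K) (v : Fin r → K) (𝓛 : Set (List A)) (B : ℕ) :
    (wordPts G M ρ v {w | w ∈ 𝓛 ∧ w.length ≤ B}).Finite := by
  classical
  have h1 : {w : List A | w.length < B + 1}.Finite := List.finite_length_lt A (B + 1)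
  refine (h1.image (fun w => if h : wordVec M ρ v w ≠ 0 then
    Projectivization.mk K (wordVec M ρ v w) h else
      Projectivization.mk K (fun _ => 1) (fun h => one_ne_zero (congrFun h 0)))).subset ?_
  rintro P ⟨w, hw, h, rfl, _⟩
  exact ⟨w, Nat.lt_succ_of_le hw.2, by simp [dif_pos h]⟩

section red

variable {K : Type} [Field K] [NumberField K] {p : ℕ}

/-- the finite set of colours -/
abbrev Col (K : Type) [Field K] [NumberField K] (p r : ℕ) : Type :=
  (Fin r → Fin r → 𝓞 K ⧸ (Ideal.span {(p : 𝓞 K)} : Ideal (𝓞 K))) ×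
    (Fin r → Fin r → 𝓞 K ⧸ (Ideal.span {(p : 𝓞 K)} : Ideal (𝓞 K)))

theorem quot_finite (hp : p.Prime) :
    Finite (𝓞 K ⧸ (Ideal.span {(p : 𝓞 K)} : Ideal (𝓞 K))) :=
  Nat.finite_of_card_ne_zero (by
    rw [card_quot (K := K) p]
    exact pow_ne_zero _ hp.ne_zero)

theorem card_col (hp : p.Prime) [Fintype (Col K p r)] :
    Fintype.card (Col K p r) = p ^ (2 * Module.finrank ℚ K * r ^ 2) := by
  classical
  have := quot_finite (K := K) hp
  have h1 : Fintype (𝓞 K ⧸ (Ideal.span {(p : 𝓞 K)} : Ideal (𝓞 K))) := Fintype.ofFinite _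
  rw [← Nat.card_eq_fintype_card, Nat.card_prod, Nat.card_fun, Nat.card_fun, Nat.card_fin,
    card_quot (K := K) p, ← pow_mul, ← pow_mul, ← pow_add]
  congr 1
  ring

/-- matrices with `p`-integral entries have a reduction in a finite set -/
theorem exists_redM (hp : p.Prime) :
    ∃ red : Matrix (Fin r) (Fin r) K → (Fin r → Fin r →
      𝓞 K ⧸ (Ideal.span {(p : 𝓞 K)} : Ideal (𝓞 K))),
      ∀ g g' : Matrix (Fin r) (Fin r) K, (∀ i j, PInt p (g i j)) → (∀ i j, PInt p (g' i j)) →
        red g = red g' → ∃ D : Matrix (Fin r) (Fin r) K, (∀ i j, PInt p (D i j)) ∧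
          g' = g + (p : K) • D := by
  classical
  have hch : ∀ a : K, ∃ (y : 𝓞 K) (c : K), PInt p a → PInt p c ∧ a = y + p * c := by
    intro a
    by_cases ha : PInt p a
    · obtain ⟨y, c, h⟩ := exists_red hp a ha
      exact ⟨y, c, fun _ => h⟩
    · exact ⟨0, 0, fun h => absurd h ha⟩
  choose y c hyc using hch
  refine ⟨fun g i j => Ideal.Quotient.mk _ (y (g i j)), ?_⟩
  intro g g' hg hg' h
  have h1 : ∀ i j, ∃ z : 𝓞 K, y (g' i j) - y (g i j) = p * z := by
    intro i j
    have h2 : Ideal.Quotient.mk (Ideal.span {(p : 𝓞 K)} : Ideal (𝓞 K)) (y (g' i j)) =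
        Ideal.Quotient.mk _ (y (g i j)) := (congrFun (congrFun h i) j).symm
    rw [Ideal.Quotient.eq, Ideal.mem_span_singleton] at h2
    exact h2
  choose z hz using h1
  refine ⟨Matrix.of fun i j => (z i j : K) + (c (g' i j) + -c (g i j)), fun i j => ?_, ?_⟩
  · rw [Matrix.of_apply]
    exact (PInt.of_int hp (z i j).2).add hp
      ((hyc _ (hg' i j)).1.add hp ((hyc _ (hg i j)).1.neg hp))
  · ext i j
    have h4 := (hyc _ (hg' i j)).2
    have h5 := (hyc _ (hg i j)).2
    rw [Matrix.add_apply, Matrix.smul_apply, smul_eq_mul, Matrix.of_apply]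
    have h3 : (y (g' i j) : K) - y (g i j) = p * z i j := by
      have := congrArg (fun a : 𝓞 K => (a : K)) (hz i j)
      simpa using this
    linear_combination h3 + h4 - h5

end red

/-- **Points represented by a context-free language of matrix products.** -/
theorem words_short {k : Type} [Field k] (FF : Set (MvPolynomial (Fin (n + 1)) k))
    (G : MvPolynomial (Fin (n + 1)) k) (e : ℕ) (hGe : G.IsHomogeneous e)
    (hG : ∀ (L : Type) [Field L] [Algebra k L] [IsAlgClosed L]
        (f : Module.End L (Fin (r * r) → L))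
        (U : Subgroup Lˣ), (∀ u ∈ U, ∀ m : ℕ, 0 < m → u ^ m = 1 → u = 1) →
        (∀ μ : L, f.HasEigenvalue μ → ∃ u ∈ U, (u : L) = μ) →
        ∀ (ℓ : (Fin (r * r) → L) →ₗ[L] (Fin (n + 1) → L)) (v : Fin (r * r) → L),
        (∀ F ∈ FF, ∀ m : ℕ, MvPolynomial.aeval (ℓ ((f ^ m) v)) F = 0) →
        MvPolynomial.aeval (ℓ v) G ≠ 0 →
        ∀ (i i' : Fin (n + 1)) (m : ℕ), ℓ ((f ^ m) v) i * ℓ v i' = ℓ ((f ^ m) v) i' * ℓ v i)
    {K : Type} [Field K] [NumberField K] [Algebra k K] {p : ℕ} (hp : p.Prime) (hp3 : 3 ≤ p)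
    (M : Matrix (Fin (n + 1)) (Fin r) K) (ρ : A → Matrix.GeneralLinearGroup (Fin r) K)
    (hρ : ∀ a, ρ a ∈ GLp (K := K) hp r) (v : Fin r → K) (g : ContextFreeGrammar A)
    (hX : ∀ w ∈ g.language, wordVec M ρ v w ≠ 0 ∧
      ∀ F ∈ FF, MvPolynomial.aeval (wordVec M ρ v w) F = 0) :
    wordPts G M ρ v g.language = wordPts G M ρ v {w | w ∈ g.language ∧ w.length ≤
      width g ^ ((inputs g).card * p ^ (2 * Module.finrank ℚ K * r ^ 2))} := by
  classical
  have hfin := quot_finite (K := K) hp
  haveI : Fintype (Col K p r) := Fintype.ofFinite _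
  obtain ⟨red, hred⟩ := exists_redM (K := K) (r := r) hp
  have hw : ∀ w : List A, (w.map ρ).prod ∈ GLp (K := K) hp r := by
    intro w
    refine Subgroup.list_prod_mem _ ?_
    intro x hx
    obtain ⟨a, _, rfl⟩ := List.mem_map.1 hx
    exact hρ a
  -- the product of matrices
  let P : List A → Matrix (Fin r) (Fin r) K := fun w => ((w.map ρ).prod :
    Matrix (Fin r) (Fin r) K)
  let P' : List A → Matrix (Fin r) (Fin r) K := fun w =>
    (((w.map ρ).prod⁻¹ : Matrix.GeneralLinearGroup (Fin r) K) : Matrix (Fin r) (Fin r) K)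
  have hPmul : ∀ w w', P (w ++ w') = P w * P w' := by
    intro w w'
    show ((((w ++ w').map ρ).prod : Matrix.GeneralLinearGroup (Fin r) K) :
      Matrix (Fin r) (Fin r) K) = _
    rw [List.map_append, List.prod_append, Units.val_mul]
  have hPP' : ∀ w, P w * P' w = 1 := fun w => Units.mul_inv _
  have hP'P : ∀ w, P' w * P w = 1 := fun w => Units.inv_mul _
  have hPi : ∀ w i j, PInt p (P w i j) := fun w => (hw w).1
  have hPi' : ∀ w i j, PInt p (P' w i j) := fun w => (hw w).2
  have hPpow : ∀ w (m : ℕ), P (List.replicate m w).flatten = P w ^ m := by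
    intro w m
    induction m with
    | zero => simp [P]
    | succ m ih =>
      rw [List.replicate_succ, List.flatten_cons, hPmul, ih, pow_succ']
  have hmulp : ∀ X Y : Matrix (Fin r) (Fin r) K, (∀ i j, PInt p (X i j)) →
      (∀ i j, PInt p (Y i j)) → ∀ i j, PInt p ((X * Y) i j) := by
    intro X Y hX hY i j
    rw [Matrix.mul_apply]
    exact PInt.sum hp _ _ fun a _ => (hX i a).mul hp (hY a j)
  have hnegp : ∀ X : Matrix (Fin r) (Fin r) K, (∀ i j, PInt p (X i j)) →
      ∀ i j, PInt p ((-X) i j) := by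
    intro X hX i j
    rw [Matrix.neg_apply]
    exact (hX i j).neg hp
  let c : List A → List A → Col K p r := fun u z => (red (P u), red (P z))
  have key : ∀ (N : ℕ) (w : List A), w.length ≤ N → w ∈ g.language →
      MvPolynomial.aeval (wordVec M ρ v w) G ≠ 0 → ∃ w' ∈ g.language,
        w'.length ≤ width g ^ ((inputs g).card * p ^ (2 * Module.finrank ℚ K * r ^ 2)) ∧
        ∀ i j, wordVec M ρ v w' i * wordVec M ρ v w j =
          wordVec M ρ v w' j * wordVec M ρ v w i := by
    intro N
    induction N with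
    | zero =>
      intro w hwN hwg hwG
      exact ⟨w, hwg, by omega, fun i j => by ring⟩
    | succ N ih =>
      intro w hwN hwg hwG
      by_cases hlen : w.length ≤ width g ^ ((inputs g).card *
          p ^ (2 * Module.finrank ℚ K * r ^ 2))
      · exact ⟨w, hwg, hlen, fun i j => by ring⟩
      · obtain ⟨u, a, x, b, z, h1, h2, h3, h4⟩ := pumpingC c hwg (by
          rw [card_col (K := K) (r := r) hp]
          omega)
        obtain ⟨h3u, h3z⟩ := Prod.mk.inj h3
        obtain ⟨D, hD, hDe⟩ := hred _ _ (hPi u) (hPi (u ++ a)) h3u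
        obtain ⟨E, hE, hEe⟩ := hred _ _ (hPi z) (hPi (b ++ z)) h3z
        -- the two pumped words are congruent to `1`
        have eV : P a = 1 + (p : K) • (P' u * D) := by
          calc P a = P' u * (P u * P a) := by rw [← mul_assoc, hP'P, one_mul]
            _ = _ := by
              rw [← hPmul, hDe, mul_add, hP'P, Matrix.mul_smul]
        have eY : P b = 1 + (p : K) • (E * P' z) := by
          calc P b = (P b * P z) * P' z := by rw [mul_assoc, hPP', mul_one]
            _ = _ := by
              rw [← hPmul, hEe, add_mul, hPP', Matrix.smul_mul]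
        have eV' : P' a = 1 + (p : K) • (-(P' a * (P' u * D))) := by
          have h5 : P' a * P a = P' a + (p : K) • (P' a * (P' u * D)) := by
            conv_lhs => rw [eV]
            rw [mul_add, mul_one, Matrix.mul_smul]
          rw [hP'P] at h5
          rw [h5, smul_neg]
          abel
        have eY' : P' b = 1 + (p : K) • (-(P' b * (E * P' z))) := by
          have h5 : P' b * P b = P' b + (p : K) • (P' b * (E * P' z)) := by
            conv_lhs => rw [eY]
            rw [mul_add, mul_one, Matrix.mul_smul]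
          rw [hP'P] at h5
          rw [h5, smul_neg]
          abel
        have hvec : ∀ m : ℕ, wordVec M ρ v (u ++ (List.replicate m a).flatten ++ x ++
            (List.replicate m b).flatten ++ z) =
            (M * P u).mulVec ((P a ^ m * P x * P b ^ m).mulVec ((P z).mulVec v)) := by
          intro m
          show M.mulVec ((P _).mulVec v) = _
          rw [hPmul, hPmul, hPmul, hPmul, hPpow, hPpow, Matrix.mulVec_mulVec,
            Matrix.mulVec_mulVec, Matrix.mulVec_mulVec]
          simp only [Matrix.mul_assoc]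
        have hw1 : w = u ++ (List.replicate 1 a).flatten ++ x ++
            (List.replicate 1 b).flatten ++ z := by simpa using h1
        have hv1 : wordVec M ρ v w =
            (M * P u).mulVec ((P a * P x * P b).mulVec ((P z).mulVec v)) := by
          have h5 := hvec 1
          rw [← hw1, pow_one, pow_one] at h5
          exact h5
        have hv0 : wordVec M ρ v (u ++ x ++ z) =
            (M * P u).mulVec ((P x).mulVec ((P z).mulVec v)) := by
          have h5 := hvec 0
          simpa using h5
        have hmem0 : u ++ x ++ z ∈ g.language := by simpa using h4 0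
        have hsand := sandwich hp hp3 FF G hG (M * P u) (P a) (P' a) (P x) (P b) (P' b)
          ((P z).mulVec v) (hP'P a) (hPP' b) (P' u * D) (-(P' a * (P' u * D))) (E * P' z)
          (-(P' b * (E * P' z))) (hmulp _ _ (hPi' u) hD)
          (hnegp _ (hmulp _ _ (hPi' a) (hmulp _ _ (hPi' u) hD)))
          (hmulp _ _ hE (hPi' z)) (hnegp _ (hmulp _ _ (hPi' b) (hmulp _ _ hE (hPi' z))))
          eV eV' eY eY' (fun m F hF => by
            rw [← hvec m]
            exact (hX _ (h4 m)).2 F hF) (by
            rw [← hv1]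
            exact hwG)
        rw [← hv1, ← hv0] at hsand
        have h9 : MvPolynomial.aeval (wordVec M ρ v (u ++ x ++ z)) G ≠ 0 := by
          intro h10
          exact hwG (aeval_cross (hX _ hmem0).1 hsand G e hGe h10)
        have hlt : (u ++ x ++ z).length < w.length := by
          rw [h1]
          simp only [List.length_append]
          rcases h2 with h2 | h2
          · have := List.length_pos_iff.2 h2; omega
          · have := List.length_pos_iff.2 h2; omega
        obtain ⟨w', hw', hw'p, hw'c⟩ := ih _ (by omega) hmem0 h9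
        refine ⟨w', hw', hw'p, ?_⟩
        have e1 := mk_eq_of_cross (hX _ hmem0).1 (hX _ hwg).1 hsand
        have e2 := mk_eq_of_cross (hX _ hw').1 (hX _ hmem0).1 hw'c
        have e3 := e2.trans e1
        rw [Projectivization.mk_eq_mk_iff'] at e3
        obtain ⟨t, ht⟩ := e3
        intro i j
        rw [← ht]
        simp only [Pi.smul_apply, smul_eq_mul]
        ring
  ext Q
  constructor
  · rintro ⟨w, hw, h, rfl, hwG⟩
    obtain ⟨w', hw', hw'p, hc⟩ := key _ w le_rfl hw hwG
    refine ⟨w', ⟨hw', hw'p⟩, (hX _ hw').1, ?_, ?_⟩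
    · exact (mk_eq_of_cross (hX _ hw').1 h hc).symm
    · intro h10
      exact hwG (aeval_cross (hX _ hw').1 hc G e hGe h10)
  · rintro ⟨w, hw, h, rfl, hwG⟩
    exact ⟨w, hw.1, h, rfl, hwG⟩

/-- finitely many invertible matrices over a number field are `p`-integral, together with their
inverses, for some odd prime `p` -/
theorem exists_prime_letters {K : Type} [Field K] [NumberField K] [Finite A]
    (ρ : A → Matrix.GeneralLinearGroup (Fin r) K) :
    ∃ (p : ℕ) (hp : p.Prime), 3 ≤ p ∧ ∀ a, ρ a ∈ GLp (K := K) hp r := by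
  have : Finite (Set.range ρ) := Set.finite_range ρ
  obtain ⟨p, hp, hp3, h⟩ := exists_prime_of_fg (r := r)
    (Group.closure_finite_fg (Set.range ρ)) (Subgroup.closure (Set.range ρ)).subtype
  refine ⟨p, hp, hp3, fun a => ⟨?_, ?_⟩⟩
  · exact h ⟨ρ a, Subgroup.subset_closure ⟨a, rfl⟩⟩
  · exact h (⟨ρ a, Subgroup.subset_closure ⟨a, rfl⟩⟩⁻¹)

open scoped Classical in
/-- the grammar of all words -/
noncomputable def allWords (A : Type) [Fintype A] : ContextFreeGrammar A where
  NT := Unit
  initial := ()
  rules := insert ⟨(), []⟩ (Finset.univ.image fun a : A =>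
    (⟨(), [.terminal a, .nonterminal ()]⟩ : ContextFreeRule A Unit))

theorem mem_allWords (A : Type) [Fintype A] (w : List A) : w ∈ (allWords A).language := by
  classical
  rw [mem_language]
  have h0 : (⟨(), []⟩ : ContextFreeRule A Unit) ∈ (allWords A).rules := by
    unfold allWords
    simp
  have h1 : ∀ a : A, (⟨(), [.terminal a, .nonterminal ()]⟩ : ContextFreeRule A Unit) ∈
      (allWords A).rules := by
    intro a
    unfold allWords
    simp
  induction w with
  | nil => exact DL.rule (g := allWords A) h0 .nil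
  | cons a w ih => exact DL.rule (g := allWords A) (h1 a) (.term a ih)

theorem language_allWords (A : Type) [Fintype A] :
    ((allWords A).language : Set (List A)) = Set.univ :=
  Set.eq_univ_of_forall fun w => mem_allWords A w

theorem curve_words {k : Type} [Field k] (FF : Set (MvPolynomial (Fin (n + 1)) k))
    (G : MvPolynomial (Fin (n + 1)) k) {K : Type} [Field K] [NumberField K] [Algebra k K] {N : ℕ}
    (w : Fin N → Fin (n + 1) → K)
    (h1 : ∀ F ∈ FF, MvPolynomial.aeval (cur w (fun j => (j : ℕ))) F = 0)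
    (h2 : ∃ i j, cur w (fun j => (j : ℕ)) i * Polynomial.C ((cur w (fun j => (j : ℕ)) j).eval 1) ≠
        cur w (fun j => (j : ℕ)) j * Polynomial.C ((cur w (fun j => (j : ℕ)) i).eval 1))
    (h3 : MvPolynomial.aeval (fun i => (cur w (fun j => (j : ℕ)) i).eval 1) G ≠ 0) :
    ∃ (ρ : Unit → Matrix.GeneralLinearGroup (Fin N) K) (v : Fin N → K),
      (∀ l : List Unit, wordVec (M0 w) ρ v l ≠ 0 ∧
        ∀ F ∈ FF, MvPolynomial.aeval (wordVec (M0 w) ρ v l) F = 0) ∧
      (wordPts G (M0 w) ρ v (Set.univ : Set (List Unit))).Infinite := by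
  classical
  let q : Fin (n + 1) → Polynomial K := cur w (fun j => (j : ℕ))
  have hevG : ∀ (F : MvPolynomial (Fin (n + 1)) k) (t : K), (MvPolynomial.aeval q F).eval t =
      MvPolynomial.aeval (fun i => (q i).eval t) F := by
    intro F t
    exact MvPolynomial.comp_aeval_apply (R := k) q
      ((Polynomial.aeval t : Polynomial K →ₐ[K] K).restrictScalars k) F
  have horb : ∀ m : Multiplicative ℤ, orb (M0 w) (dia K N) (fun _ => 1) m =
      fun i => (q i).eval ((2 : K) ^ (Multiplicative.toAdd m)) := by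
    intro m
    funext i
    show ∑ j, M0 w i j * ((Matrix.diagonal fun j : Fin N =>
      ((2 : K) ^ (Multiplicative.toAdd m)) ^ (j : ℕ)).mulVec fun _ => 1) j = _
    show _ = (cur w (fun j : Fin N => (j : ℕ)) i).eval _
    unfold cur
    rw [Polynomial.eval_finsetSum]
    refine Finset.sum_congr rfl fun j _ => ?_
    rw [Matrix.mulVec_diagonal, Polynomial.eval_mul, Polynomial.eval_C, Polynomial.eval_pow,
      Polynomial.eval_X, mul_one]
    rfl
  have hb0 : (2 : K) ≠ 0 := two_ne_zero
  have hb : ∀ m : ℕ, 0 < m → (2 : K) ^ m ≠ 1 := by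
    intro m hm h
    have h4 : ((2 ^ m : ℕ) : K) = ((1 : ℕ) : K) := by push_cast; exact h
    have h5 : 2 ^ m = 1 := Nat.cast_injective h4
    have h6 : 1 < 2 ^ m := Nat.one_lt_two_pow (by omega)
    omega
  have hG0 : MvPolynomial.aeval q G ≠ 0 := by
    intro h
    apply h3
    have := hevG G 1
    rw [h, Polynomial.eval_zero] at this
    exact this.symm
  obtain ⟨i0, hi0⟩ : ∃ i, q i ≠ 0 := by
    by_contra hcon
    push Not at hcon
    obtain ⟨i, j, hij⟩ := h2
    apply hij
    show q i * _ = q j * _
    rw [hcon i, hcon j, zero_mul, zero_mul]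
  have hroots : {m : ℕ | (MvPolynomial.aeval q G * q i0).eval ((2 : K) ^ (m + 1)) = 0}.Finite := by
    refine Set.Finite.of_finite_image (f := fun m : ℕ => (2 : K) ^ (m + 1))
      (((MvPolynomial.aeval q G * q i0).roots.toFinset.finite_toSet).subset ?_) ?_
    · rintro _ ⟨m, hm, rfl⟩
      have hne : MvPolynomial.aeval q G * q i0 ≠ 0 := mul_ne_zero hG0 hi0
      rw [Finset.mem_coe, Multiset.mem_toFinset, Polynomial.mem_roots hne]
      exact hm
    · intro m _ m' _ h
      have := pow_injective hb0 hb h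
      simpa using this
  obtain ⟨m0, hm0⟩ := hroots.bddAbove
  have hgood : ∀ m, m0 < m → MvPolynomial.aeval (fun i => (q i).eval ((2 : K) ^ (m + 1))) G ≠ 0 ∧
      (q i0).eval ((2 : K) ^ (m + 1)) ≠ 0 := by
    intro m hm
    have h4 : (MvPolynomial.aeval q G * q i0).eval ((2 : K) ^ (m + 1)) ≠ 0 := by
      intro h5
      have := hm0 h5
      omega
    rw [Polynomial.eval_mul, hevG] at h4
    exact ⟨left_ne_zero_of_mul h4, right_ne_zero_of_mul h4⟩
  let t0 : Multiplicative ℤ := Multiplicative.ofAdd ((m0 + 2 : ℕ) : ℤ)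
  let t1 : Multiplicative ℤ := Multiplicative.ofAdd (1 : ℤ)
  have hval : ∀ l : List Unit, wordVec (M0 w) (fun _ => dia K N t1)
      ((dia K N t0 : Matrix (Fin N) (Fin N) K).mulVec fun _ => 1) l =
      fun i => (q i).eval ((2 : K) ^ (l.length + m0 + 1 + 1)) := by
    intro l
    have h4 : (l.map fun _ : Unit => dia K N t1).prod = dia K N (t1 ^ l.length) := by
      rw [List.map_const', List.prod_replicate, map_pow]
    have h7 : (dia K N (t1 ^ l.length) : Matrix (Fin N) (Fin N) K).mulVec
        ((dia K N t0 : Matrix (Fin N) (Fin N) K).mulVec fun _ => 1) =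
        (dia K N (t1 ^ l.length * t0) : Matrix (Fin N) (Fin N) K).mulVec fun _ => 1 := by
      rw [Matrix.mulVec_mulVec, ← Units.val_mul, ← map_mul]
    unfold wordVec
    rw [h4, h7]
    have h5 := horb (t1 ^ l.length * t0)
    unfold orb at h5
    rw [h5]
    funext i
    congr 1
    have h6 : Multiplicative.toAdd (t1 ^ l.length * t0) = ((l.length + m0 + 1 + 1 : ℕ) : ℤ) := by
      rw [toAdd_mul, toAdd_pow]
      simp only [t1, t0, toAdd_ofAdd]
      push_cast
      simp
      ring
    rw [h6, zpow_natCast]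
  refine ⟨fun _ => dia K N t1, (dia K N t0 : Matrix (Fin N) (Fin N) K).mulVec fun _ => 1, ?_, ?_⟩
  · intro l
    rw [hval]
    refine ⟨fun h => (hgood (l.length + m0 + 1) (by omega)).2 (congrFun h i0), fun F hF => ?_⟩
    rw [← hevG, h1 F hF, Polynomial.eval_zero]
  · intro hfin
    have hcov : Set.univ ⊆ ⋃ P ∈ wordPts G (M0 w) (fun _ => dia K N t1)
        ((dia K N t0 : Matrix (Fin N) (Fin N) K).mulVec fun _ => 1)
          (Set.univ : Set (List Unit)),
        (fun m : ℕ => m + m0 + 1) ⁻¹' {m : ℕ | ∀ i j, (q i).eval ((2 : K) ^ (m + 1)) *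
            P.rep j = (q j).eval ((2 : K) ^ (m + 1)) * P.rep i} := by
      intro m _
      have hlen : (List.replicate m ()).length = m := List.length_replicate
      have hv := hval (List.replicate m ())
      rw [hlen] at hv
      have hne : wordVec (M0 w) (fun _ => dia K N t1)
          ((dia K N t0 : Matrix (Fin N) (Fin N) K).mulVec fun _ => 1) (List.replicate m ()) ≠ 0 := by
        rw [hv]
        exact fun h => (hgood (m + m0 + 1) (by omega)).2 (congrFun h i0)
      simp only [Set.mem_iUnion]
      refine ⟨Projectivization.mk K _ hne, ⟨_, Set.mem_univ _, hne, rfl, ?_⟩, ?_⟩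
      · rw [hv]; exact (hgood (m + m0 + 1) (by omega)).1
      · intro i j
        obtain ⟨a, ha⟩ := Projectivization.exists_smul_eq_mk_rep K _ hne
        rw [← ha, hv]
        simp only [Pi.smul_apply, Units.smul_def, smul_eq_mul]
        ring
    apply Set.infinite_univ (α := ℕ)
    refine Set.Finite.subset (Set.Finite.biUnion hfin fun P _ => ?_) hcov
    refine Set.Finite.preimage ?_ (fibre_finite q h2 2 hb0 hb P.rep P.rep_nonzero)
    intro a _ b _ hab
    simpa using hab

end Pool.Agent.TH138.LG
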