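import Pool.Agent.TH138.LG.Aff
import Pool.Agent.TH138.LG.Words

set_option autoImplicit false

/-!
# Context-free languages of matrix products on affine varieties
-/

namespace Pool.Agent.TH138.LG

open NumberField Pool.Agent.TH717.GO

variable {ι A : Type} {r : ℕ}

/-- the vector `M ρ(a₁) ⋯ ρ(a_m) v` for the word `a₁ ⋯ a_m` -/
def affVec {K : Type} [Field K] (M : Matrix ι (Fin r) K)
    (ρ : A → Matrix.GeneralLinearGroup (Fin r) K) (v : Fin r → K) (w : List A) : ι → K :=
  M.mulVec (((w.map ρ).prod : Matrix (Fin r) (Fin r) K).mulVec v)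

/-- **Affine points represented by a context-free language of matrix products.** -/
theorem words_aff {R : Type} [CommRing R] {K : Type} [Field K] [NumberField K] (e : R →+* K)
    (FF : Set (MvPolynomial ι R))
    (hno : NoLaurent FF ((algebraMap K (AlgebraicClosure K)).comp e))
    {p : ℕ} (hp : p.Prime) (hp3 : 3 ≤ p)
    (M : Matrix ι (Fin r) K) (ρ : A → Matrix.GeneralLinearGroup (Fin r) K)
    (hρ : ∀ a, ρ a ∈ GLp (K := K) hp r) (v : Fin r → K) (g : ContextFreeGrammar A)
    (hX : ∀ w ∈ g.language, ∀ F ∈ FF, MvPolynomial.eval₂ e (affVec M ρ v w) F = 0) :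
    ∀ w ∈ g.language, ∃ w' ∈ g.language, w'.length ≤
      width g ^ ((inputs g).card * p ^ (2 * Module.finrank ℚ K * r ^ 2)) ∧
      affVec M ρ v w' = affVec M ρ v w := by
  classical
  have hfin := quot_finite (K := K) hp
  haveI : Fintype (Col K p r) := Fintype.ofFinite _
  obtain ⟨red, hred⟩ := exists_redM (K := K) (r := r) hp
  have hw : ∀ w : List A, (w.map ρ).prod ∈ GLp (K := K) hp r := by
    intro w
    refine Subgroup.list_prod_mem _ ?_
    intro x hx
    obtain ⟨a, _, rfl⟩ := List.mem_map.1 hx
    exact hρ a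
  -- the product of matrices
  let P : List A → Matrix (Fin r) (Fin r) K := fun w => ((w.map ρ).prod :
    Matrix (Fin r) (Fin r) K)
  let P' : List A → Matrix (Fin r) (Fin r) K := fun w =>
    (((w.map ρ).prod⁻¹ : Matrix.GeneralLinearGroup (Fin r) K) : Matrix (Fin r) (Fin r) K)
  have hPmul : ∀ w w', P (w ++ w') = P w * P w' := by
    intro w w'
    show ((((w ++ w').map ρ).prod : Matrix.GeneralLinearGroup (Fin r) K) :
      Matrix (Fin r) (Fin r) K) = _
    rw [List.map_append, List.prod_append, Units.val_mul]
  have hPP' : ∀ w, P w * P' w = 1 := fun w => Units.mul_inv _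
  have hP'P : ∀ w, P' w * P w = 1 := fun w => Units.inv_mul _
  have hPi : ∀ w i j, PInt p (P w i j) := fun w => (hw w).1
  have hPi' : ∀ w i j, PInt p (P' w i j) := fun w => (hw w).2
  have hPpow : ∀ w (m : ℕ), P (List.replicate m w).flatten = P w ^ m := by
    intro w m
    induction m with
    | zero => simp [P]
    | succ m ih =>
      rw [List.replicate_succ, List.flatten_cons, hPmul, ih, pow_succ']
  have hmulp : ∀ X Y : Matrix (Fin r) (Fin r) K, (∀ i j, PInt p (X i j)) →
      (∀ i j, PInt p (Y i j)) → ∀ i j, PInt p ((X * Y) i j) := by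
    intro X Y hX hY i j
    rw [Matrix.mul_apply]
    exact PInt.sum hp _ _ fun a _ => (hX i a).mul hp (hY a j)
  have hnegp : ∀ X : Matrix (Fin r) (Fin r) K, (∀ i j, PInt p (X i j)) →
      ∀ i j, PInt p ((-X) i j) := by
    intro X hX i j
    rw [Matrix.neg_apply]
    exact (hX i j).neg hp
  let c : List A → List A → Col K p r := fun u z => (red (P u), red (P z))
  have key : ∀ (N : ℕ) (w : List A), w.length ≤ N → w ∈ g.language → ∃ w' ∈ g.language,
        w'.length ≤ width g ^ ((inputs g).card * p ^ (2 * Module.finrank ℚ K * r ^ 2)) ∧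
        affVec M ρ v w' = affVec M ρ v w := by
    intro N
    induction N with
    | zero =>
      intro w hwN hwg
      exact ⟨w, hwg, by omega, rfl⟩
    | succ N ih =>
      intro w hwN hwg
      by_cases hlen : w.length ≤ width g ^ ((inputs g).card *
          p ^ (2 * Module.finrank ℚ K * r ^ 2))
      · exact ⟨w, hwg, hlen, rfl⟩
      · obtain ⟨u, a, x, b, z, h1, h2, h3, h4⟩ := pumpingC c hwg (by
          rw [card_col (K := K) (r := r) hp]
          omega)
        obtain ⟨h3u, h3z⟩ := Prod.mk.inj h3
        obtain ⟨D, hD, hDe⟩ := hred _ _ (hPi u) (hPi (u ++ a)) h3u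
        obtain ⟨E, hE, hEe⟩ := hred _ _ (hPi z) (hPi (b ++ z)) h3z
        -- the two pumped words are congruent to `1`
        have eV : P a = 1 + (p : K) • (P' u * D) := by
          calc P a = P' u * (P u * P a) := by rw [← mul_assoc, hP'P, one_mul]
            _ = _ := by
              rw [← hPmul, hDe, mul_add, hP'P, Matrix.mul_smul]
        have eY : P b = 1 + (p : K) • (E * P' z) := by
          calc P b = (P b * P z) * P' z := by rw [mul_assoc, hPP', mul_one]
            _ = _ := by
              rw [← hPmul, hEe, add_mul, hPP', Matrix.smul_mul]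
        have eV' : P' a = 1 + (p : K) • (-(P' a * (P' u * D))) := by
          have h5 : P' a * P a = P' a + (p : K) • (P' a * (P' u * D)) := by
            conv_lhs => rw [eV]
            rw [mul_add, mul_one, Matrix.mul_smul]
          rw [hP'P] at h5
          rw [h5, smul_neg]
          abel
        have eY' : P' b = 1 + (p : K) • (-(P' b * (E * P' z))) := by
          have h5 : P' b * P b = P' b + (p : K) • (P' b * (E * P' z)) := by
            conv_lhs => rw [eY]
            rw [mul_add, mul_one, Matrix.mul_smul]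
          rw [hP'P] at h5
          rw [h5, smul_neg]
          abel
        have hvec : ∀ m : ℕ, affVec M ρ v (u ++ (List.replicate m a).flatten ++ x ++
            (List.replicate m b).flatten ++ z) =
            (M * P u).mulVec ((P a ^ m * P x * P b ^ m).mulVec ((P z).mulVec v)) := by
          intro m
          show M.mulVec ((P _).mulVec v) = _
          rw [hPmul, hPmul, hPmul, hPmul, hPpow, hPpow, Matrix.mulVec_mulVec,
            Matrix.mulVec_mulVec, Matrix.mulVec_mulVec]
          simp only [Matrix.mul_assoc]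
        have hw1 : w = u ++ (List.replicate 1 a).flatten ++ x ++
            (List.replicate 1 b).flatten ++ z := by simpa using h1
        have hv1 : affVec M ρ v w =
            (M * P u).mulVec ((P a * P x * P b).mulVec ((P z).mulVec v)) := by
          have h5 := hvec 1
          rw [← hw1, pow_one, pow_one] at h5
          exact h5
        have hv0 : affVec M ρ v (u ++ x ++ z) =
            (M * P u).mulVec ((P x).mulVec ((P z).mulVec v)) := by
          have h5 := hvec 0
          simpa using h5
        have hmem0 : u ++ x ++ z ∈ g.language := by simpa using h4 0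
        have hsand := sandwich_aff hp hp3 e FF hno (M * P u) (P a) (P' a) (P x) (P b) (P' b)
          ((P z).mulVec v) (hP'P a) (hPP' b) (P' u * D) (-(P' a * (P' u * D))) (E * P' z)
          (-(P' b * (E * P' z))) (hmulp _ _ (hPi' u) hD)
          (hnegp _ (hmulp _ _ (hPi' a) (hmulp _ _ (hPi' u) hD)))
          (hmulp _ _ hE (hPi' z)) (hnegp _ (hmulp _ _ (hPi' b) (hmulp _ _ hE (hPi' z))))
          eV eV' eY eY' (fun m F hF => by
            rw [← hvec m]
            exact hX _ (h4 m) F hF)
        rw [← hv1, ← hv0] at hsand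
        have hlt : (u ++ x ++ z).length < w.length := by
          rw [h1]
          simp only [List.length_append]
          rcases h2 with h2 | h2
          · have := List.length_pos_iff.2 h2; omega
          · have := List.length_pos_iff.2 h2; omega
        obtain ⟨w', hw', hw'p, hw'c⟩ := ih _ (by omega) hmem0
        exact ⟨w', hw', hw'p, hw'c.trans hsand.symm⟩
  exact fun w hw => key _ w le_rfl hw

/-- Laurent polynomial solutions over a subfield of `ℂ` -/
theorem noLaurent_of_complex {R : Type} [CommRing R] (FF : Set (MvPolynomial ι R)) {L : Type}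
    [Field L] (e : R →+* L) (τ : L →+* ℂ) (h : NoLaurent FF (τ.comp e)) : NoLaurent FF e := by
  classical
  intro q hq hF i
  have hτ : Function.Injective τ := τ.injective
  have hmap : (nonZeroDivisors (Polynomial L)) ≤
      (nonZeroDivisors (Polynomial ℂ)).comap (Polynomial.mapRingHom τ) := by
    intro P hP
    rw [Submonoid.mem_comap]
    refine mem_nonZeroDivisors_of_ne_zero ?_
    have hP0 := nonZeroDivisors.ne_zero hP
    intro h0
    exact hP0 (Polynomial.map_injective τ hτ (by
      rw [Polynomial.map_zero]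
      exact h0))
  let Φ : RatFunc L →+* RatFunc ℂ := RatFunc.mapRingHom (Polynomial.mapRingHom τ) hmap
  have hΦ : ∀ P : Polynomial L, Φ (algebraMap (Polynomial L) (RatFunc L) P) =
      algebraMap (Polynomial ℂ) (RatFunc ℂ) (P.map τ) := by
    intro P
    have h1 := RatFunc.map_apply_div (φ := Polynomial.mapRingHom τ) hmap P 1
    rw [map_one, div_one, map_one, map_one, div_one] at h1
    exact h1
  have hΦC : ∀ c : L, Φ (RatFunc.C c) = RatFunc.C (τ c) := by
    intro c
    rw [← RatFunc.algebraMap_C, hΦ, Polynomial.map_C, RatFunc.algebraMap_C]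
  have hΦX : Φ RatFunc.X = RatFunc.X := by
    rw [← RatFunc.algebraMap_X, hΦ, Polynomial.map_X, RatFunc.algebraMap_X]
  have h1 := h (fun i => Φ (q i)) (by
    intro i
    obtain ⟨B, P, hP⟩ := hq i
    refine ⟨B, P.map τ, ?_⟩
    rw [← hΦ, ← hP, map_mul, map_pow, hΦX]) (by
    intro F hFF
    have h2 := congrArg Φ (hF F hFF)
    rw [map_zero, MvPolynomial.hom_eval₂] at h2
    have h3 : RatFunc.C.comp (τ.comp e) = Φ.comp (RatFunc.C.comp e) := by
      refine RingHom.ext fun x => ?_
      exact (hΦC (e x)).symm
    rw [h3]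
    exact h2) i
  obtain ⟨a, ha⟩ := h1
  obtain ⟨B, P, hP⟩ := hq i
  have h4 : P.map τ = Polynomial.X ^ B * Polynomial.C a := by
    apply RatFunc.algebraMap_injective ℂ
    have h5 := congrArg Φ hP
    rw [map_mul, map_pow, hΦX, hΦ] at h5
    have h6 : Φ (q i) = RatFunc.C a := ha
    rw [← h5, h6, map_mul, map_pow, RatFunc.algebraMap_X, RatFunc.algebraMap_C]
  refine ⟨P.coeff B, ?_⟩
  have h7 : P = Polynomial.X ^ B * Polynomial.C (P.coeff B) := by
    ext m
    rw [Polynomial.coeff_X_pow_mul', Polynomial.coeff_C]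
    have h8 := congrArg (fun Q : Polynomial ℂ => Q.coeff m) h4
    simp only [Polynomial.coeff_map, Polynomial.coeff_X_pow_mul', Polynomial.coeff_C] at h8
    by_cases hm : m = B
    · subst hm
      simp
    · have h9 : (if B ≤ m then if m - B = 0 then P.coeff B else 0 else 0) = 0 := by
        by_cases h10 : B ≤ m
        · rw [if_pos h10, if_neg (by omega)]
        · rw [if_neg h10]
      rw [h9]
      have h11 : (if B ≤ m then if m - B = 0 then a else 0 else 0) = 0 := by
        by_cases h10 : B ≤ m
        · rw [if_pos h10, if_neg (by omega)]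
        · rw [if_neg h10]
      rw [h11] at h8
      exact hτ (h8.trans (map_zero τ).symm)
  have h12 : (RatFunc.X : RatFunc L) ^ B ≠ 0 := pow_ne_zero _ RatFunc.X_ne_zero
  apply mul_left_cancel₀ h12
  rw [hP]
  conv_lhs => rw [h7]
  rw [map_mul, map_pow, RatFunc.algebraMap_X, RatFunc.algebraMap_C]

/-- the algebraic closure of a number field embeds in `ℂ` -/
theorem exists_embedding (K : Type) [Field K] [NumberField K] :
    Nonempty (AlgebraicClosure K →+* ℂ) := by
  have h1 : Nonempty (K →+* ℂ) := inferInstance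
  obtain ⟨σ⟩ := h1
  let _ : Algebra K ℂ := σ.toAlgebra
  exact ⟨(IsAlgClosed.lift : AlgebraicClosure K →ₐ[K] ℂ).toRingHom⟩

/-- the absolute values of the coordinates -/
theorem affVec_bound {K : Type} [NormedField K] (M : Matrix ι (Fin r) K)
    (ρ : A → Matrix.GeneralLinearGroup (Fin r) K)
    (v : Fin r → K) (H : ℝ) (hM : ∀ i j, ‖M i j‖ ≤ H)
    (hρ : ∀ a i j, ‖(ρ a : Matrix (Fin r) (Fin r) K) i j‖ ≤ H) (hv : ∀ j, ‖v j‖ ≤ H)
    (hH : 0 ≤ H) (w : List A) (i : ι) :
    ‖affVec M ρ v w i‖ ≤ (r * H) ^ (w.length + 1) * H := by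
  have hstep : ∀ {κ : Type} (X : Matrix κ (Fin r) K) (y : Fin r → K) (C : ℝ),
      (∀ i j, ‖X i j‖ ≤ H) → (∀ j, ‖y j‖ ≤ C) → ∀ i, ‖X.mulVec y i‖ ≤ r * H * C := by
    intro κ X y C hX hy i
    show ‖∑ j, X i j * y j‖ ≤ _
    calc ‖∑ j, X i j * y j‖ ≤ ∑ j, ‖X i j * y j‖ := norm_sum_le _ _
      _ ≤ ∑ _j : Fin r, H * C := Finset.sum_le_sum fun j _ => by
          rw [norm_mul]
          exact mul_le_mul (hX i j) (hy j) (norm_nonneg _) hH
      _ = r * H * C := by
          rw [Finset.sum_const, Finset.card_univ, Fintype.card_fin, nsmul_eq_mul]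
          ring
  have h1 : ∀ (w : List A) j, ‖((w.map ρ).prod : Matrix (Fin r) (Fin r) K).mulVec v j‖ ≤
      (r * H) ^ w.length * H := by
    intro w
    induction w with
    | nil =>
      intro j
      simpa using hv j
    | cons a w ih =>
      intro j
      rw [List.map_cons, List.prod_cons, Units.val_mul, ← Matrix.mulVec_mulVec]
      refine (hstep _ _ _ (hρ a) ih j).trans (le_of_eq ?_)
      rw [List.length_cons, pow_succ]
      ring
  refine (hstep M _ _ hM (h1 w) i).trans (le_of_eq ?_)
  rw [pow_succ]
  ring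

end Pool.Agent.TH138.LG
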