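import Pool.Agent.TH138.LG.AffG
import Pool.Agent.TH138.LG.AffWords

set_option autoImplicit false

/-!
# Context-free languages of matrix products on affine varieties, outside a hypersurface
-/

namespace Pool.Agent.TH138.LG

open NumberField Pool.Agent.TH717.GO LaurentPolynomial

variable {ι A : Type} {r : ℕ}

/-- the vectors represented by the words of `𝓛` at which `G` does not vanish -/
def affPts {k K : Type} [Field k] [Field K] [Algebra k K] (G : MvPolynomial ι k)
    (M : Matrix ι (Fin r) K) (ρ : A → Matrix.GeneralLinearGroup (Fin r) K)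
    (v : Fin r → K) (𝓛 : Set (List A)) : Set (ι → K) :=
  {x | ∃ w ∈ 𝓛, x = affVec M ρ v w ∧ MvPolynomial.aeval x G ≠ 0}

theorem affPts_finite {k K : Type} [Field k] [Field K] [Algebra k K] [Finite A]
    (G : MvPolynomial ι k) (M : Matrix ι (Fin r) K)
    (ρ : A → Matrix.GeneralLinearGroup (Fin r) K) (v : Fin r → K) (𝓛 : Set (List A)) (B : ℕ) :
    (affPts G M ρ v {w | w ∈ 𝓛 ∧ w.length ≤ B}).Finite := by
  have h1 : {w : List A | w.length < B + 1}.Finite := List.finite_length_lt A (B + 1)
  refine (h1.image (fun w => affVec M ρ v w)).subset ?_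
  rintro x ⟨w, hw, rfl, _⟩
  exact ⟨w, Nat.lt_succ_of_le hw.2, rfl⟩

/-- **Affine points represented by a context-free language, off `G = 0`.** -/
theorem words_affG {k : Type} [Field k] (FF : Set (MvPolynomial ι k)) (G : MvPolynomial ι k)
    (hG : ∀ (L : Type) [Field L] [Algebra k L]
      (c : Fin ((r * r + 1) * (r * r + 1)) → ι → L) (l : Fin ((r * r + 1) * (r * r + 1)) → ℤ),
      (∀ F ∈ FF, MvPolynomial.aeval (curL c l) F = 0) → (∃ i, ∀ a : L, curL c l i ≠ C a) →
      MvPolynomial.aeval (fun i => ∑ j, c j i) G = 0)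
    {K : Type} [Field K] [NumberField K] [Algebra k K]
    {p : ℕ} (hp : p.Prime) (hp3 : 3 ≤ p)
    (M : Matrix ι (Fin r) K) (ρ : A → Matrix.GeneralLinearGroup (Fin r) K)
    (hρ : ∀ a, ρ a ∈ GLp (K := K) hp r) (v : Fin r → K) (g : ContextFreeGrammar A)
    (hX : ∀ w ∈ g.language, ∀ F ∈ FF, MvPolynomial.aeval (affVec M ρ v w) F = 0) :
    affPts G M ρ v g.language = affPts G M ρ v {w | w ∈ g.language ∧ w.length ≤
      width g ^ ((inputs g).card * p ^ (2 * Module.finrank ℚ K * r ^ 2))} := by
  classical
  have hfin := quot_finite (K := K) hp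
  haveI : Fintype (Col K p r) := Fintype.ofFinite _
  obtain ⟨red, hred⟩ := exists_redM (K := K) (r := r) hp
  have hw : ∀ w : List A, (w.map ρ).prod ∈ GLp (K := K) hp r := by
    intro w
    refine Subgroup.list_prod_mem _ ?_
    intro x hx
    obtain ⟨a, _, rfl⟩ := List.mem_map.1 hx
    exact hρ a
  -- the product of matrices
  let P : List A → Matrix (Fin r) (Fin r) K := fun w => ((w.map ρ).prod :
    Matrix (Fin r) (Fin r) K)
  let P' : List A → Matrix (Fin r) (Fin r) K := fun w =>
    (((w.map ρ).prod⁻¹ : Matrix.GeneralLinearGroup (Fin r) K) : Matrix (Fin r) (Fin r) K)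
  have hPmul : ∀ w w', P (w ++ w') = P w * P w' := by
    intro w w'
    show ((((w ++ w').map ρ).prod : Matrix.GeneralLinearGroup (Fin r) K) :
      Matrix (Fin r) (Fin r) K) = _
    rw [List.map_append, List.prod_append, Units.val_mul]
  have hPP' : ∀ w, P w * P' w = 1 := fun w => Units.mul_inv _
  have hP'P : ∀ w, P' w * P w = 1 := fun w => Units.inv_mul _
  have hPi : ∀ w i j, PInt p (P w i j) := fun w => (hw w).1
  have hPi' : ∀ w i j, PInt p (P' w i j) := fun w => (hw w).2
  have hPpow : ∀ w (m : ℕ), P (List.replicate m w).flatten = P w ^ m := by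
    intro w m
    induction m with
    | zero => simp [P]
    | succ m ih =>
      rw [List.replicate_succ, List.flatten_cons, hPmul, ih, pow_succ']
  have hmulp : ∀ X Y : Matrix (Fin r) (Fin r) K, (∀ i j, PInt p (X i j)) →
      (∀ i j, PInt p (Y i j)) → ∀ i j, PInt p ((X * Y) i j) := by
    intro X Y hX hY i j
    rw [Matrix.mul_apply]
    exact PInt.sum hp _ _ fun a _ => (hX i a).mul hp (hY a j)
  have hnegp : ∀ X : Matrix (Fin r) (Fin r) K, (∀ i j, PInt p (X i j)) →
      ∀ i j, PInt p ((-X) i j) := by
    intro X hX i j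
    rw [Matrix.neg_apply]
    exact (hX i j).neg hp
  let c : List A → List A → Col K p r := fun u z => (red (P u), red (P z))
  have key : ∀ (N : ℕ) (w : List A), w.length ≤ N → w ∈ g.language →
      MvPolynomial.aeval (affVec M ρ v w) G ≠ 0 → ∃ w' ∈ g.language,
        w'.length ≤ width g ^ ((inputs g).card * p ^ (2 * Module.finrank ℚ K * r ^ 2)) ∧
        affVec M ρ v w' = affVec M ρ v w := by
    intro N
    induction N with
    | zero =>
      intro w hwN hwg hwG
      exact ⟨w, hwg, by omega, rfl⟩
    | succ N ih =>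
      intro w hwN hwg hwG
      by_cases hlen : w.length ≤ width g ^ ((inputs g).card *
          p ^ (2 * Module.finrank ℚ K * r ^ 2))
      · exact ⟨w, hwg, hlen, rfl⟩
      · obtain ⟨u, a, x, b, z, h1, h2, h3, h4⟩ := pumpingC c hwg (by
          rw [card_col (K := K) (r := r) hp]
          omega)
        obtain ⟨h3u, h3z⟩ := Prod.mk.inj h3
        obtain ⟨D, hD, hDe⟩ := hred _ _ (hPi u) (hPi (u ++ a)) h3u
        obtain ⟨E, hE, hEe⟩ := hred _ _ (hPi z) (hPi (b ++ z)) h3z
        -- the two pumped words are congruent to `1`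
        have eV : P a = 1 + (p : K) • (P' u * D) := by
          calc P a = P' u * (P u * P a) := by rw [← mul_assoc, hP'P, one_mul]
            _ = _ := by
              rw [← hPmul, hDe, mul_add, hP'P, Matrix.mul_smul]
        have eY : P b = 1 + (p : K) • (E * P' z) := by
          calc P b = (P b * P z) * P' z := by rw [mul_assoc, hPP', mul_one]
            _ = _ := by
              rw [← hPmul, hEe, add_mul, hPP', Matrix.smul_mul]
        have eV' : P' a = 1 + (p : K) • (-(P' a * (P' u * D))) := by
          have h5 : P' a * P a = P' a + (p : K) • (P' a * (P' u * D)) := by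
            conv_lhs => rw [eV]
            rw [mul_add, mul_one, Matrix.mul_smul]
          rw [hP'P] at h5
          rw [h5, smul_neg]
          abel
        have eY' : P' b = 1 + (p : K) • (-(P' b * (E * P' z))) := by
          have h5 : P' b * P b = P' b + (p : K) • (P' b * (E * P' z)) := by
            conv_lhs => rw [eY]
            rw [mul_add, mul_one, Matrix.mul_smul]
          rw [hP'P] at h5
          rw [h5, smul_neg]
          abel
        have hvec : ∀ m : ℕ, affVec M ρ v (u ++ (List.replicate m a).flatten ++ x ++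
            (List.replicate m b).flatten ++ z) =
            (M * P u).mulVec ((P a ^ m * P x * P b ^ m).mulVec ((P z).mulVec v)) := by
          intro m
          show M.mulVec ((P _).mulVec v) = _
          rw [hPmul, hPmul, hPmul, hPmul, hPpow, hPpow, Matrix.mulVec_mulVec,
            Matrix.mulVec_mulVec, Matrix.mulVec_mulVec]
          simp only [Matrix.mul_assoc]
        have hw1 : w = u ++ (List.replicate 1 a).flatten ++ x ++
            (List.replicate 1 b).flatten ++ z := by simpa using h1
        have hv1 : affVec M ρ v w =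
            (M * P u).mulVec ((P a * P x * P b).mulVec ((P z).mulVec v)) := by
          have h5 := hvec 1
          rw [← hw1, pow_one, pow_one] at h5
          exact h5
        have hv0 : affVec M ρ v (u ++ x ++ z) =
            (M * P u).mulVec ((P x).mulVec ((P z).mulVec v)) := by
          have h5 := hvec 0
          simpa using h5
        have hmem0 : u ++ x ++ z ∈ g.language := by simpa using h4 0
        have hsand := sandwich_affG hp hp3 FF G hG (M * P u) (P a) (P' a) (P x) (P b) (P' b)
          ((P z).mulVec v) (hP'P a) (hPP' b) (P' u * D) (-(P' a * (P' u * D))) (E * P' z)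
          (-(P' b * (E * P' z))) (hmulp _ _ (hPi' u) hD)
          (hnegp _ (hmulp _ _ (hPi' a) (hmulp _ _ (hPi' u) hD)))
          (hmulp _ _ hE (hPi' z)) (hnegp _ (hmulp _ _ (hPi' b) (hmulp _ _ hE (hPi' z))))
          eV eV' eY eY' (fun m F hF => by
            rw [← hvec m]
            exact hX _ (h4 m) F hF) (by
            rw [← hv1]
            exact hwG)
        rw [← hv1, ← hv0] at hsand
        have hlt : (u ++ x ++ z).length < w.length := by
          rw [h1]
          simp only [List.length_append]
          rcases h2 with h2 | h2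
          · have := List.length_pos_iff.2 h2; omega
          · have := List.length_pos_iff.2 h2; omega
        obtain ⟨w', hw', hw'p, hw'c⟩ := ih _ (by omega) hmem0 (by rw [hsand]; exact hwG)
        exact ⟨w', hw', hw'p, hw'c.trans hsand⟩
  ext x
  constructor
  · rintro ⟨w, hw, rfl, hwG⟩
    obtain ⟨w', hw', hw'p, hc⟩ := key _ w le_rfl hw hwG
    exact ⟨w', ⟨hw', hw'p⟩, hc.symm, hwG⟩
  · rintro ⟨w, hw, rfl, hwG⟩
    exact ⟨w, hw.1, rfl, hwG⟩

theorem specialiseL (k : Type) [Field k] [NumberField k] [Finite ι] (L : Type) [Field L]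
    [Algebra k L] (FF : Set (MvPolynomial ι k)) (c : Fin r → ι → L) (l : Fin r → ℤ)
    (hp : ∀ F ∈ FF, MvPolynomial.aeval (curL c l) F = 0) (hc : ∃ i, ∀ a : L, curL c l i ≠ C a)
    (G : MvPolynomial ι k) (hG : MvPolynomial.aeval (fun i => ∑ j, c j i) G ≠ 0) :
    ∃ (K : Type) (_ : Field K) (_ : NumberField K) (_ : Algebra k K) (c' : Fin r → ι → K),
      (∀ F ∈ FF, MvPolynomial.aeval (curL c' l) F = 0) ∧ (∃ i, ∀ a : K, curL c' l i ≠ C a) ∧
      MvPolynomial.aeval (fun i => ∑ j, c' j i) G ≠ 0 := by
  classical
  have : Fintype ι := Fintype.ofFinite ι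
  obtain ⟨i0, hi0⟩ := hc
  obtain ⟨w, hw0, hw⟩ : ∃ w : ℤ, w ≠ 0 ∧ (curL c l i0).coeff w ≠ 0 := by
    by_contra hcon
    push Not at hcon
    apply hi0 ((curL c l i0).coeff 0)
    refine LaurentPolynomial.ext fun t => ?_
    rw [C_apply]
    by_cases ht : t = 0
    · rw [if_pos ht, ht]
    · rw [if_neg ht, hcon t ht]
  set δ : L := (curL c l i0).coeff w with hδ
  set g : L := MvPolynomial.aeval (fun i => ∑ j, c j i) G with hg
  let S : Finset L := (Finset.univ.image (fun q : Fin r × ι => c q.1 q.2)) ∪ {(g * δ)⁻¹}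
  let R : Subalgebra k L := Algebra.adjoin k (S : Set L)
  have hft : Algebra.FiniteType k R := by
    rw [← Subalgebra.fg_iff_finiteType]
    exact Subalgebra.fg_adjoin_finset S
  have hcR : ∀ (j : Fin r) (i : ι), c j i ∈ R := by
    intro j i
    apply Algebra.subset_adjoin
    simp only [S, Finset.coe_union, Set.mem_union, Finset.mem_coe]
    left
    exact Finset.mem_image.2 ⟨(j, i), Finset.mem_univ _, rfl⟩
  have hinvR : (g * δ)⁻¹ ∈ R := by
    apply Algebra.subset_adjoin
    simp only [S, Finset.coe_union, Set.mem_union, Finset.mem_coe]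
    right
    exact Finset.mem_singleton_self _
  -- the lifted curve
  let cR : Fin r → ι → R := fun j i => ⟨c j i, hcR j i⟩
  have hmap : ∀ {X Y : Type} [CommRing X] [CommRing Y] [Algebra k X] [Algebra k Y]
      (s : X →ₐ[k] Y) (d : Fin r → ι → X) (i : ι),
      AddMonoidAlgebra.mapAlgHom ℤ s (curL d l i) = curL (fun j i => s (d j i)) l i := by
    intro X Y _ _ _ _ s d i
    unfold curL
    rw [map_sum]
    refine Finset.sum_congr rfl fun j _ => ?_
    rw [← single_eq_C_mul_T, ← single_eq_C_mul_T]
    exact AddMonoidAlgebra.mapAlgHom_single _ _ _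
  have hco : ∀ {X Y : Type} [CommRing X] [CommRing Y] [Algebra k X] [Algebra k Y]
      (s : X →ₐ[k] Y) (q : LaurentPolynomial X) (t : ℤ),
      (AddMonoidAlgebra.mapAlgHom ℤ s q).coeff t = s (q.coeff t) := by
    intro X Y _ _ _ _ s q t
    exact AddMonoidAlgebra.coeff_mapAlgHom _ _ _
  have hFs : ∀ {X Y : Type} [CommRing X] [CommRing Y] [Algebra k X] [Algebra k Y]
      (s : X →ₐ[k] Y) (d : Fin r → ι → X) (F : MvPolynomial ι k),
      AddMonoidAlgebra.mapAlgHom ℤ s (MvPolynomial.aeval (curL d l) F) =
        MvPolynomial.aeval (curL (fun j i => s (d j i)) l) F := by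
    intro X Y _ _ _ _ s d F
    have h1 := congrArg (fun f => f F) (MvPolynomial.comp_aeval (R := k) (curL d l)
      (AddMonoidAlgebra.mapAlgHom ℤ s))
    refine Eq.trans h1 ?_
    show MvPolynomial.aeval (fun i => AddMonoidAlgebra.mapAlgHom ℤ s (curL d l i)) F = _
    congr 2
    funext i
    exact hmap s d i
  have hval : (fun j i => R.val (cR j i)) = c := rfl
  have hFc : ∀ F ∈ FF, MvPolynomial.aeval (curL cR l) F = 0 := by
    intro F hF
    refine LaurentPolynomial.ext fun t => ?_
    have h1 := hFs R.val cR F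
    rw [hval, hp F hF] at h1
    have h2 := hco R.val (MvPolynomial.aeval (curL cR l) F) t
    rw [h1] at h2
    have h3 : R.val ((MvPolynomial.aeval (curL cR l) F).coeff t) = R.val 0 := by
      rw [← h2, map_zero]
      rfl
    exact Subtype.val_injective h3
  -- the maximal ideal
  obtain ⟨m, hm⟩ := Ideal.exists_maximal R
  let K : Type := R ⧸ m
  let _ : Field K := Ideal.Quotient.field m
  let φ : R →ₐ[k] K := Ideal.Quotient.mkₐ k m
  have hφ : Function.Surjective φ := Ideal.Quotient.mkₐ_surjective k m
  have : Algebra.FiniteType k K := Algebra.FiniteType.of_surjective φ hφ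
  have : Module.Finite k K := finite_of_finite_type_of_isJacobsonRing k K
  have : NumberField K := NumberField.of_module_finite k K
  -- nonvanishing
  have hgδ : g * δ ≠ 0 := mul_ne_zero hG hw
  let gR : R := MvPolynomial.aeval (fun i => ∑ j, cR j i) G
  have hgR : R.val gR = g := by
    show R.val (MvPolynomial.aeval _ G) = _
    rw [MvPolynomial.comp_aeval_apply, hg]
    congr 2
    funext i
    rw [map_sum]
    rfl
  let δR : R := (curL cR l i0).coeff w
  have hδR : R.val δR = δ := by
    have h1 := hco R.val (curL cR l i0) w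
    rw [hmap, hval] at h1
    exact h1.symm
  have hunit : φ gR * φ δR * φ ⟨(g * δ)⁻¹, hinvR⟩ = 1 := by
    rw [← map_mul, ← map_mul]
    have h1 : gR * δR * ⟨(g * δ)⁻¹, hinvR⟩ = 1 := by
      apply Subtype.val_injective
      show R.val gR * R.val δR * (g * δ)⁻¹ = 1
      rw [hgR, hδR]
      exact mul_inv_cancel₀ hgδ
    rw [h1, map_one]
  have hg0 : φ gR ≠ 0 := by
    intro h
    rw [h, zero_mul, zero_mul] at hunit
    exact zero_ne_one hunit
  have hδ0 : φ δR ≠ 0 := by
    intro h
    rw [h, mul_zero, zero_mul] at hunit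
    exact zero_ne_one hunit
  -- the specialised curve
  refine ⟨K, inferInstance, inferInstance, inferInstance, fun j i => φ (cR j i), ?_, ?_, ?_⟩
  · intro F hF
    rw [← hFs φ cR F, hFc F hF, map_zero]
  · refine ⟨i0, fun a ha => hδ0 ?_⟩
    have h1 := hco φ (curL cR l i0) w
    rw [hmap, ha, C_apply, if_neg hw0] at h1
    exact h1.symm
  · have h1 : MvPolynomial.aeval (fun i => ∑ j, φ (cR j i)) G = φ gR := by
      show _ = φ (MvPolynomial.aeval _ G)
      rw [MvPolynomial.comp_aeval_apply]
      congr 2
      funext i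
      rw [map_sum]
    rw [h1]
    exact hg0

/-- evaluation of Laurent polynomials -/
noncomputable def evL {K : Type} [Field K] (t : Kˣ) : LaurentPolynomial K →+* K :=
  LaurentPolynomial.eval₂ (RingHom.id K) t

theorem evL_C {K : Type} [Field K] (t : Kˣ) (c : K) : evL t (C c) = c := by
  unfold evL
  rw [eval₂_C]
  rfl

theorem evL_T {K : Type} [Field K] (t : Kˣ) (n : ℤ) : evL t (T n) = ((t ^ n : Kˣ) : K) := by
  unfold evL
  rw [eval₂_T]

/-- a nonzero Laurent polynomial has finitely many zeros among the powers of two -/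
theorem evL_finite {K : Type} [Field K] [CharZero K] (f : LaurentPolynomial K) (hf : f ≠ 0)
    (t : ℕ → Kˣ) (ht : ∀ m, ((t m : Kˣ) : K) = 2 ^ m) : {m : ℕ | evL (t m) f = 0}.Finite := by
  classical
  obtain ⟨n, P, hP⟩ := exists_T_pow f
  have hP0 : P ≠ 0 := by
    rintro rfl
    rw [map_zero] at hP
    have h1 : f * T n * T (-n) = 0 := by rw [← hP, zero_mul]
    rw [mul_T_assoc, add_neg_cancel, T_zero, mul_one] at h1
    exact hf h1
  have h2inj : Function.Injective (fun m : ℕ => (2 : K) ^ m) := by
    intro m m' h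
    have h4 : ((2 ^ m : ℕ) : K) = ((2 ^ m' : ℕ) : K) := by push_cast; exact h
    exact Nat.pow_right_injective (le_refl 2) (Nat.cast_injective h4)
  refine Set.Finite.of_finite_image (f := fun m : ℕ => (2 : K) ^ m) ?_ h2inj.injOn
  refine (P.roots.toFinset.finite_toSet).subset ?_
  rintro _ ⟨m, hm, rfl⟩
  rw [Finset.mem_coe, Multiset.mem_toFinset, Polynomial.mem_roots hP0]
  show P.eval ((2 : K) ^ m) = 0
  have h1 := congrArg (evL (t m)) hP
  rw [map_mul] at h1
  have h3 : evL (t m) f = 0 := hm
  rw [h3, zero_mul] at h1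
  have h4 : evL (t m) (Polynomial.toLaurent P) = P.eval ((2 : K) ^ m) := by
    unfold evL
    rw [eval₂_toLaurent, ht]
    rfl
  rw [← h4]
  exact h1

/-- on a variety dominated by images of the multiplicative group the words in one letter can give
infinitely many points off `G = 0` -/
theorem converse_aff {k : Type} [Field k] [NumberField k] [Finite ι]
    (FF : Set (MvPolynomial ι k)) (hu : GmUniruled (Ideal.span FF)) :
    ∃ r : ℕ, ∀ G : MvPolynomial ι k, G ∉ Ideal.span FF →
      ∃ (K : Type) (_ : Field K) (_ : NumberField K) (_ : Algebra k K)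
        (M : Matrix ι (Fin r) K) (ρ : Unit → Matrix.GeneralLinearGroup (Fin r) K)
        (v : Fin r → K) (g : ContextFreeGrammar Unit),
        (∀ w ∈ g.language, ∀ F ∈ FF, MvPolynomial.aeval (affVec M ρ v w) F = 0) ∧
        (affPts G M ρ v g.language).Infinite := by
  classical
  obtain ⟨L, iL, iA, r, c, l, h1, h2, h3⟩ := hu
  refine ⟨r, fun G hG => ?_⟩
  obtain ⟨K, iK, iN, iAK, c', h4, ⟨i0, h5⟩, h6⟩ := specialiseL k L FF c l
    (fun F hF => h1 F (Ideal.subset_span hF)) h3 G (h2 G hG)
  let t : ℕ → Kˣ := fun m => (Units.mk0 (2 : K) two_ne_zero) ^ m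
  have ht : ∀ m, ((t m : Kˣ) : K) = 2 ^ m := fun m => by
    show (((Units.mk0 (2 : K) two_ne_zero) ^ m : Kˣ) : K) = _
    rw [Units.val_pow_eq_pow_val, Units.val_mk0]
  let u : Fin r → Kˣ := fun j => (Units.mk0 (2 : K) two_ne_zero) ^ (l j)
  let D : Matrix.GeneralLinearGroup (Fin r) K :=
    { val := Matrix.diagonal fun j => ((u j : Kˣ) : K)
      inv := Matrix.diagonal fun j => (((u j)⁻¹ : Kˣ) : K)
      val_inv := by
        rw [Matrix.diagonal_mul_diagonal, ← Matrix.diagonal_one]
        congr 1
        funext j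
        exact Units.mul_inv _
      inv_val := by
        rw [Matrix.diagonal_mul_diagonal, ← Matrix.diagonal_one]
        congr 1
        funext j
        exact Units.inv_mul _ }
  let M : Matrix ι (Fin r) K := fun i j => c' j i
  have hval : ∀ w : List Unit, affVec M (fun _ => D) (fun _ => 1) w =
      fun i => evL (t w.length) (curL c' l i) := by
    intro w
    funext i
    have h7 : ((w.map fun _ : Unit => D).prod : Matrix (Fin r) (Fin r) K) =
        Matrix.diagonal fun j => ((u j ^ w.length : Kˣ) : K) := by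
      rw [List.map_const', List.prod_replicate, Units.val_pow_eq_pow_val]
      show (Matrix.diagonal fun j => ((u j : Kˣ) : K)) ^ w.length = _
      rw [Matrix.diagonal_pow]
      congr 1
    unfold affVec
    rw [h7]
    show ∑ j, M i j * ((Matrix.diagonal fun j => ((u j ^ w.length : Kˣ) : K)).mulVec
      fun _ => 1) j = _
    unfold curL
    rw [map_sum]
    refine Finset.sum_congr rfl fun j _ => ?_
    rw [Matrix.mulVec_diagonal, mul_one, map_mul, evL_C, evL_T]
    congr 2
    show ((Units.mk0 (2 : K) two_ne_zero) ^ (l j)) ^ w.length =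
      ((Units.mk0 (2 : K) two_ne_zero) ^ w.length) ^ (l j)
    rw [← zpow_natCast, ← zpow_natCast, ← zpow_mul, ← zpow_mul, mul_comm]
  have hev : ∀ (F : MvPolynomial ι k) (w : List Unit),
      MvPolynomial.aeval (affVec M (fun _ => D) (fun _ => 1) w) F =
        evL (t w.length) (MvPolynomial.aeval (curL c' l) F) := by
    intro F w
    rw [hval, MvPolynomial.aeval_def, MvPolynomial.aeval_def, MvPolynomial.hom_eval₂]
    congr 1
    refine RingHom.ext fun x => ?_
    show _ = evL (t w.length) (algebraMap k (LaurentPolynomial K) x)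
    rw [LaurentPolynomial.algebraMap_apply, evL_C]
  refine ⟨K, iK, iN, iAK, M, fun _ => D, fun _ => 1, allWords Unit, ?_, ?_⟩
  · intro w _ F hF
    rw [hev, h4 F hF, map_zero]
  · rw [language_allWords]
    intro hfin
    have hG0 : MvPolynomial.aeval (curL c' l) G ≠ 0 := by
      intro h
      apply h6
      have h8 := hev G []
      rw [h, map_zero] at h8
      rw [← h8]
      congr 2
      funext i
      rw [hval]
      show _ = evL (t 0) (curL c' l i)
      unfold curL
      rw [map_sum]
      refine Finset.sum_congr rfl fun j _ => ?_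
      rw [map_mul, evL_C, evL_T]
      have ht0 : t 0 = 1 := pow_zero _
      rw [ht0, one_zpow, Units.val_one, mul_one]
    have hbad := evL_finite _ hG0 t ht
    have hcov : Set.univ ⊆ {m : ℕ | evL (t m) (MvPolynomial.aeval (curL c' l) G) = 0} ∪
        ⋃ x ∈ affPts G M (fun _ : Unit => D) (fun _ => 1) (Set.univ : Set (List Unit)),
          {m : ℕ | evL (t m) (curL c' l i0 - C (x i0)) = 0} := by
      intro m _
      by_cases hm : evL (t m) (MvPolynomial.aeval (curL c' l) G) = 0
      · exact Or.inl hm
      · right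
        have hlen : (List.replicate m ()).length = m := List.length_replicate
        simp only [Set.mem_iUnion]
        refine ⟨affVec M (fun _ => D) (fun _ => 1) (List.replicate m ()),
          ⟨_, Set.mem_univ _, rfl, ?_⟩, ?_⟩
        · rw [hev, hlen]; exact hm
        · show evL (t m) (curL c' l i0 - C (affVec M (fun _ => D) (fun _ => 1)
            (List.replicate m ()) i0)) = 0
          rw [map_sub, evL_C, hval, hlen, sub_self]
    apply Set.infinite_univ (α := ℕ)
    refine Set.Finite.subset (hbad.union (Set.Finite.biUnion hfin fun x _ =>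
      evL_finite _ ?_ t ht)) hcov
    intro h
    exact h5 (x i0) (sub_eq_zero.1 h)

end Pool.Agent.TH138.LG
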