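import Pool.Agent.TH138.LG.Words

set_option autoImplicit false

/-!
# Context-free languages of matrix products: converses
-/

namespace Pool.Agent.TH138.LG

open NumberField Pool.Agent.H533R3.SL Pool.Agent.TH717.GO
open scoped LinearAlgebra.Projectivization

variable {n r : ℕ} {A : Type}

/-- every word of the language represents a point of the zero set of `FF` -/
def OnX {k K : Type} [Field k] [Field K] [Algebra k K]
    (FF : Finset (MvPolynomial (Fin (n + 1)) k)) (M : Matrix (Fin (n + 1)) (Fin r) K)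
    (ρ : A → Matrix.GeneralLinearGroup (Fin r) K) (v : Fin r → K) (𝓛 : Set (List A)) : Prop :=
  ∀ w ∈ 𝓛, wordVec M ρ v w ≠ 0 ∧ ∀ F ∈ FF, MvPolynomial.aeval (wordVec M ρ v w) F = 0

/-- the points represented by the words of `𝓛` -/
def langPts {K : Type} [Field K] (M : Matrix (Fin (n + 1)) (Fin r) K)
    (ρ : A → Matrix.GeneralLinearGroup (Fin r) K) (v : Fin r → K) (𝓛 : Set (List A)) :
    Set (ℙ K (Fin (n + 1) → K)) :=
  {P | ∃ w ∈ 𝓛, ∃ h : wordVec M ρ v w ≠ 0, P = Projectivization.mk K (wordVec M ρ v w) h}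

theorem langPts_eq {k K : Type} [Field k] [Field K] [Algebra k K]
    (M : Matrix (Fin (n + 1)) (Fin r) K) (ρ : A → Matrix.GeneralLinearGroup (Fin r) K)
    (v : Fin r → K) (𝓛 : Set (List A)) :
    langPts M ρ v 𝓛 = wordPts (1 : MvPolynomial (Fin (n + 1)) k) M ρ v 𝓛 := by
  ext P
  constructor
  · rintro ⟨w, hw, h, hP⟩
    exact ⟨w, hw, h, hP, by rw [map_one]; exact one_ne_zero⟩
  · rintro ⟨w, hw, h, hP, -⟩
    exact ⟨w, hw, h, hP⟩

/-- on a uniruled variety the words in one letter can give infinitely many points off `G = 0` -/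
theorem converse_words {k : Type} [Field k] [NumberField k]
    (FF : Finset (MvPolynomial (Fin (n + 1)) k))
    (hu : Uniruled (Ideal.span (FF : Set (MvPolynomial (Fin (n + 1)) k)))) :
    ∃ r : ℕ, ∀ G : MvPolynomial (Fin (n + 1)) k, (∃ e, G.IsHomogeneous e) →
      G ∉ Ideal.span (FF : Set (MvPolynomial (Fin (n + 1)) k)) →
      ∃ (K : Type) (_ : Field K) (_ : NumberField K) (_ : Algebra k K)
        (M : Matrix (Fin (n + 1)) (Fin r) K) (ρ : Unit → Matrix.GeneralLinearGroup (Fin r) K)
        (v : Fin r → K) (g : ContextFreeGrammar Unit),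
        OnX FF M ρ v g.language ∧ (wordPts G M ρ v g.language).Infinite := by
  classical
  obtain ⟨L, iL, iA, p, hp1, hp2, hp3⟩ := hu
  set N : ℕ := Finset.univ.sup (fun i => (p i).natDegree) + 1 with hN
  have hNc : ∀ i m, N ≤ m → (p i).coeff m = 0 := by
    intro i m hm
    apply Polynomial.coeff_eq_zero_of_natDegree_lt
    have := Finset.le_sup (f := fun i => (p i).natDegree) (Finset.mem_univ i)
    omega
  refine ⟨N, ?_⟩
  intro G hG1 hG2
  obtain ⟨K, iK, iN, iAK, w, h1, h2, h3⟩ := Pool.Agent.TH409.SH.specialise k L p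
    (FF : Set (MvPolynomial (Fin (n + 1)) k)) (by
      intro F hF
      exact hp1 F (Ideal.subset_span hF)) N hNc hp3 G (hp2 G hG1 hG2)
  obtain ⟨ρ, v, h4, h5⟩ := curve_words (FF : Set (MvPolynomial (Fin (n + 1)) k)) G w h1 h2 h3
  refine ⟨K, iK, iN, iAK, M0 w, ρ, v, allWords Unit, fun l _ => ⟨(h4 l).1, fun F hF =>
    (h4 l).2 F hF⟩, ?_⟩
  rw [language_allWords]
  exact h5

/-- a rational curve over `ℂ` gives an infinite set of points represented by the words in one
letter, over a number field -/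
theorem converse_words_noRat {k : Type} [Field k] [NumberField k] (σ : k →+* ℂ)
    (FF : Finset (MvPolynomial (Fin (n + 1)) k))
    (h : ¬ NoRatC σ (FF : Set (MvPolynomial (Fin (n + 1)) k))) :
    ∃ (r : ℕ) (K : Type) (_ : Field K) (_ : NumberField K) (_ : Algebra k K)
        (M : Matrix (Fin (n + 1)) (Fin r) K) (ρ : Unit → Matrix.GeneralLinearGroup (Fin r) K)
        (v : Fin r → K) (g : ContextFreeGrammar Unit),
        OnX FF M ρ v g.language ∧ (langPts M ρ v g.language).Infinite := by
  classical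
  unfold NoRatC at h
  push Not at h
  obtain ⟨q, hq, i, j, a, b, hab⟩ := h
  let _ : Algebra k ℂ := σ.toAlgebra
  let sh : Polynomial ℂ →+* Polynomial ℂ := Polynomial.compRingHom (Polynomial.X + Polynomial.C (b - 1))
  let p : Fin (n + 1) → Polynomial ℂ := fun i => sh (q i)
  have hpe : ∀ i (t : ℂ), (p i).eval t = (q i).eval (t + (b - 1)) := by
    intro i t
    show ((q i).comp _).eval t = _
    rw [Polynomial.eval_comp, Polynomial.eval_add, Polynomial.eval_X, Polynomial.eval_C]
  have hp : ∀ F ∈ (FF : Set (MvPolynomial (Fin (n + 1)) k)), MvPolynomial.aeval p F = 0 := by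
    intro F hF
    have h1 := congrArg sh (hq F hF)
    rw [map_zero, MvPolynomial.hom_eval₂] at h1
    rw [MvPolynomial.aeval_def]
    have h2 : sh.comp (Polynomial.C.comp σ) = algebraMap k (Polynomial ℂ) := by
      refine RingHom.ext fun x => ?_
      show (Polynomial.C (σ x)).comp _ = _
      rw [Polynomial.C_comp, Polynomial.algebraMap_apply]
      rfl
    rw [← h2]
    exact h1
  set N : ℕ := Finset.univ.sup (fun i => (p i).natDegree) + 1 with hN
  have hNc : ∀ i m, N ≤ m → (p i).coeff m = 0 := by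
    intro i m hm
    apply Polynomial.coeff_eq_zero_of_natDegree_lt
    have := Finset.le_sup (f := fun i => (p i).natDegree) (Finset.mem_univ i)
    omega
  obtain ⟨K, iK, iN, iAK, w, h1, h2, h3⟩ := Pool.Agent.TH409.SH.specialise k ℂ p FF hp N hNc
    ⟨i, j, fun heq => hab (by
      have h4 := congrArg (Polynomial.eval (a - (b - 1))) heq
      rw [Polynomial.eval_mul, Polynomial.eval_mul, Polynomial.eval_C, Polynomial.eval_C, hpe, hpe,
        hpe, hpe] at h4
      simpa using h4)⟩ 1 (by rw [map_one]; exact one_ne_zero)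
  obtain ⟨ρ, v, h4, h5⟩ := curve_words (FF : Set (MvPolynomial (Fin (n + 1)) k)) 1 w h1 h2 h3
  refine ⟨N, K, iK, iN, iAK, M0 w, ρ, v, allWords Unit, fun l _ => ⟨(h4 l).1, fun F hF =>
    (h4 l).2 F hF⟩, ?_⟩
  rw [language_allWords, langPts_eq (k := k)]
  exact h5

end Pool.Agent.TH138.LG
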