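import Pool.Agent.TH138.LG.Sand

set_option autoImplicit false

/-!
# Orbits of one linear map on an affine variety without images of the multiplicative group
-/

namespace Pool.Agent.TH138.LG

open NumberField Pool.Agent.TH717.GO

/-- a Laurent polynomial, as a rational function -/
def IsLaurent {L : Type} [Field L] (q : RatFunc L) : Prop :=
  ∃ (B : ℕ) (P : Polynomial L), RatFunc.X ^ B * q = algebraMap (Polynomial L) (RatFunc L) P

/-- the Laurent polynomial solutions over `L` of the equations `FF` are constant -/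
def NoLaurent {ι R : Type} [CommRing R] (FF : Set (MvPolynomial ι R)) {L : Type} [Field L]
    (e : R →+* L) : Prop :=
  ∀ q : ι → RatFunc L, (∀ i, IsLaurent (q i)) →
    (∀ F ∈ FF, MvPolynomial.eval₂ (RatFunc.C.comp e) q F = 0) → ∀ i, ∃ c : L, q i = RatFunc.C c

/-- an orbit of a linear map on an affine variety without images of the multiplicative group is
constant, if the eigenvalues lie in a torsion-free group -/
theorem aff_core {R ι : Type} [CommRing R] {L : Type} [Field L] [CharZero L] [IsAlgClosed L]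
    (e : R →+* L) (FF : Set (MvPolynomial ι R)) (hno : NoLaurent FF e) {s : ℕ}
    (f : Module.End L (Fin s → L))
    (U : Subgroup Lˣ) (hU : ∀ u ∈ U, ∀ m : ℕ, 0 < m → u ^ m = 1 → u = 1)
    (hfU : ∀ μ : L, f.HasEigenvalue μ → ∃ u ∈ U, (u : L) = μ)
    (ℓ : (Fin s → L) →ₗ[L] (ι → L)) (x : Fin s → L)
    (hF : ∀ F ∈ FF, ∀ m : ℕ, MvPolynomial.eval₂ e (ℓ ((f ^ m) x)) F = 0) (m : ℕ) :
    ℓ ((f ^ m) x) = ℓ x := by
  classical
  let E : Set Lˣ := {u | f.HasEigenvalue (u : L)}
  have hEfin : E.Finite := by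
    have h1 : (Units.val '' E : Set L).Finite := by
      by_contra hinf
      obtain ⟨T, hT, hTc⟩ := Set.Infinite.exists_subset_card_eq hinf (s + 1)
      have h1 := card_le_of_eig f T (by
        intro μ hμ
        obtain ⟨u, hu, rfl⟩ := hT hμ
        exact hu)
      omega
    exact Set.Finite.of_finite_image h1 (fun a _ b _ h => Units.ext h)
  let Λ : Subgroup Lˣ := Subgroup.closure E
  have hΛU : Λ ≤ U := by
    rw [Subgroup.closure_le]
    intro u hu
    obtain ⟨u', hu', h⟩ := hfU (u : L) hu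
    rwa [← Units.ext h]
  have hΛ : ∀ μ : L, f.HasEigenvalue μ → ∃ ν : Λ, ((ν : Lˣ) : L) = μ := by
    intro μ hμ
    obtain ⟨u, hu, rfl⟩ := hfU μ hμ
    exact ⟨⟨u, Subgroup.subset_closure hμ⟩, rfl⟩
  have hfg : Group.FG Λ := by
    rw [Group.fg_iff_subgroup_fg]
    exact ⟨hEfin.toFinset, by rw [Set.Finite.coe_toFinset]⟩
  obtain ⟨S0, hS1, hS2⟩ := seq_rep f Λ hΛ
  let S : Finset Λ := insert 1 S0
  obtain ⟨β, hβ⟩ := exists_beta hfg (fun g m hm h => by
    have h1 := hU g (hΛU g.2) m hm (by
      have := congrArg (Subtype.val : Λ → Lˣ) h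
      simpa using this)
    exact Subtype.ext h1) S
  have hrep : ∀ i : ι, ∃ a : Λ → Polynomial L, (∀ μ ∈ S, (a μ).degree < (s + 1 : ℕ)) ∧
      ∀ m : ℕ, ℓ ((f ^ m) x) i = ∑ μ ∈ S, (a μ).eval (m : L) * ((μ : Lˣ) : L) ^ m := by
    intro i
    obtain ⟨a, ha, hae⟩ := hS2 ((LinearMap.proj i).comp ℓ) x
    refine ⟨fun μ => if μ ∈ S0 then a μ else 0, ?_, ?_⟩
    · intro μ _
      by_cases h : μ ∈ S0
      · simp only [if_pos h]
        exact lt_of_lt_of_le (ha μ h) (by exact_mod_cast Nat.le_succ s)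
      · simp only [if_neg h, Polynomial.degree_zero]
        exact WithBot.bot_lt_coe _
    · intro m
      have h1 : ℓ ((f ^ m) x) i = ∑ μ ∈ S0, (a μ).eval (m : L) * ((μ : Lˣ) : L) ^ m := hae m
      rw [h1]
      refine (Finset.sum_congr rfl fun μ hμ => by simp only [if_pos hμ]).trans
        (Finset.sum_subset (Finset.subset_insert 1 S0) fun μ _ hμ => ?_)
      simp only [if_neg hμ, Polynomial.eval_zero, zero_mul]
  choose a ha hae using hrep
  -- exponents, separated by `s + 1`
  let D : ℕ := s + 1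
  let β' : Λ →* Multiplicative ℤ := (powMonoidHom D).comp β
  have hβ' : ∀ μ, Multiplicative.toAdd (β' μ) = D * Multiplicative.toAdd (β μ) := by
    intro μ
    show Multiplicative.toAdd (β μ ^ D) = _
    rw [toAdd_pow]
    simp
  let B : ℕ := ∑ μ ∈ S, (Multiplicative.toAdd (β' μ)).natAbs
  have hB : ∀ μ ∈ S, 0 ≤ Multiplicative.toAdd (β' μ) + (B : ℤ) := by
    intro μ hμ
    have h1 : (Multiplicative.toAdd (β' μ)).natAbs ≤ B :=
      Finset.single_le_sum (f := fun μ => (Multiplicative.toAdd (β' μ)).natAbs)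
        (fun _ _ => Nat.zero_le _) hμ
    omega
  let b : Λ → ℕ := fun μ => (Multiplicative.toAdd (β' μ) + (B : ℤ)).toNat
  have hb1 : b 1 = B := by
    show (Multiplicative.toAdd (β' 1) + (B : ℤ)).toNat = B
    rw [map_one]
    simp
  have hb : ∀ μ ∈ S, ∀ ν ∈ S, μ ≠ ν → b μ + D ≤ b ν ∨ b ν + D ≤ b μ := by
    intro μ hμ ν hν hne
    have h1 : Multiplicative.toAdd (β μ) ≠ Multiplicative.toAdd (β ν) := fun h =>
      hne (hβ hμ hν (Multiplicative.toAdd.injective h))
    have h2 := Int.toNat_of_nonneg (hB μ hμ)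
    have h3 := Int.toNat_of_nonneg (hB ν hν)
    have h4 : ((b μ : ℕ) : ℤ) = D * Multiplicative.toAdd (β μ) + B := by
      rw [← hβ']; exact h2
    have h5 : ((b ν : ℕ) : ℤ) = D * Multiplicative.toAdd (β ν) + B := by
      rw [← hβ']; exact h3
    rcases lt_or_gt_of_ne h1 with h | h
    · left
      have h6 : (D : ℤ) * (Multiplicative.toAdd (β μ) + 1) ≤ D * Multiplicative.toAdd (β ν) :=
        mul_le_mul_of_nonneg_left (by omega) (by positivity)
      zify
      rw [h4, h5]
      linarith
    · right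
      have h6 : (D : ℤ) * (Multiplicative.toAdd (β ν) + 1) ≤ D * Multiplicative.toAdd (β μ) :=
        mul_le_mul_of_nonneg_left (by omega) (by positivity)
      zify
      rw [h4, h5]
      linarith
  -- the exponential polynomials satisfy the equations
  let f0 : R →+* EP Λ := (MonoidAlgebra.singleOneRingHom (R := Polynomial L) (M := Λ)).comp
    (Polynomial.C.comp e)
  have h0 : ∀ F ∈ FF, MvPolynomial.eval₂ f0 (fun i => mk Λ S (a i)) F = 0 := by
    intro F hFF
    apply ev_injective Λ
    rw [map_zero]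
    funext m
    have h1 := hF F hFF m
    let evm : EP Λ →+* L := (Pi.evalRingHom (fun _ : ℕ => L) m).comp (ev Λ)
    have h2 : evm (MvPolynomial.eval₂ f0 (fun i => mk Λ S (a i)) F) = 0 := by
      rw [MvPolynomial.hom_eval₂]
      have h3 : evm.comp f0 = e := by
        refine RingHom.ext fun x => ?_
        show ev Λ (MonoidAlgebra.single 1 (Polynomial.C (e x))) m = _
        rw [ev_single, Polynomial.eval_C]
        simp
      have h4 : (fun i => evm (mk Λ S (a i))) = ℓ ((f ^ m) x) := by
        funext i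
        show ev Λ (mk Λ S (a i)) m = _
        rw [ev_mk, hae i m]
      rw [h3, h4]
      exact h1
    exact h2
  have hdC : ∀ c : L, dn L (Polynomial.C c) = Polynomial.C c := fun c => by
    show (Polynomial.C c).comp _ = _
    rw [Polynomial.C_comp]
  have h5 : RatFunc.C.comp e = (phi Λ β').comp f0 := by
    refine RingHom.ext fun x => ?_
    show RatFunc.C (e x) = phi Λ β' (MonoidAlgebra.single 1 (Polynomial.C (e x)))
    rw [phi_single, map_one, toAdd_one, zpow_zero, mul_one, hdC, RatFunc.algebraMap_C]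
  have hq := hno (fun i => phi Λ β' (mk Λ S (a i)))
    (fun i => ⟨B, _, (phi_mk Λ β' B S hB (a i)).symm⟩) (by
      intro F hFF
      have h7 := congrArg (phi Λ β') (h0 F hFF)
      rw [MvPolynomial.hom_eval₂, map_zero] at h7
      rw [h5]
      exact h7)
  have hkey : ∀ i, ∃ c : L, ∀ m : ℕ, ℓ ((f ^ m) x) i = c := by
    intro i
    obtain ⟨c, hc⟩ := hq i
    refine ⟨c, fun m => ?_⟩
    have h8 := phi_mk Λ β' B S hB (a i)
    rw [hc, ← RatFunc.algebraMap_C, ← RatFunc.algebraMap_X, ← map_pow, ← map_mul] at h8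
    have h9 : crv S b (a i) = Polynomial.X ^ B * Polynomial.C c :=
      RatFunc.algebraMap_injective L h8
    let d : Λ → Polynomial L := fun μ => a i μ - if μ = 1 then Polynomial.C c else 0
    have hd0 : crv S b d = 0 := by
      have h10 : crv S b d = crv S b (a i) - Polynomial.C c * Polynomial.X ^ (b 1) := by
        unfold crv
        rw [← Finset.sum_erase_add S _ (Finset.mem_insert_self 1 S0),
          ← Finset.sum_erase_add S (fun μ => dn L (a i μ) * Polynomial.X ^ b μ)
            (Finset.mem_insert_self 1 S0)]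
        have h11 : ∀ μ ∈ S.erase 1, dn L (d μ) * Polynomial.X ^ b μ =
            dn L (a i μ) * Polynomial.X ^ b μ := by
          intro μ hμ
          have : d μ = a i μ := by
            show a i μ - (if μ = 1 then Polynomial.C c else 0) = _
            rw [if_neg (Finset.ne_of_mem_erase hμ), sub_zero]
          rw [this]
        rw [Finset.sum_congr rfl h11]
        have h12 : d 1 = a i 1 - Polynomial.C c := by
          show a i 1 - (if (1 : Λ) = 1 then Polynomial.C c else 0) = _
          rw [if_pos rfl]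
        rw [h12, map_sub, hdC]
        ring
      rw [h10, h9, hb1]
      ring
    have hddeg : ∀ μ ∈ S, (d μ).degree < (D : ℕ) := by
      intro μ hμ
      show (a i μ - if μ = 1 then Polynomial.C c else 0).degree < _
      refine lt_of_le_of_lt (Polynomial.degree_sub_le _ _) (max_lt (ha i μ hμ) ?_)
      split_ifs
      · refine lt_of_le_of_lt Polynomial.degree_C_le ?_
        exact_mod_cast Nat.succ_pos s
      · rw [Polynomial.degree_zero]
        exact WithBot.bot_lt_coe _
    have hd := crv_sep S b D hb d hddeg hd0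
    have h13 : ∀ μ ∈ S, a i μ = if μ = 1 then Polynomial.C c else 0 := fun μ hμ =>
      sub_eq_zero.1 (hd μ hμ)
    rw [hae i m, Finset.sum_eq_single (1 : Λ)]
    · rw [h13 1 (Finset.mem_insert_self 1 S0), if_pos rfl, Polynomial.eval_C]
      simp
    · intro μ hμ hne
      rw [h13 μ hμ, if_neg hne, Polynomial.eval_zero, zero_mul]
    · intro h
      exact absurd (Finset.mem_insert_self 1 S0) h
  funext i
  obtain ⟨c, hc⟩ := hkey i
  have h14 := hc 0
  rw [pow_zero, Module.End.one_apply] at h14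
  rw [hc m, h14]

/-- the linear map `N ↦ M N v` -/
def sl' {ι L : Type} [Field L] {r : ℕ} (M : Matrix ι (Fin r) L) (v : Fin r → L) :
    (Fin (r * r) → L) →ₗ[L] (ι → L) where
  toFun y := M.mulVec ((Matrix.of fun i j => y (finProdFinEquiv (i, j))).mulVec v)
  map_add' x y := by
    rw [← Matrix.mulVec_add, ← Matrix.add_mulVec]
    rfl
  map_smul' a y := by
    rw [RingHom.id_apply, ← Matrix.mulVec_smul, ← Matrix.smul_mulVec]
    rfl

theorem sl'_vec {ι L : Type} [Field L] {r : ℕ} (M : Matrix ι (Fin r) L) (v : Fin r → L)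
    (N : Matrix (Fin r) (Fin r) L) : sl' M v (vec N) = M.mulVec (N.mulVec v) := by
  show M.mulVec ((Matrix.of fun i j => vec N (finProdFinEquiv (i, j))).mulVec v) = _
  have : (Matrix.of fun i j => vec N (finProdFinEquiv (i, j))) = N := by
    ext i j
    simp [vec]
  rw [this]

/-- **Two-sided pumping on affine varieties** -/
theorem sandwich_aff {R ι : Type} [CommRing R] {p r : ℕ} (hp : p.Prime) (hp3 : 3 ≤ p)
    {K : Type} [Field K] [CharZero K] (e : R →+* K) (FF : Set (MvPolynomial ι R))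
    (hno : NoLaurent FF ((algebraMap K (AlgebraicClosure K)).comp e))
    (M : Matrix ι (Fin r) K)
    (V V' N Y Y' : Matrix (Fin r) (Fin r) K) (v : Fin r → K) (hV : V' * V = 1) (hY : Y * Y' = 1)
    (B B' C C' : Matrix (Fin r) (Fin r) K) (hB : ∀ i j, PInt p (B i j))
    (hB' : ∀ i j, PInt p (B' i j)) (hC : ∀ i j, PInt p (C i j)) (hC' : ∀ i j, PInt p (C' i j))
    (eV : V = 1 + (p : K) • B) (eV' : V' = 1 + (p : K) • B') (eY : Y = 1 + (p : K) • C)
    (eY' : Y' = 1 + (p : K) • C')
    (hX : ∀ m : ℕ, ∀ F ∈ FF,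
      MvPolynomial.eval₂ e (M.mulVec ((V ^ m * N * Y ^ m).mulVec v)) F = 0) :
    M.mulVec ((V * N * Y).mulVec v) = M.mulVec (N.mulVec v) := by
  classical
  let L := AlgebraicClosure K
  let φ : K →+* L := algebraMap K L
  have hφ : Function.Injective φ := (algebraMap K L).injective
  have hmap : ∀ C : Matrix (Fin r) (Fin r) K, ((1 : Matrix (Fin r) (Fin r) K) + (p : K) • C).map φ =
      1 + (p : L) • C.map φ := by
    intro C
    have h1 : ((1 : Matrix (Fin r) (Fin r) K) + (p : K) • C).map φ =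
        φ.mapMatrix (1 + (p : K) • C) := rfl
    rw [h1, map_add, map_one]
    congr 1
    ext a b
    simp
  have hKK : Kr (V'.map φ) (Y'.map φ) * Kr (V.map φ) (Y.map φ) = 1 := by
    rw [Kr_mul, ← Matrix.map_mul, ← Matrix.map_mul, hV, hY,
      Matrix.map_one φ (map_zero φ) (map_one φ), Kr_one]
  have heig := fun μ hμ => eig_mem_UU (L := L) hp (Kr (V.map φ) (Y.map φ))
    (Kr (V'.map φ) (Y'.map φ)) (KB (p : L) (B.map φ) (C.map φ)) (KB (p : L) (B'.map φ) (C'.map φ))
    hKK (by rw [eV, eY, hmap, hmap, Kr_add]) (by rw [eV', eY', hmap, hmap, Kr_add])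
    (KB_pint hp (fun i j => (hB i j).map φ) (fun i j => (hC i j).map φ))
    (KB_pint hp (fun i j => (hB' i j).map φ) (fun i j => (hC' i j).map φ)) μ hμ
  have hpow : ∀ C : Matrix (Fin r) (Fin r) K, ∀ m : ℕ, (C.map φ) ^ m = (C ^ m).map φ := by
    intro C m
    have h1 : C.map φ = φ.mapMatrix C := rfl
    rw [h1, ← map_pow]
    rfl
  have hseq : ∀ m : ℕ, sl' (M.map φ) (φ ∘ v)
      (((Matrix.toLinAlgEquiv' (Kr (V.map φ) (Y.map φ))) ^ m) (vec (N.map φ))) =
      fun i => φ (M.mulVec ((V ^ m * N * Y ^ m).mulVec v) i) := by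
    intro m
    rw [← map_pow, Matrix.toLinAlgEquiv'_apply, Kr_pow, sl'_vec, hpow, hpow, ← Matrix.map_mul,
      ← Matrix.map_mul]
    have h1 : ((V ^ m * N * Y ^ m).map φ).mulVec (φ ∘ v) =
        φ ∘ ((V ^ m * N * Y ^ m).mulVec v) := by
      funext i
      exact (RingHom.map_mulVec φ _ v i).symm
    rw [h1]
    funext i
    exact (RingHom.map_mulVec φ _ _ i).symm
  have hfin := aff_core (φ.comp e) FF hno (Matrix.toLinAlgEquiv' (Kr (V.map φ) (Y.map φ)))
    (UU hp L) (UU_torsionFree hp hp3) heig (sl' (M.map φ) (φ ∘ v)) (vec (N.map φ)) (by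
      intro F hF m
      rw [hseq m]
      have h1 := congrArg φ (hX m F hF)
      rw [map_zero, MvPolynomial.hom_eval₂] at h1
      exact h1)
  have h1 := hfin 1
  have h0 := hfin 0
  rw [hseq 1] at h1
  rw [← h0, hseq 0] at h1
  funext i
  have h2 := congrFun h1 i
  have h3 := hφ h2
  simpa using h3

end Pool.Agent.TH138.LG
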