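import Mathlib

set_option autoImplicit false

/-!
# Images of the multiplicative group with `r` terms in an affine variety
-/

namespace Pool.Agent.TH138.LG

open Finset LaurentPolynomial

variable {ι : Type} {r : ℕ}

/-- the curve `T ↦ ∑ c j T ^ (l j)`, a vector of Laurent polynomials in one variable -/
noncomputable def curL {R : Type} [CommRing R] (c : Fin r → ι → R) (l : Fin r → ℤ) (i : ι) :
    LaurentPolynomial R :=
  ∑ j, C (c j i) * T (l j)

/-- The affine variety over `k` with prime ideal `I` is dominated by images of the multiplicative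
group: over some extension field `L` of `k` there is a nonconstant vector of Laurent polynomials
`T ↦ ∑ c j T ^ (l j)` with values in the variety, whose value `∑ c j` at `1` is a generic point of
the variety over `k`. -/
def GmUniruled {k : Type} [Field k] (I : Ideal (MvPolynomial ι k)) : Prop :=
  ∃ (L : Type) (_ : Field L) (_ : Algebra k L) (r : ℕ) (c : Fin r → ι → L) (l : Fin r → ℤ),
    (∀ F ∈ I, MvPolynomial.aeval (curL c l) F = 0) ∧
    (∀ G : MvPolynomial ι k, G ∉ I → MvPolynomial.aeval (fun i => ∑ j, c j i) G ≠ 0) ∧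
    ∃ i, ∀ a : L, curL c l i ≠ C a

theorem coeff_sum_CT {R κ : Type} [CommRing R] (S : Finset κ) (g : κ → R) (e : κ → ℤ) (w : ℤ) :
    (∑ a ∈ S, (C (g a) * T (e a) : LaurentPolynomial R)).coeff w =
      ∑ a ∈ S, if e a = w then g a else 0 := by
  rw [AddMonoidAlgebra.coeff_sum, Finsupp.finsetSum_apply]
  refine Finset.sum_congr rfl fun a _ => ?_
  rw [← single_eq_C_mul_T, AddMonoidAlgebra.coeff_single, Finsupp.single_apply]

theorem transfer_sumL {R κ : Type} [CommRing R] (S : Finset κ) (g : κ → R)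
    (e e' : κ → ℤ) (h : ∀ a ∈ S, ∀ b ∈ S, e a = e b → e' a = e' b)
    (h0 : ∑ a ∈ S, (C (g a) * T (e a) : LaurentPolynomial R) = 0) :
    ∑ a ∈ S, (C (g a) * T (e' a) : LaurentPolynomial R) = 0 := by
  classical
  let φ : ℤ → ℤ := fun w => if h : ∃ a ∈ S, e a = w then e' h.choose else 0
  have hφ : ∀ a ∈ S, φ (e a) = e' a := by
    intro a ha
    have hex : ∃ b ∈ S, e b = e a := ⟨a, ha, rfl⟩
    simp only [φ, dif_pos hex]
    exact h _ hex.choose_spec.1 _ ha hex.choose_spec.2
  have h1 : ∀ w : ℤ, ∑ a ∈ S with e a = w, g a = 0 := by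
    intro w
    have h2 := coeff_sum_CT S g e w
    rw [h0] at h2
    rw [Finset.sum_filter, ← h2]
    rfl
  rw [← Finset.sum_fiberwise_of_maps_to (g := e) (t := S.image e)
    (fun a ha => Finset.mem_image_of_mem _ ha)]
  refine Finset.sum_eq_zero fun w _ => ?_
  have h3 : ∀ a ∈ S.filter (fun a => e a = w), (C (g a) * T (e' a) : LaurentPolynomial R) =
      C (g a) * T (φ w) := by
    intro a ha
    obtain ⟨ha1, ha2⟩ := Finset.mem_filter.1 ha
    rw [← hφ a ha1, ha2]
  rw [Finset.sum_congr rfl h3, ← Finset.sum_mul, ← map_sum, h1 w, map_zero, zero_mul]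

/-- `F (∑ c j U_j)` -/
noncomputable def GUa {k L : Type} [Field k] [Field L] [Algebra k L]
    (c : Fin r → ι → L) (F : MvPolynomial ι k) : MvPolynomial (Fin r) L :=
  MvPolynomial.aeval (fun i => ∑ j, MvPolynomial.C (c j i) * MvPolynomial.X j) F

theorem prod_T {R : Type} [CommRing R] (S : Finset (Fin r)) (a : Fin r → ℤ) :
    ∏ j ∈ S, (T (a j) : LaurentPolynomial R) = T (∑ j ∈ S, a j) := by
  classical
  induction S using Finset.induction_on with
  | empty => simp
  | insert j S hj ih => rw [Finset.prod_insert hj, Finset.sum_insert hj, ih, T_add]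

theorem aeval_curL {k L : Type} [Field k] [Field L] [Algebra k L]
    (c : Fin r → ι → L) (l : Fin r → ℤ) (F : MvPolynomial ι k) :
    MvPolynomial.aeval (curL c l) F =
      ∑ α ∈ (GUa c F).support, C (MvPolynomial.coeff α (GUa c F)) *
        T (∑ j, (α j : ℤ) * l j) := by
  have h1 : MvPolynomial.aeval (curL c l) F =
      (MvPolynomial.aeval (fun j => (T (l j) : LaurentPolynomial L)) :
        MvPolynomial (Fin r) L →ₐ[L] LaurentPolynomial L) (GUa c F) := by
    have h2 := MvPolynomial.comp_aeval (R := k)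
      (fun i => ∑ j, MvPolynomial.C (c j i) * MvPolynomial.X j : ι → MvPolynomial (Fin r) L)
      ((MvPolynomial.aeval (fun j => (T (l j) : LaurentPolynomial L)) :
        MvPolynomial (Fin r) L →ₐ[L] LaurentPolynomial L).restrictScalars k)
    have h3 := congrArg (fun f => f F) h2
    have h4 : MvPolynomial.aeval (R := k) (fun i => ((MvPolynomial.aeval
        (fun j => (T (l j) : LaurentPolynomial L)) :
        MvPolynomial (Fin r) L →ₐ[L] LaurentPolynomial L).restrictScalars k)
        (∑ j, MvPolynomial.C (c j i) * MvPolynomial.X j)) F =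
        MvPolynomial.aeval (curL c l) F := by
      congr 2
      funext i
      unfold curL
      rw [map_sum]
      refine Finset.sum_congr rfl fun j _ => ?_
      rw [map_mul]
      congr 1
      · show MvPolynomial.aeval _ (MvPolynomial.C (c j i)) = _
        rw [MvPolynomial.aeval_C]
        rfl
      · show MvPolynomial.aeval _ (MvPolynomial.X j) = _
        rw [MvPolynomial.aeval_X]
    rw [← h4]
    exact h3.symm
  rw [h1, MvPolynomial.aeval_def, MvPolynomial.eval₂_eq']
  refine Finset.sum_congr rfl fun α _ => ?_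
  congr 1
  rw [← prod_T]
  refine Finset.prod_congr rfl fun j _ => ?_
  rw [T_pow]

theorem GUa_deg {k L : Type} [Field k] [Field L] [Algebra k L]
    (c : Fin r → ι → L) (F : MvPolynomial ι k) (α : Fin r →₀ ℕ)
    (hα : α ∈ (GUa c F).support) (j : Fin r) : α j ≤ F.totalDegree := by
  classical
  have hlin : ∀ i : ι, (∑ j, MvPolynomial.C (c j i) * MvPolynomial.X j :
      MvPolynomial (Fin r) L).totalDegree ≤ 1 := by
    intro i
    refine MvPolynomial.totalDegree_finsetSum_le fun j _ => ?_
    refine (MvPolynomial.totalDegree_mul _ _).trans ?_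
    rw [MvPolynomial.totalDegree_C, zero_add]
    exact (MvPolynomial.totalDegree_X _).le
  have h1 : (GUa c F).totalDegree ≤ F.totalDegree := by
    unfold GUa
    rw [MvPolynomial.aeval_def, MvPolynomial.eval₂_eq]
    refine MvPolynomial.totalDegree_finsetSum_le fun d hd => ?_
    refine (MvPolynomial.totalDegree_mul _ _).trans ?_
    have h2 : (algebraMap k (MvPolynomial (Fin r) L) (MvPolynomial.coeff d F)).totalDegree = 0 :=
      MvPolynomial.totalDegree_C _
    rw [h2, zero_add]
    refine (MvPolynomial.totalDegree_finsetProd _ _).trans ?_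
    refine le_trans (Finset.sum_le_sum fun i _ => (MvPolynomial.totalDegree_pow _ _).trans
      (Nat.mul_le_mul_left _ (hlin i))) ?_
    simp only [mul_one]
    exact MvPolynomial.le_totalDegree hd
  have h3 := MvPolynomial.le_totalDegree hα
  have h4 : α j ≤ α.sum fun _ e => e := by
    rw [Finsupp.sum_fintype _ _ (by simp)]
    exact Finset.single_le_sum (f := fun j => α j) (fun _ _ => Nat.zero_le _) (Finset.mem_univ j)
  exact h4.trans (h3.trans h1)

/-- the coincidences of the exponents of the monomials of degree at most `D` in each variable -/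
def patL (D : ℕ) (l : Fin r → ℤ) : Set ((Fin r → Fin (D + 1)) × (Fin r → Fin (D + 1))) :=
  {p | ∑ j, ((p.1 j : ℕ) : ℤ) * l j = ∑ j, ((p.2 j : ℕ) : ℤ) * l j}

theorem patL_imp (D : ℕ) (l l' : Fin r → ℤ) (h : patL D l = patL D l') (α β : Fin r → ℕ)
    (hα : ∀ j, α j ≤ D) (hβ : ∀ j, β j ≤ D)
    (he : ∑ j, (α j : ℤ) * l j = ∑ j, (β j : ℤ) * l j) :
    ∑ j, (α j : ℤ) * l' j = ∑ j, (β j : ℤ) * l' j := by
  have h1 : ((fun j => ⟨α j, Nat.lt_succ_of_le (hα j)⟩,
      fun j => ⟨β j, Nat.lt_succ_of_le (hβ j)⟩) :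
      (Fin r → Fin (D + 1)) × (Fin r → Fin (D + 1))) ∈ patL D l := he
  rw [h] at h1
  exact h1

theorem patL_eq (D : ℕ) (hD : 1 ≤ D) (l l' : Fin r → ℤ) (h : patL D l = patL D l')
    (a b : Fin r) (he : l a = l b) : l' a = l' b := by
  classical
  have h1 := patL_imp D l l' h (fun j => if j = a then 1 else 0) (fun j => if j = b then 1 else 0)
    (fun j => by split_ifs <;> omega) (fun j => by split_ifs <;> omega) (by simpa using he)
  simpa using h1

theorem patL_zero (D : ℕ) (hD : 1 ≤ D) (l l' : Fin r → ℤ) (h : patL D l = patL D l')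
    (a : Fin r) (he : l a = 0) : l' a = 0 := by
  classical
  have h1 := patL_imp D l l' h (fun j => if j = a then 1 else 0) (fun _ => 0)
    (fun j => by split_ifs <;> omega) (fun j => by omega) (by simpa using he)
  simpa using h1

theorem curL_zero_transfer {k L : Type} [Field k] [Field L] [Algebra k L] (D : ℕ)
    (l l' : Fin r → ℤ) (h : patL D l = patL D l')
    (c : Fin r → ι → L) (F : MvPolynomial ι k) (hF : F.totalDegree ≤ D)
    (h0 : MvPolynomial.aeval (curL c l) F = 0) :
    MvPolynomial.aeval (curL c l') F = 0 := by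
  rw [aeval_curL] at h0 ⊢
  refine transfer_sumL _ _ (fun α : Fin r →₀ ℕ => ∑ j, (α j : ℤ) * l j) _ ?_ h0
  intro α hα β hβ hab
  exact patL_imp D l l' h α β (fun j => (GUa_deg c F α hα j).trans hF)
    (fun j => (GUa_deg c F β hβ j).trans hF) hab

theorem coeff_curL {R : Type} [CommRing R] (c : Fin r → ι → R) (l : Fin r → ℤ) (i : ι) (w : ℤ) :
    (curL c l i).coeff w = ∑ j, if l j = w then c j i else 0 := by
  unfold curL
  exact coeff_sum_CT _ _ _ _

/-- for a fixed vector of exponents, the nonconstant curves lie in a hypersurface -/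
theorem exists_Ga {k : Type} [Field k] (FF : Set (MvPolynomial ι k))
    (hprime : (Ideal.span FF).IsPrime) (hnu : ¬ GmUniruled (Ideal.span FF)) (l : Fin r → ℤ)
    (i : ι) (w : ℤ) (hw : w ≠ 0) :
    ∃ G : MvPolynomial ι k, G ∉ Ideal.span FF ∧
      ∀ (L : Type) [Field L] [Algebra k L] (c : Fin r → ι → L),
        (∀ F ∈ FF, MvPolynomial.aeval (curL c l) F = 0) →
        (curL c l i).coeff w ≠ 0 → MvPolynomial.aeval (fun i => ∑ j, c j i) G = 0 := by
  classical
  by_contra hcon
  push Not at hcon
  let R : Type := MvPolynomial (Fin r × ι) k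
  let ct : Fin r → ι → R := fun j i => MvPolynomial.X (j, i)
  let xt : ι → R := fun i => ∑ j, ct j i
  let N : R := (curL ct l i).coeff w
  let J : Ideal R := Ideal.span
    {a | ∃ F ∈ FF, ∃ t : ℤ, a = (MvPolynomial.aeval (curL ct l) F).coeff t}
  -- specialisation
  have hcur : ∀ (L : Type) [Field L] [Algebra k L] (s : R →ₐ[k] L) (i : ι),
      AddMonoidAlgebra.mapAlgHom ℤ s (curL ct l i) = curL (fun j i => s (ct j i)) l i := by
    intro L _ _ s i
    unfold curL
    rw [map_sum]
    refine Finset.sum_congr rfl fun j _ => ?_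
    rw [← single_eq_C_mul_T, ← single_eq_C_mul_T]
    exact AddMonoidAlgebra.mapAlgHom_single _ _ _
  have hco : ∀ (L : Type) [Field L] [Algebra k L] (s : R →ₐ[k] L)
      (q : LaurentPolynomial R) (t : ℤ),
      (AddMonoidAlgebra.mapAlgHom ℤ s q).coeff t = s (q.coeff t) := by
    intro L _ _ s q t
    exact AddMonoidAlgebra.coeff_mapAlgHom _ _ _
  have hFs : ∀ (L : Type) [Field L] [Algebra k L] (s : R →ₐ[k] L)
      (F : MvPolynomial ι k),
      AddMonoidAlgebra.mapAlgHom ℤ s (MvPolynomial.aeval (curL ct l) F) =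
        MvPolynomial.aeval (curL (fun j i => s (ct j i)) l) F := by
    intro L _ _ s F
    have h1 := congrArg (fun f => f F) (MvPolynomial.comp_aeval (R := k) (curL ct l)
      (AddMonoidAlgebra.mapAlgHom ℤ s))
    refine Eq.trans h1 ?_
    show MvPolynomial.aeval (fun i => AddMonoidAlgebra.mapAlgHom ℤ s (curL ct l i)) F = _
    congr 2
    funext i
    exact hcur L s i
  have hxs : ∀ (L : Type) [Field L] [Algebra k L] (s : R →ₐ[k] L)
      (G : MvPolynomial ι k),
      s (MvPolynomial.aeval xt G) =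
        MvPolynomial.aeval (fun i => ∑ j, (fun j i => s (ct j i)) j i) G := by
    intro L _ _ s G
    have h1 := congrArg (fun f => f G) (MvPolynomial.comp_aeval (R := k) xt s)
    refine Eq.trans h1 ?_
    show MvPolynomial.aeval (fun i => s (xt i)) G = _
    congr 2
    funext i
    simp only [xt, map_sum]
  have hNs : ∀ (L : Type) [Field L] [Algebra k L] (s : R →ₐ[k] L),
      s N = (curL (fun j i => s (ct j i)) l i).coeff w := by
    intro L _ _ s
    rw [← hcur L s i]
    exact (hco L s _ w).symm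
  have h1I : (1 : MvPolynomial ι k) ∉ Ideal.span FF := by
    intro h
    exact hprime.ne_top ((Ideal.eq_top_iff_one _).2 h)
  let M : Submonoid R :=
    { carrier := {a | ∃ (G : MvPolynomial ι k) (t : ℕ),
        G ∉ Ideal.span FF ∧ a = MvPolynomial.aeval xt G * N ^ t}
      one_mem' := ⟨1, 0, h1I, by simp⟩
      mul_mem' := by
        rintro a b ⟨G, t, hG, rfl⟩ ⟨G', t', hG', rfl⟩
        refine ⟨G * G', t + t', ?_, ?_⟩
        · intro h
          rcases hprime.mem_or_mem h with h | h
          · exact hG h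
          · exact hG' h
        · rw [map_mul, pow_add]
          ring }
  have hdisj : Disjoint (J : Set R) M := by
    rw [Set.disjoint_left]
    rintro a haJ ⟨G, t, hGI, rfl⟩
    obtain ⟨L, iL, iA, c, hz, hN, hG⟩ := hcon G hGI
    let s : R →ₐ[k] L := MvPolynomial.aeval (fun q : Fin r × ι => c q.1 q.2)
    have hsc : (fun j i => s (ct j i)) = c := by
      funext j i
      exact MvPolynomial.aeval_X (fun q : Fin r × ι => c q.1 q.2) (j, i)
    have hJ : J ≤ RingHom.ker s.toRingHom := by
      rw [Ideal.span_le]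
      rintro _ ⟨F, hF, t, rfl⟩
      show s _ = 0
      have h1 := hFs L s F
      rw [hsc, hz F hF] at h1
      rw [← hco L s, h1]
      rfl
    have h2 : s (MvPolynomial.aeval xt G * N ^ t) = 0 := hJ haJ
    rw [map_mul, map_pow, hxs, hNs, hsc] at h2
    exact mul_ne_zero hG (pow_ne_zero _ hN) h2
  obtain ⟨P, hP, hJP, hPM⟩ := Ideal.exists_le_prime_disjoint J M hdisj
  let L : Type := FractionRing (R ⧸ P)
  let s : R →ₐ[k] L := (IsScalarTower.toAlgHom k (R ⧸ P) (FractionRing (R ⧸ P))).comp
    (Ideal.Quotient.mkₐ k P)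
  have hs0 : ∀ a : R, s a = 0 ↔ a ∈ P := by
    intro a
    show algebraMap (R ⧸ P) (FractionRing (R ⧸ P)) (Ideal.Quotient.mk P a) = 0 ↔ _
    rw [FaithfulSMul.algebraMap_eq_zero_iff, Ideal.Quotient.eq_zero_iff_mem]
  apply hnu
  refine ⟨L, inferInstance, inferInstance, r, fun j i => s (ct j i), l, ?_, ?_, i, ?_⟩
  · have hI : Ideal.span FF ≤ RingHom.ker
        (MvPolynomial.aeval (R := k) (curL (fun j i => s (ct j i)) l)).toRingHom := by
      rw [Ideal.span_le]
      intro F hF
      show MvPolynomial.aeval (curL (fun j i => s (ct j i)) l) F = 0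
      rw [← hFs L s F]
      refine LaurentPolynomial.ext fun t => ?_
      rw [hco L s]
      exact (hs0 _).2 (hJP (Ideal.subset_span ⟨F, hF, t, rfl⟩))
    intro F hF
    exact hI hF
  · intro G hGI h0
    rw [← hxs L s G, hs0] at h0
    exact Set.disjoint_left.1 hPM h0 ⟨G, 0, hGI, by simp⟩
  · intro a h0
    have h1 := hNs L s
    rw [h0, C_apply, if_neg hw, hs0] at h1
    exact Set.disjoint_left.1 hPM h1 ⟨1, 1, h1I, by simp⟩

/-- a vector of exponents with a given pattern -/
noncomputable def repL (D : ℕ) (π : Set ((Fin r → Fin (D + 1)) × (Fin r → Fin (D + 1)))) :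
    Fin r → ℤ := by
  classical
  exact if h : ∃ l : Fin r → ℤ, patL D l = π then h.choose else fun _ => 0

theorem pat_repL (D : ℕ) (l : Fin r → ℤ) : patL D (repL D (patL D l)) = patL D l := by
  have h : ∃ l' : Fin r → ℤ, patL D l' = patL D l := ⟨l, rfl⟩
  unfold repL
  rw [dif_pos h]
  exact h.choose_spec

/-- all the nonconstant curves with `r` terms lie in one hypersurface -/
theorem exists_hyperL {k : Type} [Field k] [Finite ι] (FF : Finset (MvPolynomial ι k))
    (hprime : (Ideal.span (FF : Set (MvPolynomial ι k))).IsPrime)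
    (hnu : ¬ GmUniruled (Ideal.span (FF : Set (MvPolynomial ι k)))) (r : ℕ) :
    ∃ G : MvPolynomial ι k, G ∉ Ideal.span (FF : Set (MvPolynomial ι k)) ∧
      ∀ (L : Type) [Field L] [Algebra k L] (c : Fin r → ι → L) (l : Fin r → ℤ),
        (∀ F ∈ FF, MvPolynomial.aeval (curL c l) F = 0) →
        (∃ i, ∀ a : L, curL c l i ≠ C a) →
        MvPolynomial.aeval (fun i => ∑ j, c j i) G = 0 := by
  classical
  have : Fintype ι := Fintype.ofFinite ι
  let D : ℕ := FF.sup (fun F => F.totalDegree) + 1
  have hD : 1 ≤ D := Nat.le_add_left _ _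
  have hFD : ∀ F ∈ FF, F.totalDegree ≤ D := fun F hF =>
    (Finset.le_sup (f := fun F : MvPolynomial ι k => F.totalDegree) hF).trans (Nat.le_succ _)
  have h1I : (1 : MvPolynomial ι k) ∉ Ideal.span (FF : Set (MvPolynomial ι k)) := by
    intro h
    exact hprime.ne_top ((Ideal.eq_top_iff_one _).2 h)
  have hex : ∀ q : Set ((Fin r → Fin (D + 1)) × (Fin r → Fin (D + 1))) × ι × Fin r,
      ∃ G : MvPolynomial ι k, G ∉ Ideal.span (FF : Set (MvPolynomial ι k)) ∧
        (repL D q.1 q.2.2 ≠ 0 → ∀ (L : Type) [Field L] [Algebra k L] (c : Fin r → ι → L),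
          (∀ F ∈ FF, MvPolynomial.aeval (curL c (repL D q.1)) F = 0) →
          (curL c (repL D q.1) q.2.1).coeff (repL D q.1 q.2.2) ≠ 0 →
          MvPolynomial.aeval (fun i => ∑ j, c j i) G = 0) := by
    intro q
    by_cases hw : repL D q.1 q.2.2 = 0
    · exact ⟨1, h1I, fun h => absurd hw h⟩
    · obtain ⟨G, hG1, hG2⟩ := exists_Ga (FF : Set (MvPolynomial ι k)) hprime hnu (repL D q.1)
        q.2.1 _ hw
      exact ⟨G, hG1, fun _ L _ _ c hF hc => hG2 L c hF hc⟩
  choose H hH1 hH2 using hex
  refine ⟨∏ q, H q, ?_, ?_⟩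
  · rw [hprime.prod_mem_iff]
    push Not
    intro q _
    exact hH1 q
  · intro L _ _ c l hz ⟨i, hc⟩
    -- a nonzero coefficient with a nonzero exponent
    obtain ⟨w, hw0, hw⟩ : ∃ w : ℤ, w ≠ 0 ∧ (curL c l i).coeff w ≠ 0 := by
      by_contra hcon
      push Not at hcon
      apply hc ((curL c l i).coeff 0)
      refine LaurentPolynomial.ext fun t => ?_
      rw [C_apply]
      by_cases ht : t = 0
      · rw [if_pos ht, ht]
      · rw [if_neg ht, hcon t ht]
    obtain ⟨j, hj⟩ : ∃ j, l j = w := by
      by_contra hcon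
      push Not at hcon
      apply hw
      rw [coeff_curL]
      exact Finset.sum_eq_zero fun j _ => if_neg (hcon j)
    subst hj
    have hp := pat_repL D l
    have hz' : ∀ F ∈ FF, MvPolynomial.aeval (curL c (repL D (patL D l))) F = 0 := by
      intro F hF
      exact curL_zero_transfer D l _ hp.symm c F (hFD F hF) (hz F hF)
    have hne : repL D (patL D l) j ≠ 0 := fun h0 => hw0 (patL_zero D hD _ l hp j h0)
    have hco : (curL c (repL D (patL D l)) i).coeff (repL D (patL D l) j) =
        (curL c l i).coeff (l j) := by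
      rw [coeff_curL, coeff_curL]
      refine Finset.sum_congr rfl fun j' _ => ?_
      by_cases h1 : l j' = l j
      · rw [if_pos h1, if_pos (patL_eq D hD l _ hp.symm j' j h1)]
      · rw [if_neg h1, if_neg (fun h2 => h1 (patL_eq D hD _ l hp j' j h2))]
    have h1 := hH2 (patL D l, i, j) hne L c hz' (by
      show (curL c (repL D (patL D l)) i).coeff (repL D (patL D l) j) ≠ 0
      rw [hco]
      exact hw)
    rw [map_prod]
    exact Finset.prod_eq_zero (Finset.mem_univ (patL D l, i, j)) h1

end Pool.Agent.TH138.LG
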