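import Pool.Agent.TH138.LG.Aff
import Pool.Agent.TH138.LG.Gm

set_option autoImplicit false

/-!
# Orbits of one linear map on an affine variety, outside a hypersurface
-/

namespace Pool.Agent.TH138.LG

open NumberField Pool.Agent.TH717.GO LaurentPolynomial

theorem exists_curL_of_sum {ι κ L : Type} [Field L] (W : Finset κ) (g : κ → ι → L) (e : κ → ℤ)
    (R : ℕ) (hW : W.card ≤ R) :
    ∃ (c : Fin R → ι → L) (l : Fin R → ℤ),
      (∀ i, curL c l i = ∑ a ∈ W, C (g a i) * T (e a)) ∧ ∀ i, ∑ j, c j i = ∑ a ∈ W, g a i := by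
  classical
  let en := W.equivFin
  let c : Fin R → ι → L := fun j i =>
    if h : (j : ℕ) < W.card then g (en.symm ⟨j, h⟩) i else 0
  let l : Fin R → ℤ := fun j => if h : (j : ℕ) < W.card then e (en.symm ⟨j, h⟩) else 0
  have key : ∀ {X : Type} [AddCommMonoid X] (F : Fin R → X) (H : κ → X),
      (∀ (j : Fin R) (h : (j : ℕ) < W.card), F j = H (en.symm ⟨j, h⟩)) →
      (∀ j : Fin R, ¬ (j : ℕ) < W.card → F j = 0) → ∑ j, F j = ∑ a ∈ W, H a := by
    intro X _ F H h1 h2
    have h3 : ∑ j, F j = ∑ j ∈ (Finset.univ : Finset (Fin W.card)).map (Fin.castLEEmb hW), F j := by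
      symm
      refine Finset.sum_subset (Finset.subset_univ _) fun j _ hj => h2 j fun hlt => hj ?_
      rw [Finset.mem_map]
      exact ⟨⟨j, hlt⟩, Finset.mem_univ _, rfl⟩
    rw [h3, Finset.sum_map]
    have h4 : ∀ j : Fin W.card, F (Fin.castLEEmb hW j) = H (en.symm j) := fun j =>
      h1 _ j.2
    rw [Finset.sum_congr rfl fun j _ => h4 j]
    rw [← Finset.sum_coe_sort W H]
    exact Equiv.sum_comp en.symm (fun a : W => H a)
  refine ⟨c, l, fun i => ?_, fun i => ?_⟩
  · unfold curL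
    refine key _ (fun a => C (g a i) * T (e a)) (fun j h => ?_) (fun j h => ?_)
    · simp only [c, l, dif_pos h]
    · simp only [c, dif_neg h, map_zero, zero_mul]
  · refine key _ (fun a => g a i) (fun j h => ?_) (fun j h => ?_)
    · simp only [c, dif_pos h]
    · simp only [c, dif_neg h]

/-- substitution of a power of `T` for each root and of `T - 1` for the variable -/
noncomputable def phiL {L : Type} [Field L] (Λ : Subgroup Lˣ) (β : Λ →* Multiplicative ℤ) :
    EP Λ →+* LaurentPolynomial L :=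
  MonoidAlgebra.liftNCRingHom (Polynomial.toLaurent.comp (dn L))
    { toFun := fun μ => T (Multiplicative.toAdd (β μ))
      map_one' := by simp
      map_mul' := fun a b => by rw [map_mul, toAdd_mul, T_add] }
    (fun x y => Commute.all _ _)

theorem phiL_single {L : Type} [Field L] (Λ : Subgroup Lˣ) (β : Λ →* Multiplicative ℤ) (μ : Λ)
    (P : Polynomial L) :
    phiL Λ β (MonoidAlgebra.single μ P) = Polynomial.toLaurent (dn L P) *
      T (Multiplicative.toAdd (β μ)) := by
  unfold phiL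
  rw [MonoidAlgebra.liftNCRingHom_single]
  rfl

/-- Laurent polynomials as rational functions -/
noncomputable def toR (L : Type) [Field L] : LaurentPolynomial L →+* RatFunc L :=
  LaurentPolynomial.eval₂ RatFunc.C (Units.mk0 RatFunc.X RatFunc.X_ne_zero)

theorem toR_C {L : Type} [Field L] (c : L) : toR L (C c) = RatFunc.C c := by
  unfold toR
  rw [eval₂_C]

theorem toR_T {L : Type} [Field L] (n : ℤ) : toR L (T n) = RatFunc.X ^ n := by
  unfold toR
  rw [eval₂_T, Units.val_zpow_eq_zpow_val, Units.val_mk0]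

theorem toR_toLaurent {L : Type} [Field L] (P : Polynomial L) :
    toR L (Polynomial.toLaurent P) = algebraMap (Polynomial L) (RatFunc L) P := by
  have h1 : (toR L).comp Polynomial.toLaurent = algebraMap (Polynomial L) (RatFunc L) := by
    refine Polynomial.ringHom_ext (fun a => ?_) ?_
    · show toR L (Polynomial.toLaurent (Polynomial.C a)) = _
      rw [Polynomial.toLaurent_C, toR_C, RatFunc.algebraMap_C]
    · show toR L (Polynomial.toLaurent Polynomial.X) = _
      rw [Polynomial.toLaurent_X, toR_T, zpow_one, RatFunc.algebraMap_X]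
  exact congrArg (fun f => f P) h1

theorem toR_phiL {L : Type} [Field L] (Λ : Subgroup Lˣ) (β : Λ →* Multiplicative ℤ) (z : EP Λ) :
    toR L (phiL Λ β z) = phi Λ β z := by
  induction z using MonoidAlgebra.induction_linear with
  | zero => rw [map_zero, map_zero, map_zero]
  | add f g hf hg => rw [map_add, map_add, map_add, hf, hg]
  | single μ P => rw [phiL_single, map_mul, toR_toLaurent, toR_T, phi_single]

/-- representation of the orbit of a linear map -/
theorem aff_rep {ι : Type} {L : Type} [Field L] [CharZero L] [IsAlgClosed L] {s : ℕ}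
    (f : Module.End L (Fin s → L))
    (U : Subgroup Lˣ) (hU : ∀ u ∈ U, ∀ m : ℕ, 0 < m → u ^ m = 1 → u = 1)
    (hfU : ∀ μ : L, f.HasEigenvalue μ → ∃ u ∈ U, (u : L) = μ)
    (ℓ : (Fin s → L) →ₗ[L] (ι → L)) (x : Fin s → L) :
    ∃ (Λ : Subgroup Lˣ) (S : Finset Λ) (β' : Λ →* Multiplicative ℤ) (a : ι → Λ → Polynomial L),
      S.card ≤ s + 1 ∧ (∀ i, ∀ μ ∈ S, (a i μ).degree < (s + 1 : ℕ)) ∧
      (∀ i (m : ℕ), ℓ ((f ^ m) x) i = ∑ μ ∈ S, (a i μ).eval (m : L) * ((μ : Lˣ) : L) ^ m) ∧
      (∀ i (c : L), phi Λ β' (mk Λ S (a i)) = RatFunc.C c → ∀ m : ℕ, ℓ ((f ^ m) x) i = c) := by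
  classical
  let E : Set Lˣ := {u | f.HasEigenvalue (u : L)}
  have hEfin : E.Finite := by
    have h1 : (Units.val '' E : Set L).Finite := by
      by_contra hinf
      obtain ⟨T, hT, hTc⟩ := Set.Infinite.exists_subset_card_eq hinf (s + 1)
      have h1 := card_le_of_eig f T (by
        intro μ hμ
        obtain ⟨u, hu, rfl⟩ := hT hμ
        exact hu)
      omega
    exact Set.Finite.of_finite_image h1 (fun a _ b _ h => Units.ext h)
  let Λ : Subgroup Lˣ := Subgroup.closure E
  have hΛU : Λ ≤ U := by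
    rw [Subgroup.closure_le]
    intro u hu
    obtain ⟨u', hu', h⟩ := hfU (u : L) hu
    rwa [← Units.ext h]
  have hΛ : ∀ μ : L, f.HasEigenvalue μ → ∃ ν : Λ, ((ν : Lˣ) : L) = μ := by
    intro μ hμ
    obtain ⟨u, hu, rfl⟩ := hfU μ hμ
    exact ⟨⟨u, Subgroup.subset_closure hμ⟩, rfl⟩
  have hfg : Group.FG Λ := by
    rw [Group.fg_iff_subgroup_fg]
    exact ⟨hEfin.toFinset, by rw [Set.Finite.coe_toFinset]⟩
  obtain ⟨S0, hS1, hS2⟩ := seq_rep f Λ hΛ
  let S : Finset Λ := insert 1 S0
  obtain ⟨β, hβ⟩ := exists_beta hfg (fun g m hm h => by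
    have h1 := hU g (hΛU g.2) m hm (by
      have := congrArg (Subtype.val : Λ → Lˣ) h
      simpa using this)
    exact Subtype.ext h1) S
  have hrep : ∀ i : ι, ∃ a : Λ → Polynomial L, (∀ μ ∈ S, (a μ).degree < (s + 1 : ℕ)) ∧
      ∀ m : ℕ, ℓ ((f ^ m) x) i = ∑ μ ∈ S, (a μ).eval (m : L) * ((μ : Lˣ) : L) ^ m := by
    intro i
    obtain ⟨a, ha, hae⟩ := hS2 ((LinearMap.proj i).comp ℓ) x
    refine ⟨fun μ => if μ ∈ S0 then a μ else 0, ?_, ?_⟩
    · intro μ _
      by_cases h : μ ∈ S0
      · simp only [if_pos h]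
        exact lt_of_lt_of_le (ha μ h) (by exact_mod_cast Nat.le_succ s)
      · simp only [if_neg h, Polynomial.degree_zero]
        exact WithBot.bot_lt_coe _
    · intro m
      have h1 : ℓ ((f ^ m) x) i = ∑ μ ∈ S0, (a μ).eval (m : L) * ((μ : Lˣ) : L) ^ m := hae m
      rw [h1]
      refine (Finset.sum_congr rfl fun μ hμ => by simp only [if_pos hμ]).trans
        (Finset.sum_subset (Finset.subset_insert 1 S0) fun μ _ hμ => ?_)
      simp only [if_neg hμ, Polynomial.eval_zero, zero_mul]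
  choose a ha hae using hrep
  -- exponents, separated by `s + 1`
  let D : ℕ := s + 1
  let β' : Λ →* Multiplicative ℤ := (powMonoidHom D).comp β
  have hβ' : ∀ μ, Multiplicative.toAdd (β' μ) = D * Multiplicative.toAdd (β μ) := by
    intro μ
    show Multiplicative.toAdd (β μ ^ D) = _
    rw [toAdd_pow]
    simp
  let B : ℕ := ∑ μ ∈ S, (Multiplicative.toAdd (β' μ)).natAbs
  have hB : ∀ μ ∈ S, 0 ≤ Multiplicative.toAdd (β' μ) + (B : ℤ) := by
    intro μ hμ
    have h1 : (Multiplicative.toAdd (β' μ)).natAbs ≤ B :=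
      Finset.single_le_sum (f := fun μ => (Multiplicative.toAdd (β' μ)).natAbs)
        (fun _ _ => Nat.zero_le _) hμ
    omega
  let b : Λ → ℕ := fun μ => (Multiplicative.toAdd (β' μ) + (B : ℤ)).toNat
  have hb1 : b 1 = B := by
    show (Multiplicative.toAdd (β' 1) + (B : ℤ)).toNat = B
    rw [map_one]
    simp
  have hb : ∀ μ ∈ S, ∀ ν ∈ S, μ ≠ ν → b μ + D ≤ b ν ∨ b ν + D ≤ b μ := by
    intro μ hμ ν hν hne
    have h1 : Multiplicative.toAdd (β μ) ≠ Multiplicative.toAdd (β ν) := fun h =>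
      hne (hβ hμ hν (Multiplicative.toAdd.injective h))
    have h2 := Int.toNat_of_nonneg (hB μ hμ)
    have h3 := Int.toNat_of_nonneg (hB ν hν)
    have h4 : ((b μ : ℕ) : ℤ) = D * Multiplicative.toAdd (β μ) + B := by
      rw [← hβ']; exact h2
    have h5 : ((b ν : ℕ) : ℤ) = D * Multiplicative.toAdd (β ν) + B := by
      rw [← hβ']; exact h3
    rcases lt_or_gt_of_ne h1 with h | h
    · left
      have h6 : (D : ℤ) * (Multiplicative.toAdd (β μ) + 1) ≤ D * Multiplicative.toAdd (β ν) :=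
        mul_le_mul_of_nonneg_left (by omega) (by positivity)
      zify
      rw [h4, h5]
      linarith
    · right
      have h6 : (D : ℤ) * (Multiplicative.toAdd (β ν) + 1) ≤ D * Multiplicative.toAdd (β μ) :=
        mul_le_mul_of_nonneg_left (by omega) (by positivity)
      zify
      rw [h4, h5]
      linarith
  have hdC : ∀ c : L, dn L (Polynomial.C c) = Polynomial.C c := fun c => by
    show (Polynomial.C c).comp _ = _
    rw [Polynomial.C_comp]
  refine ⟨Λ, S, β', a, (Finset.card_insert_le _ _).trans (by omega), ha, hae, ?_⟩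
  intro i c hc m
  have h8 := phi_mk Λ β' B S hB (a i)
  rw [hc, ← RatFunc.algebraMap_C, ← RatFunc.algebraMap_X, ← map_pow, ← map_mul] at h8
  have h9 : crv S b (a i) = Polynomial.X ^ B * Polynomial.C c :=
    RatFunc.algebraMap_injective L h8
  let d : Λ → Polynomial L := fun μ => a i μ - if μ = 1 then Polynomial.C c else 0
  have hd0 : crv S b d = 0 := by
    have h10 : crv S b d = crv S b (a i) - Polynomial.C c * Polynomial.X ^ (b 1) := by
      unfold crv
      rw [← Finset.sum_erase_add S _ (Finset.mem_insert_self 1 S0),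
        ← Finset.sum_erase_add S (fun μ => dn L (a i μ) * Polynomial.X ^ b μ)
          (Finset.mem_insert_self 1 S0)]
      have h11 : ∀ μ ∈ S.erase 1, dn L (d μ) * Polynomial.X ^ b μ =
          dn L (a i μ) * Polynomial.X ^ b μ := by
        intro μ hμ
        have : d μ = a i μ := by
          show a i μ - (if μ = 1 then Polynomial.C c else 0) = _
          rw [if_neg (Finset.ne_of_mem_erase hμ), sub_zero]
        rw [this]
      rw [Finset.sum_congr rfl h11]
      have h12 : d 1 = a i 1 - Polynomial.C c := by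
        show a i 1 - (if (1 : Λ) = 1 then Polynomial.C c else 0) = _
        rw [if_pos rfl]
      rw [h12, map_sub, hdC]
      ring
    rw [h10, h9, hb1]
    ring
  have hddeg : ∀ μ ∈ S, (d μ).degree < (D : ℕ) := by
    intro μ hμ
    show (a i μ - if μ = 1 then Polynomial.C c else 0).degree < _
    refine lt_of_le_of_lt (Polynomial.degree_sub_le _ _) (max_lt (ha i μ hμ) ?_)
    split_ifs
    · refine lt_of_le_of_lt Polynomial.degree_C_le ?_
      exact_mod_cast Nat.succ_pos s
    · rw [Polynomial.degree_zero]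
      exact WithBot.bot_lt_coe _
  have hd := crv_sep S b D hb d hddeg hd0
  have h13 : ∀ μ ∈ S, a i μ = if μ = 1 then Polynomial.C c else 0 := fun μ hμ =>
    sub_eq_zero.1 (hd μ hμ)
  rw [hae i m, Finset.sum_eq_single (1 : Λ)]
  · rw [h13 1 (Finset.mem_insert_self 1 S0), if_pos rfl, Polynomial.eval_C]
    simp
  · intro μ hμ hne
    rw [h13 μ hμ, if_neg hne, Polynomial.eval_zero, zero_mul]
  · intro h
    exact absurd (Finset.mem_insert_self 1 S0) h

/-- the orbit of a point off `G = 0` is constant -/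
theorem aff_coreG {k ι : Type} [Field k] {L : Type} [Field L] [CharZero L] [IsAlgClosed L]
    [Algebra k L] (FF : Set (MvPolynomial ι k)) (G : MvPolynomial ι k) {s : ℕ}
    (hG : ∀ (c : Fin ((s + 1) * (s + 1)) → ι → L) (l : Fin ((s + 1) * (s + 1)) → ℤ),
      (∀ F ∈ FF, MvPolynomial.aeval (curL c l) F = 0) → (∃ i, ∀ a : L, curL c l i ≠ C a) →
      MvPolynomial.aeval (fun i => ∑ j, c j i) G = 0)
    (f : Module.End L (Fin s → L))
    (U : Subgroup Lˣ) (hU : ∀ u ∈ U, ∀ m : ℕ, 0 < m → u ^ m = 1 → u = 1)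
    (hfU : ∀ μ : L, f.HasEigenvalue μ → ∃ u ∈ U, (u : L) = μ)
    (ℓ : (Fin s → L) →ₗ[L] (ι → L)) (x : Fin s → L)
    (hF : ∀ F ∈ FF, ∀ m : ℕ, MvPolynomial.aeval (ℓ ((f ^ m) x)) F = 0)
    (hGx : MvPolynomial.aeval (ℓ x) G ≠ 0) (m : ℕ) :
    ℓ ((f ^ m) x) = ℓ x := by
  classical
  obtain ⟨Λ, S, β', a, hS, ha, hae, hconst⟩ := aff_rep f U hU hfU ℓ x
  -- the exponential polynomials satisfy the equations
  let f0 : k →+* EP Λ := (MonoidAlgebra.singleOneRingHom (R := Polynomial L) (M := Λ)).comp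
    (algebraMap k (Polynomial L))
  have h0 : ∀ F ∈ FF, MvPolynomial.eval₂ f0 (fun i => mk Λ S (a i)) F = 0 := by
    intro F hFF
    apply ev_injective Λ
    rw [map_zero]
    funext m
    have h1 := hF F hFF m
    rw [MvPolynomial.aeval_def] at h1
    let evm : EP Λ →+* L := (Pi.evalRingHom (fun _ : ℕ => L) m).comp (ev Λ)
    have h2 : evm (MvPolynomial.eval₂ f0 (fun i => mk Λ S (a i)) F) = 0 := by
      rw [MvPolynomial.hom_eval₂]
      have h3 : evm.comp f0 = algebraMap k L := by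
        refine RingHom.ext fun x => ?_
        show ev Λ (MonoidAlgebra.single 1 (algebraMap k (Polynomial L) x)) m = _
        rw [ev_single, Polynomial.algebraMap_apply, Polynomial.eval_C]
        simp
      have h4 : (fun i => evm (mk Λ S (a i))) = ℓ ((f ^ m) x) := by
        funext i
        show ev Λ (mk Λ S (a i)) m = _
        rw [ev_mk, hae i m]
      rw [h3, h4]
      exact h1
    exact h2
  have hdC : ∀ c : L, dn L (Polynomial.C c) = Polynomial.C c := fun c => by
    show (Polynomial.C c).comp _ = _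
    rw [Polynomial.C_comp]
  have h5 : algebraMap k (LaurentPolynomial L) = (phiL Λ β').comp f0 := by
    refine RingHom.ext fun x => ?_
    show _ = phiL Λ β' (MonoidAlgebra.single 1 (algebraMap k (Polynomial L) x))
    rw [phiL_single, map_one, toAdd_one, T_zero, mul_one, Polynomial.algebraMap_apply, hdC,
      Polynomial.toLaurent_C]
    rfl
  -- the curve
  let W : Finset (Λ × ℕ) := S ×ˢ Finset.range (s + 1)
  have hW : W.card ≤ (s + 1) * (s + 1) := by
    rw [Finset.card_product, Finset.card_range]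
    exact Nat.mul_le_mul_right _ hS
  obtain ⟨c, l, hc1, hc2⟩ := exists_curL_of_sum W
    (fun q i => (dn L (a i q.1)).coeff q.2)
    (fun q => Multiplicative.toAdd (β' q.1) + (q.2 : ℤ)) _ hW
  have hnat : ∀ i, ∀ μ ∈ S, (dn L (a i μ)).natDegree < s + 1 := by
    intro i μ hμ
    by_cases h : dn L (a i μ) = 0
    · rw [h, Polynomial.natDegree_zero]
      exact Nat.succ_pos s
    · rw [Polynomial.natDegree_lt_iff_degree_lt h, dn_degree]
      exact ha i μ hμ
  have hq : ∀ i, curL c l i = phiL Λ β' (mk Λ S (a i)) := by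
    intro i
    rw [hc1 i, Finset.sum_product]
    unfold Pool.Agent.TH717.GO.mk
    rw [map_sum]
    refine Finset.sum_congr rfl fun μ hμ => ?_
    rw [phiL_single]
    conv_rhs => rw [Polynomial.as_sum_range' _ (s + 1) (hnat i μ hμ)]
    rw [map_sum, Finset.sum_mul]
    refine Finset.sum_congr rfl fun t _ => ?_
    rw [← Polynomial.C_mul_X_pow_eq_monomial, Polynomial.toLaurent_C_mul_X_pow, mul_assoc,
      ← T_add, add_comm (t : ℤ)]
  have hval : ∀ i, ∑ j, c j i = ℓ x i := by
    intro i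
    have h6 := hae i 0
    rw [pow_zero, Module.End.one_apply] at h6
    rw [hc2 i, Finset.sum_product, h6]
    refine Finset.sum_congr rfl fun μ hμ => ?_
    rw [pow_zero, mul_one, Nat.cast_zero, ← dn_eval_one,
      Polynomial.eval_eq_sum_range' (hnat i μ hμ)]
    refine Finset.sum_congr rfl fun t _ => ?_
    rw [one_pow, mul_one]
  have hFc : ∀ F ∈ FF, MvPolynomial.aeval (curL c l) F = 0 := by
    intro F hFF
    have h7 := congrArg (phiL Λ β') (h0 F hFF)
    rw [MvPolynomial.hom_eval₂, map_zero, ← h5] at h7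
    rw [MvPolynomial.aeval_def, ← h7]
    congr 1
    funext i
    exact hq i
  by_cases hnc : ∃ i, ∀ a : L, curL c l i ≠ C a
  · exfalso
    apply hGx
    have h8 := hG c l hFc hnc
    have h9 : (fun i => ∑ j, c j i) = ℓ x := funext hval
    rwa [h9] at h8
  · push Not at hnc
    funext i
    obtain ⟨b, hb⟩ := hnc i
    have h10 : phi Λ β' (mk Λ S (a i)) = RatFunc.C b := by
      rw [← toR_phiL, ← hq i, hb, toR_C]
    have h11 := hconst i b h10
    have h12 := h11 0
    rw [pow_zero, Module.End.one_apply] at h12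
    rw [h11 m, h12]

/-- one step back -/
theorem aff_backG {k ι : Type} [Field k] {L : Type} [Field L] [CharZero L] [IsAlgClosed L]
    [Algebra k L] (FF : Set (MvPolynomial ι k)) (G : MvPolynomial ι k) {s : ℕ}
    (hG : ∀ (c : Fin ((s + 1) * (s + 1)) → ι → L) (l : Fin ((s + 1) * (s + 1)) → ℤ),
      (∀ F ∈ FF, MvPolynomial.aeval (curL c l) F = 0) → (∃ i, ∀ a : L, curL c l i ≠ C a) →
      MvPolynomial.aeval (fun i => ∑ j, c j i) G = 0)
    (f : Module.End L (Fin s → L)) (hf : Function.Injective f)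
    (U : Subgroup Lˣ) (hU : ∀ u ∈ U, ∀ m : ℕ, 0 < m → u ^ m = 1 → u = 1)
    (hfU : ∀ μ : L, f.HasEigenvalue μ → ∃ u ∈ U, (u : L) = μ)
    (ℓ : (Fin s → L) →ₗ[L] (ι → L)) (x : Fin s → L)
    (hF : ∀ F ∈ FF, ∀ m : ℕ, MvPolynomial.aeval (ℓ ((f ^ m) x)) F = 0)
    (hGx : MvPolynomial.aeval (ℓ (f x)) G ≠ 0) : ℓ x = ℓ (f x) := by
  have h1 := aff_coreG FF G hG f U hU hfU ℓ (f x) (fun F hFF m => by
    have h2 := hF F hFF (m + 1)
    rw [pow_succ] at h2
    exact h2) hGx
  let ψ : (Fin s → L) →ₗ[L] (ι → L) := ℓ ∘ₗ (f - 1)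
  have hψ : ∀ y, ψ y = ℓ (f y) - ℓ y := fun y => by
    show ℓ ((f - 1) y) = _
    rw [LinearMap.sub_apply, map_sub]
    rfl
  have h3 : Submodule.span L (Set.range fun m : ℕ => (f ^ (m + 1)) x) ≤ LinearMap.ker ψ := by
    rw [Submodule.span_le]
    rintro _ ⟨m, rfl⟩
    show (f ^ (m + 1)) x ∈ LinearMap.ker ψ
    rw [LinearMap.mem_ker, hψ]
    have h4 : (f ^ (m + 1)) x = (f ^ m) (f x) := by rw [pow_succ]; rfl
    have h5 : f ((f ^ (m + 1)) x) = (f ^ (m + 1)) (f x) := by
      rw [pow_succ' f m]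
      show f (f ((f ^ m) x)) = f ((f ^ m) (f x))
      congr 1
      show (f * f ^ m) x = (f ^ m * f) x
      rw [← pow_succ', pow_succ]
    rw [h5, h1 (m + 1), h4, h1 m, sub_self]
  have h5 := h3 (mem_span_pow f hf x)
  rw [LinearMap.mem_ker, hψ, sub_eq_zero] at h5
  exact h5.symm

/-- **Two-sided pumping on affine varieties, off `G = 0`** -/
theorem sandwich_affG {k ι : Type} [Field k] {p r : ℕ} (hp : p.Prime) (hp3 : 3 ≤ p)
    {K : Type} [Field K] [CharZero K] [Algebra k K] (FF : Set (MvPolynomial ι k))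
    (G : MvPolynomial ι k)
    (hG : ∀ (L : Type) [Field L] [Algebra k L]
      (c : Fin ((r * r + 1) * (r * r + 1)) → ι → L) (l : Fin ((r * r + 1) * (r * r + 1)) → ℤ),
      (∀ F ∈ FF, MvPolynomial.aeval (curL c l) F = 0) → (∃ i, ∀ a : L, curL c l i ≠ C a) →
      MvPolynomial.aeval (fun i => ∑ j, c j i) G = 0)
    (M : Matrix ι (Fin r) K)
    (V V' N Y Y' : Matrix (Fin r) (Fin r) K) (v : Fin r → K) (hV : V' * V = 1) (hY : Y * Y' = 1)
    (B B' D D' : Matrix (Fin r) (Fin r) K) (hB : ∀ i j, PInt p (B i j))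
    (hB' : ∀ i j, PInt p (B' i j)) (hD : ∀ i j, PInt p (D i j)) (hD' : ∀ i j, PInt p (D' i j))
    (eV : V = 1 + (p : K) • B) (eV' : V' = 1 + (p : K) • B') (eY : Y = 1 + (p : K) • D)
    (eY' : Y' = 1 + (p : K) • D')
    (hX : ∀ m : ℕ, ∀ F ∈ FF,
      MvPolynomial.aeval (M.mulVec ((V ^ m * N * Y ^ m).mulVec v)) F = 0)
    (hG1 : MvPolynomial.aeval (M.mulVec ((V * N * Y).mulVec v)) G ≠ 0) :
    M.mulVec (N.mulVec v) = M.mulVec ((V * N * Y).mulVec v) := by
  classical
  let L := AlgebraicClosure K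
  let φ : K →+* L := algebraMap K L
  have hφ : Function.Injective φ := (algebraMap K L).injective
  have hmap : ∀ C : Matrix (Fin r) (Fin r) K, ((1 : Matrix (Fin r) (Fin r) K) + (p : K) • C).map φ =
      1 + (p : L) • C.map φ := by
    intro C
    have h1 : ((1 : Matrix (Fin r) (Fin r) K) + (p : K) • C).map φ =
        φ.mapMatrix (1 + (p : K) • C) := rfl
    rw [h1, map_add, map_one]
    congr 1
    ext a b
    simp
  have hKK : Kr (V'.map φ) (Y'.map φ) * Kr (V.map φ) (Y.map φ) = 1 := by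
    rw [Kr_mul, ← Matrix.map_mul, ← Matrix.map_mul, hV, hY,
      Matrix.map_one φ (map_zero φ) (map_one φ), Kr_one]
  have heig := fun μ hμ => eig_mem_UU (L := L) hp (Kr (V.map φ) (Y.map φ))
    (Kr (V'.map φ) (Y'.map φ)) (KB (p : L) (B.map φ) (D.map φ)) (KB (p : L) (B'.map φ) (D'.map φ))
    hKK (by rw [eV, eY, hmap, hmap, Kr_add]) (by rw [eV', eY', hmap, hmap, Kr_add])
    (KB_pint hp (fun i j => (hB i j).map φ) (fun i j => (hD i j).map φ))
    (KB_pint hp (fun i j => (hB' i j).map φ) (fun i j => (hD' i j).map φ)) μ hμ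
  have hinj : Function.Injective (Matrix.toLinAlgEquiv' (Kr (V.map φ) (Y.map φ))) := by
    intro x y hxy
    rw [Matrix.toLinAlgEquiv'_apply, Matrix.toLinAlgEquiv'_apply] at hxy
    have := congrArg (Kr (V'.map φ) (Y'.map φ)).mulVec hxy
    rwa [Matrix.mulVec_mulVec, Matrix.mulVec_mulVec, hKK, Matrix.one_mulVec,
      Matrix.one_mulVec] at this
  have hpow : ∀ C : Matrix (Fin r) (Fin r) K, ∀ m : ℕ, (C.map φ) ^ m = (C ^ m).map φ := by
    intro C m
    have h1 : C.map φ = φ.mapMatrix C := rfl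
    rw [h1, ← map_pow]
    rfl
  have hseq : ∀ m : ℕ, sl' (M.map φ) (φ ∘ v)
      (((Matrix.toLinAlgEquiv' (Kr (V.map φ) (Y.map φ))) ^ m) (vec (N.map φ))) =
      fun i => φ (M.mulVec ((V ^ m * N * Y ^ m).mulVec v) i) := by
    intro m
    rw [← map_pow, Matrix.toLinAlgEquiv'_apply, Kr_pow, sl'_vec, hpow, hpow, ← Matrix.map_mul,
      ← Matrix.map_mul]
    have h1 : ((V ^ m * N * Y ^ m).map φ).mulVec (φ ∘ v) =
        φ ∘ ((V ^ m * N * Y ^ m).mulVec v) := by
      funext i
      exact (RingHom.map_mulVec φ _ v i).symm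
    rw [h1]
    funext i
    exact (RingHom.map_mulVec φ _ _ i).symm
  have hseq0 : sl' (M.map φ) (φ ∘ v) (vec (N.map φ)) =
      fun i => φ (M.mulVec (N.mulVec v) i) := by
    have h1 := hseq 0
    simpa using h1
  have hseq1 : sl' (M.map φ) (φ ∘ v)
      ((Matrix.toLinAlgEquiv' (Kr (V.map φ) (Y.map φ))) (vec (N.map φ))) =
      fun i => φ (M.mulVec ((V * N * Y).mulVec v) i) := by
    have h1 := hseq 1
    simpa using h1
  have hfin := aff_backG (s := r * r) FF G (hG L)
    (Matrix.toLinAlgEquiv' (Kr (V.map φ) (Y.map φ))) hinj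
    (UU hp L) (UU_torsionFree hp hp3) heig (sl' (M.map φ) (φ ∘ v)) (vec (N.map φ)) (by
      intro F hF m
      rw [hseq m]
      have h1 := MvPolynomial.aeval_algebraMap_apply (A := K) L
        (M.mulVec ((V ^ m * N * Y ^ m).mulVec v)) F
      have h2 : (MvPolynomial.aeval fun i => φ (M.mulVec ((V ^ m * N * Y ^ m).mulVec v) i)) F =
          φ (MvPolynomial.aeval (M.mulVec ((V ^ m * N * Y ^ m).mulVec v)) F) := h1
      rw [h2, hX m F hF, map_zero]) (by
      rw [hseq1]
      have h1 := MvPolynomial.aeval_algebraMap_apply (A := K) L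
        (M.mulVec ((V * N * Y).mulVec v)) G
      have h2 : (MvPolynomial.aeval fun i => φ (M.mulVec ((V * N * Y).mulVec v) i)) G =
          φ (MvPolynomial.aeval (M.mulVec ((V * N * Y).mulVec v)) G) := h1
      rw [h2]
      intro h3
      exact hG1 (hφ (by rw [h3, map_zero])))
  rw [hseq0, hseq1] at hfin
  funext i
  exact hφ (congrFun hfin i)

end Pool.Agent.TH138.LG
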