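import Pool.Agent.TH138.LG.Pump

set_option autoImplicit false

/-!
# The pumping lemma for context-free grammars, with a colouring of the contexts
-/

namespace Pool.Agent.TH138.LG

variable {T Φ : Type} {g : ContextFreeGrammar T} (c : List T → List T → Φ)

/-- the word `w` can be pumped, and the contexts of the two copies have the same colour -/
def PumpC (g : ContextFreeGrammar T) (w : List T) : Prop :=
  ∃ (u v x y z : List T) (Z : g.NT), w = u ++ v ++ x ++ y ++ z ∧ (v ≠ [] ∨ y ≠ []) ∧
    c u z = c (u ++ v) (y ++ z) ∧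
    Ctx g g.initial Z u z ∧ Ctx g Z Z v y ∧ DL g [.nonterminal Z] x

open scoped Classical in
/-- pairs of a left-hand side and a colour -/
noncomputable def ip (g : ContextFreeGrammar T) (Φ : Type) [Fintype Φ] : Finset (g.NT × Φ) :=
  inputs g ×ˢ Finset.univ

def QC [Fintype Φ] (g : ContextFreeGrammar T) (Y : g.NT) (x : List T) : Prop :=
  ∀ (p q : List T) (R : Finset (g.NT × Φ)), R ⊆ ip g Φ →
    Ctx g g.initial Y p q →
    (∀ Z φ, (Z, φ) ∈ R → ∃ u v y z, p = u ++ v ∧ q = y ++ z ∧ (v ≠ [] ∨ y ≠ []) ∧
      φ = c u z ∧ Ctx g g.initial Z u z ∧ Ctx g Z Y v y) →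
    width g ^ ((ip g Φ).card - R.card) < x.length → PumpC c g (p ++ x ++ q)

def ItemC [Fintype Φ] (g : ContextFreeGrammar T) (s : Symbol T g.NT) (y : List T) : Prop :=
  (∃ a, s = .terminal a ∧ y = [a]) ∨
    ∃ Y, s = .nonterminal Y ∧ DL g [.nonterminal Y] y ∧ QC c g Y y

variable {c}

theorem ItemC.dl [Fintype Φ] {s : Symbol T g.NT} {y : List T} (h : ItemC c g s y) :
    DL g [s] y := by
  rcases h with ⟨a, rfl, rfl⟩ | ⟨Y, rfl, h, _⟩
  · exact .term a .nil
  · exact h

theorem itemsC_dl [Fintype Φ] {α : List (Symbol T g.NT)} {ys : List (List T)}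
    (h : List.Forall₂ (ItemC c g) α ys) : DL g α ys.flatten := by
  induction h with
  | nil => exact .nil
  | cons h1 _ ih => exact h1.dl.append ih

theorem coreC [Fintype Φ] {r : ContextFreeRule T g.NT} (hr : r ∈ g.rules) {ys : List (List T)}
    (h : List.Forall₂ (ItemC c g) r.output ys) : QC c g r.input ys.flatten := by
  classical
  intro p q R hR hpq hRR hlen
  have hw := width_pos (g := g)
  have hone : ∀ e, 1 ≤ width g ^ e := fun e => Nat.one_le_pow _ _ hw
  have hne : ys ≠ [] := by
    rintro rfl
    simp at hlen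
  obtain ⟨y, hy, hmax⟩ := exists_longest ys hne
  have hlen2 : ys.flatten.length ≤ width g * y.length := by
    refine (flatten_length_le ys _ hmax).trans (Nat.mul_le_mul_right _ ?_)
    rw [← h.length_eq]
    exact length_le_width hr
  obtain ⟨ys1, ys2, rfl⟩ := List.append_of_mem hy
  obtain ⟨α1, β, hα, h1, h2⟩ := split₂ h
  obtain ⟨s, α2, rfl⟩ : ∃ s α2, β = s :: α2 := by
    cases β with
    | nil => cases h2
    | cons s α2 => exact ⟨s, α2, rfl⟩
  rw [List.forall₂_cons] at h2
  obtain ⟨hs, h3⟩ := h2
  have hctx : ∀ Y, s = .nonterminal Y → Ctx g r.input Y ys1.flatten ys2.flatten := by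
    rintro Y rfl x hx
    apply DL.rule hr
    rw [hα]
    have := ((itemsC_dl h1).append hx).append (itemsC_dl h3)
    simpa [List.append_assoc] using this
  have hfl : (ys1 ++ y :: ys2).flatten = ys1.flatten ++ y ++ ys2.flatten := by simp
  have hdl : DL g [.nonterminal r.input] (ys1 ++ y :: ys2).flatten := DL.rule hr (itemsC_dl h)
  by_cases hb : ys1.flatten = [] ∧ ys2.flatten = []
  · have hy2 : (ys1 ++ y :: ys2).flatten = y := by rw [hfl, hb.1, hb.2]; simp
    rcases hs with ⟨a, rfl, rfl⟩ | ⟨Y, rfl, hY, hQ⟩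
    · rw [hy2] at hlen
      simp only [List.length_singleton] at hlen
      have := hone ((ip g Φ).card - R.card)
      omega
    · have hc := hctx Y rfl
      rw [hb.1, hb.2] at hc
      rw [hy2] at hlen ⊢
      refine hQ p q R hR (by simpa using hpq.comp hc) ?_ hlen
      intro Z φ hZ
      obtain ⟨u, v, y', z, e1, e2, e3, e4, e5, e6⟩ := hRR Z φ hZ
      exact ⟨u, v, y', z, e1, e2, e3, e4, e5, by simpa using e6.comp hc⟩
  · by_cases hX : (r.input, c p q) ∈ R
    · obtain ⟨u, v, y', z, e1, e2, e3, e4, e5, e6⟩ := hRR _ _ hX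
      refine ⟨u, v, _, y', z, r.input, ?_, e3, ?_, e5, e6, hdl⟩
      · rw [e1, e2]; simp
      · rw [← e4, ← e1, ← e2]
    · have hXi : (r.input, c p q) ∈ ip g Φ := by
        unfold ip
        rw [Finset.mem_product]
        exact ⟨Finset.mem_image_of_mem _ hr, Finset.mem_univ _⟩
      have hR' : insert (r.input, c p q) R ⊆ ip g Φ := Finset.insert_subset hXi hR
      have hcard : (insert (r.input, c p q) R).card = R.card + 1 :=
        Finset.card_insert_of_notMem hX
      have hle := Finset.card_le_card hR'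
      have hexp : (ip g Φ).card - R.card =
          ((ip g Φ).card - (insert (r.input, c p q) R).card) + 1 := by
        omega
      have hylen : width g ^ ((ip g Φ).card - (insert (r.input, c p q) R).card) < y.length := by
        rw [hexp, pow_succ'] at hlen
        exact Nat.lt_of_mul_lt_mul_left (hlen.trans_le hlen2)
      rcases hs with ⟨a, rfl, rfl⟩ | ⟨Y, rfl, hY, hQ⟩
      · simp only [List.length_singleton] at hylen
        have := hone ((ip g Φ).card - (insert (r.input, c p q) R).card)
        omega
      · have hc := hctx Y rfl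
        have key := hQ (p ++ ys1.flatten) (ys2.flatten ++ q) _ hR' (hpq.comp hc) ?_ hylen
        · rw [hfl]
          have e : p ++ ys1.flatten ++ y ++ (ys2.flatten ++ q) =
              p ++ (ys1.flatten ++ y ++ ys2.flatten) ++ q := by simp
          rw [e] at key
          exact key
        intro Z φ hZ
        rw [Finset.mem_insert] at hZ
        rcases hZ with hZ | hZ
        · obtain ⟨rfl, rfl⟩ := Prod.mk.inj hZ
          refine ⟨p, ys1.flatten, ys2.flatten, q, rfl, rfl, ?_, rfl, hpq, hc⟩
          by_contra hcon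
          push Not at hcon
          exact hb hcon
        · obtain ⟨u, v, y', z, e1, e2, e3, e4, e5, e6⟩ := hRR Z φ hZ
          refine ⟨u, v ++ ys1.flatten, ys2.flatten ++ y', z, by rw [e1]; simp, by rw [e2]; simp,
            ?_, e4, e5, e6.comp hc⟩
          rcases e3 with e3 | e3
          · exact Or.inl (by simp [e3])
          · exact Or.inr (by simp [e3])

theorem itemsC [Fintype Φ] (c : List T → List T → Φ) {α : List (Symbol T g.NT)} {w : List T}
    (h : DL g α w) :
    ∃ ys : List (List T), ys.flatten = w ∧ List.Forall₂ (ItemC c g) α ys := by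
  induction h with
  | nil => exact ⟨[], rfl, .nil⟩
  | term a _ ih =>
    obtain ⟨ys, rfl, h⟩ := ih
    exact ⟨[a] :: ys, by simp, .cons (Or.inl ⟨a, rfl, rfl⟩) h⟩
  | nt r hr h1 _ ih1 ih2 =>
    obtain ⟨ys1, rfl, h3⟩ := ih1
    obtain ⟨ys2, rfl, h4⟩ := ih2
    exact ⟨ys1.flatten :: ys2, by simp, .cons (Or.inr ⟨_, rfl, DL.rule hr h1, coreC hr h3⟩) h4⟩

/-- **Pumping lemma** with a colouring of the pairs of words by a finite set -/
theorem pumpingC [Fintype Φ] (c : List T → List T → Φ) {w : List T} (hw : w ∈ g.language)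
    (hl : width g ^ ((inputs g).card * Fintype.card Φ) < w.length) :
    ∃ u v x y z : List T, w = u ++ v ++ x ++ y ++ z ∧ (v ≠ [] ∨ y ≠ []) ∧
      c u z = c (u ++ v) (y ++ z) ∧
      ∀ k : ℕ, u ++ (List.replicate k v).flatten ++ x ++ (List.replicate k y).flatten ++ z ∈
        g.language := by
  have h1 := mem_language.1 hw
  obtain ⟨ys, h2, h3⟩ := itemsC c h1
  obtain ⟨y0, rfl⟩ : ∃ y0, ys = [y0] := by
    cases h3 with
    | cons _ h => cases h; exact ⟨_, rfl⟩
  have h4 : y0 = w := by simpa using h2
  subst h4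
  rw [List.forall₂_cons] at h3
  have hcard : (ip g Φ).card = (inputs g).card * Fintype.card Φ := by
    unfold ip
    rw [Finset.card_product, Finset.card_univ]
  rcases h3.1 with ⟨a, ha, _⟩ | ⟨Y, hY, _, hQ⟩
  · cases ha
  · cases hY
    have hP := hQ [] [] ∅ (by simp)
      (fun x hx => by simpa using hx) (by simp) (by rw [hcard]; simpa using hl)
    rw [List.nil_append, List.append_nil] at hP
    obtain ⟨u, v, x, y, z, Z, e1, e2, e0, e3, e4, e5⟩ := hP
    refine ⟨u, v, x, y, z, e1, e2, e0, fun k => ?_⟩
    rw [mem_language]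
    have h5 : ∀ k : ℕ, DL g [.nonterminal Z]
        ((List.replicate k v).flatten ++ x ++ (List.replicate k y).flatten) := by
      intro k
      induction k with
      | zero => simpa using e5
      | succ k ih =>
        have h6 := e4 _ ih
        have hy : (List.replicate (k + 1) y).flatten = (List.replicate k y).flatten ++ y := by
          rw [List.replicate_succ', List.flatten_append]; simp
        rw [hy, List.replicate_succ, List.flatten_cons]
        simpa [List.append_assoc] using h6
    have h7 := e3 _ (h5 k)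
    simpa [List.append_assoc] using h7

end Pool.Agent.TH138.LG
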